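import Pool.Agent.T9h44.LA.Ind

set_option autoImplicit false

/-!
# The load criterion with several additional linear forests
-/

namespace Pool.Agent.T9h44.LA

open Finset SimpleGraph H931R3.LA Pool.Agent.W111.LAR Pool.Agent.TH486.LAC

/-- The preimage of a linear forest under an injective map is a linear forest. -/
theorem lf_comap {V V' : Type} [Finite V'] {F : SimpleGraph V'} (h : IsLF F) (f : V → V')
    (hf : Function.Injective f) : IsLF (F.comap f) := by
  refine ⟨?_, fun v => ?_⟩
  · intro v c hc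
    exact h.1 (c.map (Hom.comap f F)) (hc.map (f := Hom.comap f F) hf)
  · refine le_trans ?_ (h.2 (f v))
    rw [← Set.ncard_image_of_injective _ hf]
    refine Set.ncard_le_ncard ?_ (Set.toFinite _)
    rintro _ ⟨w, hw, rfl⟩
    exact hw

/-- Assembly: breaking all cyclic components by a selection contained in the union of the linear
forests `Q j`. -/
theorem assemble_t {V κ τ : Type} [Finite V] [Fintype κ] [Fintype τ] {H : κ → SimpleGraph V}
    (hdeg : ∀ i v, ((H i).neighborSet v).ncard ≤ 2) (s : II H → EE H) (hs : ∀ c, cl (s c) = c)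
    (Q : τ → SimpleGraph V) (hQ : ∀ j, IsLF (Q j))
    (hsel : ∀ c, ∃ j, (Q j).Adj (aa (s c)) (bb (s c))) :
    Cov ((⨆ j, Q j) ⊔ ⨆ i, H i) (Fintype.card κ + Fintype.card τ) := by
  classical
  let F : κ ⊕ τ → SimpleGraph V := fun t => match t with
    | Sum.inr j => Q j
    | Sum.inl i => (H i).deleteEdges {d | ∃ c : II H, c.1.1 = i ∧ d = (s c).1.2}
  have hcard : Nat.card (κ ⊕ τ) = Fintype.card κ + Fintype.card τ := by
    rw [Nat.card_eq_fintype_card, Fintype.card_sum]
  rw [← hcard]
  have hsi : ∀ c : II H, (s c).1.1 = c.1.1 := fun c => ((cl_iff (s c) c).1 (hs c)).1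
  refine cov_of_type F ?_ ?_
  · intro t
    cases t with
    | inr j => exact hQ j
    | inl i =>
      have hle : F (Sum.inl i) ≤ H i := deleteEdges_le _
      refine ⟨?_, fun v => le_trans (Set.ncard_le_ncard (fun u hu => hle hu) (Set.toFinite _))
        (hdeg i v)⟩
      intro v c hc
      have hcl' := closed_cycle hle (hdeg i) hc
      have hcyc : Cyc (H i) v := fun w hw => (hcl' w hw).2.1
      let c0 : II H := ⟨(i, rep (H i) v), hcyc.trans (rep_reach _ _).symm, rep_eq (rep_reach _ _)⟩
      have h1 := (cl_iff (s c0) c0).1 (hs c0)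
      have h2 : (H i).Reachable v (aa (s c0)) := (rep_reach (H i) v).symm.trans h1.2.symm
      have h3 : (H i).Adj (aa (s c0)) (bb (s c0)) := by
        have := adj_ends (s c0)
        rw [hsi c0] at this
        exact this
      have h4 := (hcl' _ h2).2.2 _ h3
      have h5 : (F (Sum.inl i)).Adj (aa (s c0)) (bb (s c0)) ↔
          (H i).Adj (aa (s c0)) (bb (s c0)) ∧
          s(aa (s c0), bb (s c0)) ∉ {d | ∃ c : II H, c.1.1 = i ∧ d = (s c).1.2} := deleteEdges_adj
      exact (h5.1 h4).2 ⟨c0, rfl, mk_ends _⟩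
  · ext u v
    simp only [iSup_adj, sup_adj]
    constructor
    · rintro ⟨t, ht⟩
      cases t with
      | inr j => exact Or.inl ⟨j, ht⟩
      | inl i => exact Or.inr ⟨i, deleteEdges_le _ ht⟩
    · rintro (⟨j, h⟩ | ⟨i, hi⟩)
      · exact ⟨Sum.inr j, h⟩
      · by_cases hd : s(u, v) ∈ {d | ∃ c : II H, c.1.1 = i ∧ d = (s c).1.2}
        · obtain ⟨c, _, hc2⟩ := hd
          obtain ⟨j, hj⟩ := hsel c
          refine ⟨Sum.inr j, ?_⟩
          rw [← mk_ends] at hc2
          rcases Sym2.eq_iff.1 hc2 with ⟨h1, h2⟩ | ⟨h1, h2⟩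
          · rw [h1, h2]; exact hj
          · rw [h1, h2]; exact hj.symm
        · exact ⟨Sum.inl i, deleteEdges_adj.2 ⟨hi, hd⟩⟩

open Classical in
/-- The criterion with `t` additional linear forests. -/
theorem cov_of_load_t {V κ : Type} [Finite V] [Fintype κ] (H : κ → SimpleGraph V) (t : ℕ)
    (ht : 1 ≤ t) (hdeg : ∀ i v, ((H i).neighborSet v).ncard ≤ 2)
    (hload : ∀ v, ∑ i, (if Cyc (H i) v then (2 : ℝ) / csize (H i) v else 0) ≤ t) :
    Cov (⨆ i, H i) (Fintype.card κ + t) := by
  have := Fintype.ofFinite V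
  have : Fintype (EE H) := Fintype.ofFinite (EE H)
  have : Fintype (II H) := Fintype.ofFinite (II H)
  have ht0 : (0 : ℝ) < t := by exact_mod_cast ht
  let x : EE H → ℝ := fun e => 1 / csize (H e.1.1) (aa e)
  have hclass : ∀ c : II H, ∑ e ∈ univ.filter (fun e => cl e = c), x e = 1 := by
    intro c
    have hx : ∀ e ∈ univ.filter (fun e : EE H => cl e = c), x e = 1 / csize (H c.1.1) c.1.2 := by
      intro e he
      obtain ⟨h1, h2⟩ := (cl_iff e c).1 (mem_filter.1 he).2
      show (1 : ℝ) / csize (H e.1.1) (aa e) = _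
      rw [h1, csize_eq h2]
    rw [sum_congr rfl hx, sum_const, nsmul_eq_mul, class_card]
    have hpos : (0 : ℝ) < csize (H c.1.1) c.1.2 := by exact_mod_cast csize_pos _ _
    field_simp
  have hvert : ∀ v, ∑ e ∈ star aa bb univ v, x e ≤ t := by
    intro v
    refine le_trans (le_of_eq ?_) (hload v)
    rw [← sum_fiberwise (star aa bb univ v) (fun e : EE H => e.1.1) x]
    refine sum_congr rfl fun i _ => ?_
    by_cases hcyc : Cyc (H i) v
    · rw [if_pos hcyc]
      have hx : ∀ e ∈ (star aa bb (univ : Finset (EE H)) v).filter (fun e => e.1.1 = i), x e =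
          1 / csize (H i) v := by
        intro e he
        obtain ⟨he1, he2⟩ := mem_filter.1 he
        obtain ⟨_, hinc⟩ := mem_filter.1 he1
        show (1 : ℝ) / csize (H e.1.1) (aa e) = _
        rw [← csize_eq (ends_reach e v hinc), he2]
      rw [sum_congr rfl hx, sum_const, cnt i v hcyc, nsmul_eq_mul]
      push_cast
      ring
    · rw [if_neg hcyc, cnt0 i v hcyc, sum_empty]
  have hx0 : ∀ e, 0 ≤ x e := fun e => by
    show (0 : ℝ) ≤ 1 / csize (H e.1.1) (aa e)
    positivity
  -- the selection in `t` copies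
  obtain ⟨s', hs', hLF⟩ := selection (V := V × Fin t) (E := EE H × Fin t) (ι := II H)
    (fun e => (aa e.1, e.2)) (fun e => (bb e.1, e.2))
    (fun e h => ends_ne e.1 (congrArg Prod.fst h)) (fun e => cl e.1) (fun e => x e.1 / t)
    (fun e => div_nonneg (hx0 _) ht0.le) (by
      intro c
      have h1 : (univ.filter fun e : EE H × Fin t => cl e.1 = c) =
          (univ.filter fun e : EE H => cl e = c) ×ˢ (univ : Finset (Fin t)) := by
        ext e
        simp only [mem_filter, mem_univ, true_and, mem_product, and_true]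
      rw [h1, sum_product]
      simp only [sum_const, card_univ, Fintype.card_fin, nsmul_eq_mul]
      rw [← mul_sum, ← sum_div, hclass c]
      field_simp) (by
      rintro ⟨v, j⟩
      have h1 : star (fun e : EE H × Fin t => (aa e.1, e.2)) (fun e => (bb e.1, e.2)) univ (v, j) =
          (star aa bb (univ : Finset (EE H)) v) ×ˢ ({j} : Finset (Fin t)) := by
        ext e
        simp only [W111.LAR.star, mem_filter, mem_univ, true_and, mem_product, mem_singleton,
          Prod.mk.injEq]
        tauto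
      rw [h1, sum_product]
      simp only [sum_singleton]
      rw [← sum_div, div_le_one ht0]
      exact hvert v)
  have hmain := assemble_t hdeg (fun c => (s' c).1) hs' (τ := Fin t)
    (fun j => (selGraph (fun e : EE H × Fin t => (aa e.1, e.2)) (fun e => (bb e.1, e.2)) s').comap
      fun v => (v, j))
    (fun j => lf_comap hLF _ fun v w h => congrArg Prod.fst h)
    (fun c => ⟨(s' c).2, fun h => ends_ne _ (congrArg Prod.fst h), c, Or.inl ⟨rfl, rfl⟩⟩)
  have hle : (⨆ j, (selGraph (fun e : EE H × Fin t => (aa e.1, e.2))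
      (fun e => (bb e.1, e.2)) s').comap fun v => (v, j)) ≤ ⨆ i, H i := by
    apply iSup_le
    rintro j u v ⟨_, c, hc⟩
    rw [iSup_adj]
    refine ⟨(s' c).1.1.1, ?_⟩
    simp only [Prod.mk.injEq] at hc
    rcases hc with ⟨⟨h1, _⟩, h2, _⟩ | ⟨⟨h1, _⟩, h2, _⟩
    · rw [← h1, ← h2]; exact adj_ends _
    · rw [← h1, ← h2]; exact (adj_ends _).symm
  rw [sup_eq_right.2 hle, Fintype.card_fin] at hmain
  exact hmain

theorem LDL.lift_t {V W : Type} [Finite V] [Finite W] {G : SimpleGraph V} {N : ℕ} {lam : ℝ}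
    (hG : LDL G N lam) (t : ℕ) (ht : 1 ≤ t) (hlam : lam ≤ t)
    (G' : SimpleGraph W) (f : W → V) (hom : ∀ a b, G'.Adj a b → G.Adj (f a) (f b))
    (inj : ∀ a b b', G'.Adj a b → G'.Adj a b' → f b = f b' → b = b') : Cov G' (N + t) := by
  obtain ⟨κ, _, P, hc, h1, h2, rfl⟩ := hG
  have hQ : G' = ⨆ i, (G' ⊓ (P i).comap f) := by
    ext a b
    rw [iSup_adj]
    constructor
    · intro h
      have h3 := hom a b h
      rw [iSup_adj] at h3
      obtain ⟨i, hi⟩ := h3
      exact ⟨i, by rw [inf_adj]; exact ⟨h, hi⟩⟩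
    · rintro ⟨i, hi⟩
      rw [inf_adj] at hi
      exact hi.1
  have h3 := cov_of_load_t (fun i => G' ⊓ (P i).comap f) t ht (by
    intro i a
    rw [← (pull_inj inj (P i) a).ncard_image]
    exact (Set.ncard_le_ncard (pull_maps (P i) a) (Set.toFinite _)).trans (h1 i (f a))) (by
    intro a
    refine le_trans ?_ ((h2 (f a)).trans hlam)
    refine sum_le_sum fun i _ => ?_
    split_ifs with hcyc
    · have h4 : (csize (P i) (f a) : ℝ) ≤ csize (G' ⊓ (P i).comap f) a := by
        exact_mod_cast pull_size inj (P i) (h1 i) a hcyc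
      have h5 : (0 : ℝ) < csize (P i) (f a) := by
        exact_mod_cast csize_pos (P i) (f a)
      exact div_le_div_of_nonneg_left (by norm_num) h5 h4
    · positivity)
  rw [← hQ, hc] at h3
  exact h3

end Pool.Agent.T9h44.LA
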