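import Pool.Agent.Y191.LcDec

set_option autoImplicit false

/-!
# Equitable Rado-Horn theorem for families
-/

namespace Pool.Agent.T9h44.LA

open Finset Module

variable {F E V : Type} [Field F] [AddCommGroup V] [Module F V] [FiniteDimensional F V]
  [Fintype E]

/-- **The Rado-Horn theorem** for a family of vectors, with classes of almost equal sizes. -/
theorem equitable_fam (a : E → V) {l : ℕ} (hl : 0 < l)
    (h : ∀ S : Finset E, S.card ≤ l * finrank F ↥(Submodule.span F (a '' (S : Set E)))) :
    ∃ c : E → Fin l, (∀ t, (univ.filter fun e => c e = t).card ≤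
      finrank F ↥(Submodule.span F (a '' ((univ.filter fun e => c e = t : Finset E) : Set E)))) ∧
      ∀ i j, (univ.filter fun e => c e = i).card ≤ (univ.filter fun e => c e = j).card + 1 := by
  classical
  have hex : ∃ n, ∃ c : E → Fin l, (∀ t, (univ.filter fun e => c e = t).card ≤
      finrank F ↥(Submodule.span F
        (a '' ((univ.filter fun e => c e = t : Finset E) : Set E)))) ∧
      ∑ j, (univ.filter (fun x => c x = j)).card ^ 2 = n := by
    obtain ⟨c, hc⟩ := Pool.Agent.Y191.rado_fam a hl h
    exact ⟨_, c, hc, rfl⟩
  obtain ⟨c, hc, hmin⟩ := Nat.find_spec hex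
  refine ⟨c, hc, fun i j => ?_⟩
  by_contra hcon
  push Not at hcon
  have hij : i ≠ j := by
    rintro rfl
    omega
  -- an element to move
  obtain ⟨x, hx, hxj⟩ : ∃ x ∈ univ.filter (fun x => c x = i),
      a x ∉ Submodule.span F (a '' ((univ.filter (fun x => c x = j) : Finset E) : Set E)) := by
    by_contra hcon2
    push Not at hcon2
    have h1 : Submodule.span F (a '' ((univ.filter (fun x => c x = i) : Finset E) : Set E)) ≤
        Submodule.span F (a '' ((univ.filter (fun x => c x = j) : Finset E) : Set E)) := by
      refine Submodule.span_le.2 ?_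
      rintro _ ⟨x, hx, rfl⟩
      exact hcon2 x hx
    have h2 := Submodule.finrank_mono h1
    have h3 : finrank F ↥(Submodule.span F
        (a '' ((univ.filter (fun x => c x = j) : Finset E) : Set E))) ≤
        (univ.filter (fun x => c x = j)).card := by
      rw [← Finset.coe_image]
      exact (finrank_span_finset_le_card _).trans Finset.card_image_le
    have h4 := hc i
    omega
  obtain ⟨_, hxi⟩ := mem_filter.1 hx
  let c' : E → Fin l := fun y => if y = x then j else c y
  have hj' : univ.filter (fun y => c' y = j) = insert x (univ.filter (fun y => c y = j)) := by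
    ext y
    simp only [c', mem_filter, mem_insert, mem_univ, true_and]
    by_cases hy : y = x
    · subst hy; simp
    · simp [hy]
  have hi' : univ.filter (fun y => c' y = i) = (univ.filter (fun y => c y = i)).erase x := by
    ext y
    simp only [c', mem_filter, mem_erase, mem_univ, true_and]
    by_cases hy : y = x
    · subst hy; simp [Ne.symm hij]
    · simp [hy]
  have hk' : ∀ k, k ≠ i → k ≠ j →
      univ.filter (fun y => c' y = k) = univ.filter (fun y => c y = k) := by
    intro k hki hkj
    ext y
    simp only [c', mem_filter, mem_univ, true_and]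
    by_cases hy : y = x
    · subst hy; simp [hxi, Ne.symm hkj, Ne.symm hki]
    · simp [hy]
  have hxj' : x ∉ univ.filter (fun y => c y = j) := fun h' =>
    hxj (Submodule.subset_span ⟨x, h', rfl⟩)
  have hind : ∀ k, (univ.filter fun e => c' e = k).card ≤
      finrank F ↥(Submodule.span F
        (a '' ((univ.filter fun e => c' e = k : Finset E) : Set E))) := by
    intro k
    by_cases hki : k = i
    · subst hki
      rw [hi', card_erase_of_mem hx]
      have h1 := hc k
      -- the span of the class is at most the span of the rest plus one
      have h2 : Submodule.span F (a '' ((univ.filter (fun x => c x = k) : Finset E) : Set E)) ≤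
          Submodule.span F (a '' (((univ.filter (fun x => c x = k)).erase x : Finset E) :
            Set E)) ⊔ Submodule.span F (({a x} : Finset V) : Set V) := by
        refine Submodule.span_le.2 ?_
        rintro _ ⟨y, hy, rfl⟩
        by_cases hyx : y = x
        · subst hyx
          exact Submodule.mem_sup_right (Submodule.subset_span (by simp))
        · refine Submodule.mem_sup_left (Submodule.subset_span ⟨y, ?_, rfl⟩)
          rw [mem_coe, mem_erase]
          exact ⟨hyx, hy⟩
      have h3 := Submodule.finrank_mono h2
      have h4 := Submodule.finrank_add_le_finrank_add_finrank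
        (Submodule.span F (a '' (((univ.filter (fun x => c x = k)).erase x : Finset E) :
            Set E))) (Submodule.span F (({a x} : Finset V) : Set V))
      have h5 : finrank F ↥(Submodule.span F (({a x} : Finset V) : Set V)) ≤ 1 :=
        (finrank_span_finset_le_card _).trans (by simp)
      omega
    · by_cases hkj : k = j
      · subst hkj
        rw [hj', card_insert_of_notMem hxj']
        have h1 := hc k
        have h2 : Submodule.span F (a '' ((univ.filter (fun x => c x = k) : Finset E) : Set E)) <
          Submodule.span F (a '' ((insert x (univ.filter (fun x => c x = k)) : Finset E) :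
            Set E)) := by
          refine lt_of_le_of_ne (Submodule.span_mono (Set.image_mono ?_)) ?_
          · rw [coe_insert]
            exact Set.subset_insert _ _
          · intro heq
            apply hxj
            rw [heq]
            exact Submodule.subset_span ⟨x, by simp, rfl⟩
        have h3 := Submodule.finrank_lt_finrank_of_lt h2
        omega
      · rw [hk' k hki hkj]
        exact hc k
  have hlt : ∑ k, (univ.filter (fun x => c' x = k)).card ^ 2 <
      ∑ k, (univ.filter (fun x => c x = k)).card ^ 2 := by
    have hsp : ∀ g : Fin l → ℕ, ∑ k, g k = g i + (g j + ∑ k ∈ (univ.erase i).erase j, g k) := by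
      intro g
      rw [← add_sum_erase _ _ (mem_univ i), ← add_sum_erase _ _ (mem_erase.2 ⟨Ne.symm hij,
        mem_univ j⟩)]
    rw [hsp, hsp (fun k => (univ.filter (fun x => c x = k)).card ^ 2)]
    have h1 : ∑ k ∈ (univ.erase i).erase j, (univ.filter (fun x => c' x = k)).card ^ 2 =
        ∑ k ∈ (univ.erase i).erase j, (univ.filter (fun x => c x = k)).card ^ 2 := by
      refine sum_congr rfl fun k hk => ?_
      rw [mem_erase, mem_erase] at hk
      rw [hk' k hk.2.1 hk.1]
    rw [h1, hi', hj', card_erase_of_mem hx, card_insert_of_notMem hxj']
    obtain ⟨A, hA⟩ : ∃ A, A + 1 = (univ.filter (fun x => c x = i)).card := by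
      have : 0 < (univ.filter (fun x => c x = i)).card := card_pos.2 ⟨x, hx⟩
      exact ⟨(univ.filter (fun x => c x = i)).card - 1, by omega⟩
    rw [← hA] at hcon ⊢
    rw [Nat.add_sub_cancel]
    have h2 : (univ.filter (fun x => c x = j)).card < A := by omega
    nlinarith
  exact Nat.find_min hex (hmin ▸ hlt) ⟨c', hind, rfl⟩

/-- The classes are linearly independent. -/
theorem li_of_card {a : E → V} {S : Finset E}
    (h : S.card ≤ finrank F ↥(Submodule.span F (a '' (S : Set E)))) {m : ℕ}
    (e : Fin m ≃ S) : LinearIndependent F (fun i => a (e i)) := by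
  rw [linearIndependent_iff_card_le_finrank_span]
  have h1 : Set.range (fun i => a (e i)) = a '' (S : Set E) := by
    ext y
    constructor
    · rintro ⟨i, rfl⟩
      exact ⟨e i, (e i).2, rfl⟩
    · rintro ⟨x, hx, rfl⟩
      exact ⟨e.symm ⟨x, hx⟩, by simp⟩
  have h2 : Fintype.card (Fin m) = S.card := by
    rw [Fintype.card_congr e, Fintype.card_coe]
  rw [Set.finrank, h1, h2]
  exact h

end Pool.Agent.T9h44.LA
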