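import Pool.Agent.T9h44.LA.Vec
import Pool.Agent.T9h44.LA.Fam

set_option autoImplicit false

/-!
# Cayley graphs of abelian groups whose generators have the same prime power order
-/

namespace Pool.Agent.T9h44.LA

open Finset Module SimpleGraph H931R3.LA Pool.Agent.W111.LAR Pool.Agent.TH486.LAC

section cay

variable {Γ : Type} [AddCommGroup Γ]

/-- A choice of one element from each pair of opposite elements. -/
theorem half_set [Finite Γ] (S : Finset Γ) (hneg : ∀ s ∈ S, -s ∈ S) (hinv : ∀ s ∈ S, -s ≠ s) :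
    ∃ A : Finset Γ, A ⊆ S ∧ (∀ s ∈ S, s ∈ A ∨ -s ∈ A) ∧ (∀ a ∈ A, -a ∉ A) := by
  classical
  obtain ⟨n, ⟨f⟩⟩ := Finite.exists_equiv_fin Γ
  refine ⟨S.filter fun s => f s < f (-s), filter_subset _ _, ?_, ?_⟩
  · intro s hs
    rcases lt_trichotomy (f s) (f (-s)) with h | h | h
    · exact Or.inl (mem_filter.2 ⟨hs, h⟩)
    · exact absurd (f.injective h).symm (hinv s hs)
    · right
      rw [mem_filter, neg_neg]
      exact ⟨hneg s hs, h⟩
  · intro a ha hna
    have h1 := (mem_filter.1 ha).2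
    have h2 := (mem_filter.1 hna).2
    rw [neg_neg] at h2
    exact lt_asymm h1 h2

theorem half_card [DecidableEq Γ] {A B : Finset Γ} (hA : ∀ a ∈ A, -a ∉ A)
    (hAB : ∀ a ∈ A, a ∈ B ∧ -a ∈ B) : 2 * A.card ≤ B.card := by
  have h1 : Disjoint A (A.image fun a => -a) := by
    rw [Finset.disjoint_left]
    intro a ha hna
    obtain ⟨b, hb, hba⟩ := mem_image.1 hna
    apply hA b hb
    rw [hba]
    exact ha
  have h2 : A ∪ A.image (fun a => -a) ⊆ B := by
    intro b hb
    rcases mem_union.1 hb with h | h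
    · exact (hAB b h).1
    · obtain ⟨a, ha, rfl⟩ := mem_image.1 h
      exact (hAB a ha).2
  have h3 := card_le_card h2
  rw [card_union_of_disjoint h1, card_image_of_injective _ neg_injective] at h3
  omega

theorem half_card' [DecidableEq Γ] {A S : Finset Γ} (hA : ∀ s ∈ S, s ∈ A ∨ -s ∈ A) :
    S.card ≤ 2 * A.card := by
  have h1 : S ⊆ A ∪ A.image (fun a => -a) := by
    intro s hs
    rw [mem_union]
    rcases hA s hs with h | h
    · exact Or.inl h
    · exact Or.inr (mem_image.2 ⟨-s, h, neg_neg s⟩)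
  have h2 := card_le_card h1
  have h3 := card_union_le A (A.image fun a => -a)
  rw [card_image_of_injective _ neg_injective] at h3
  omega

/-- Subspaces spanned by the images of the generators. -/
theorem sub_count [Finite Γ] [DecidableEq Γ] {p e : ℕ} (hp : p.Prime) (S A : Finset Γ)
    (hAS : A ⊆ S) (hneg : ∀ s ∈ S, -s ∈ S) (hA : ∀ a ∈ A, -a ∉ A) (lam : ℝ)
    (hlam : ∀ (U : AddSubgroup Γ) (r : ℕ), 1 ≤ r → (∀ u ∈ U, p • u = 0) → Nat.card U = p ^ r →
      ({s | s ∈ S ∧ p ^ (e - 1) • s ∈ U}.ncard : ℝ) + 2 * ((r : ℝ) - 1) ^ 2 * ((p : ℝ) ^ e - 1) ≤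
        lam * ((p : ℝ) ^ e) ^ r)
    (σ : A → ptor Γ p) (hσ : ∀ a, (σ a : Γ) = p ^ (e - 1) • (a : Γ))
    (W : Submodule (ZMod p) (ptor Γ p)) (hW : 1 ≤ finrank (ZMod p) W) (B : Finset A)
    (hB : ∀ a ∈ B, σ a ∈ W) :
    2 * (B.card : ℝ) + 2 * ((finrank (ZMod p) W : ℝ) - 1) ^ 2 * ((p : ℝ) ^ e - 1) ≤
      lam * ((p : ℝ) ^ e) ^ (finrank (ZMod p) W) := by
  classical
  have : Fact p.Prime := ⟨hp⟩
  have : Finite (ptor Γ p) := inferInstance
  obtain ⟨U, hU⟩ : ∃ U : AddSubgroup Γ, U = W.toAddSubgroup.map (ptor Γ p).subtype := ⟨_, rfl⟩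
  have hcard : Nat.card U = p ^ finrank (ZMod p) W := by
    have h1 : Nat.card W = p ^ finrank (ZMod p) W := by
      rw [Module.natCard_eq_pow_finrank (K := ZMod p), Nat.card_zmod]
    rw [← h1, hU]
    exact (Nat.card_congr (W.toAddSubgroup.equivMapOfInjective _
      (ptor Γ p).subtype_injective).toEquiv).symm
  have htor : ∀ u ∈ U, p • u = 0 := by
    intro u hu
    rw [hU] at hu
    obtain ⟨x, _, rfl⟩ := hu
    exact mem_ptor.1 x.2
  have h1 := hlam U _ hW htor hcard
  have h2 : 2 * B.card ≤ {s | s ∈ S ∧ p ^ (e - 1) • s ∈ U}.ncard := by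
    have h3 := half_card (A := B.image (Subtype.val : A → Γ))
      (B := S.filter fun s => p ^ (e - 1) • s ∈ U) (by
        intro a ha hna
        obtain ⟨b, _, rfl⟩ := mem_image.1 ha
        obtain ⟨c, _, hc⟩ := mem_image.1 hna
        apply hA _ b.2
        rw [← hc]
        exact c.2) (by
        intro a ha
        obtain ⟨b, hb, rfl⟩ := mem_image.1 ha
        have h4 : p ^ (e - 1) • (b : Γ) ∈ U := by
          rw [← hσ, hU]
          exact ⟨σ b, hB b hb, rfl⟩
        rw [mem_filter, mem_filter]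
        refine ⟨⟨hAS b.2, h4⟩, hneg _ (hAS b.2), ?_⟩
        rw [smul_neg]
        exact neg_mem h4)
    rw [card_image_of_injective _ Subtype.val_injective] at h3
    refine h3.trans (le_of_eq ?_)
    rw [← Set.ncard_coe_finset]
    congr 1
    ext s
    simp
  have h3 : 2 * (B.card : ℝ) ≤ ({s | s ∈ S ∧ p ^ (e - 1) • s ∈ U}.ncard : ℝ) := by
    exact_mod_cast h2
  linarith

/-- Cayley graphs with generators of order `p ^ e`. -/
theorem order_ldl [Finite Γ] {p e : ℕ} (hp : p.Prime) (hpo : Odd p) (he : 1 ≤ e) (S : Finset Γ)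
    (hne : S.Nonempty) (hneg : ∀ s ∈ S, -s ∈ S) (hord : ∀ s ∈ S, addOrderOf s = p ^ e) (lam : ℝ)
    (hlam : ∀ (U : AddSubgroup Γ) (r : ℕ), 1 ≤ r → (∀ u ∈ U, p • u = 0) → Nat.card U = p ^ r →
      ({s | s ∈ S ∧ p ^ (e - 1) • s ∈ U}.ncard : ℝ) + 2 * ((r : ℝ) - 1) ^ 2 * ((p : ℝ) ^ e - 1) ≤
        lam * ((p : ℝ) ^ e) ^ r)
    (X : SimpleGraph Γ) (hX : ∀ g h, X.Adj g h ↔ h - g ∈ S) :
    ∃ k, S.card = 2 * k ∧ LDL X k lam := by
  classical
  have hfact : Fact p.Prime := ⟨hp⟩
  have hp3 : 3 ≤ p := by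
    have := hp.two_le
    obtain ⟨k, hk⟩ := hpo
    omega
  have hN3 : 3 ≤ p ^ e := hp3.trans (Nat.le_self_pow (by omega) p)
  have hNodd : Odd (p ^ e) := hpo.pow
  have hpe : p ^ e = p ^ (e - 1) * p := by
    rw [← pow_succ]
    congr 1
    omega
  have hN0 : ∀ s ∈ S, p ^ e • s = 0 := fun s hs => by
    rw [← hord s hs]
    exact addOrderOf_nsmul_eq_zero s
  have hs0 : ∀ s ∈ S, p ^ (e - 1) • s ≠ 0 := by
    intro s hs h0
    have h1 := addOrderOf_dvd_of_nsmul_eq_zero h0
    rw [hord s hs] at h1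
    have h2 := Nat.le_of_dvd (pow_pos hp.pos _) h1
    have h3 : p ^ (e - 1) < p ^ e := Nat.pow_lt_pow_right (by omega) (by omega)
    omega
  have hinv : ∀ s ∈ S, -s ≠ s := by
    intro s hs h
    have h1 : 2 • s = 0 := by
      rw [two_smul]
      nth_rw 1 [← h]
      exact neg_add_cancel s
    have h2 := addOrderOf_dvd_of_nsmul_eq_zero h1
    rw [hord s hs] at h2
    have := Nat.le_of_dvd (by norm_num) h2
    omega
  obtain ⟨A, hAS, hA1, hA2⟩ := half_set S hneg hinv
  have hAcard : S.card = 2 * A.card := by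
    apply le_antisymm (half_card' hA1)
    exact half_card hA2 fun a ha => ⟨hAS ha, hneg a (hAS ha)⟩
  have hAne : A.Nonempty := by
    rw [← card_pos]
    have := hne.card_pos
    omega
  -- the images in the p-torsion
  obtain ⟨σ, hσ⟩ : ∃ σ : A → ptor Γ p, ∀ a, (σ a : Γ) = p ^ (e - 1) • (a : Γ) :=
    ⟨fun a => ⟨p ^ (e - 1) • (a : Γ), by
      rw [mem_ptor, smul_smul, mul_comm, ← hpe]
      exact hN0 _ (hAS a.2)⟩, fun a => rfl⟩
  have hσ0 : ∀ a, σ a ≠ 0 := by
    intro a h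
    apply hs0 a (hAS a.2)
    rw [← hσ, h]
    rfl
  have hfin : FiniteDimensional (ZMod p) (ptor Γ p) := inferInstance
  have hrank : ∀ T : Finset A, T.Nonempty →
      1 ≤ finrank (ZMod p) ↥(Submodule.span (ZMod p) (σ '' (T : Set A))) := by
    rintro T ⟨a, ha⟩
    rw [Nat.one_le_iff_ne_zero, ← Nat.pos_iff_ne_zero, Module.finrank_pos_iff]
    refine ⟨⟨⟨σ a, Submodule.subset_span ⟨a, ha, rfl⟩⟩, 0, ?_⟩⟩
    intro h
    exact hσ0 a (congrArg Subtype.val h)
  have hcnt := sub_count (e := e) hp S A hAS hneg hA2 lam hlam σ hσ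
  -- the number of classes
  have hex : ∃ l : ℕ, 0 < l ∧ ∀ T : Finset A,
      T.card ≤ l * finrank (ZMod p) ↥(Submodule.span (ZMod p) (σ '' (T : Set A))) := by
    refine ⟨A.card, hAne.card_pos, fun T => ?_⟩
    rcases T.eq_empty_or_nonempty with rfl | hT
    · simp
    · have h1 := hrank T hT
      have h2 : T.card ≤ A.card := by
        have := card_le_univ T
        rwa [Fintype.card_coe] at this
      calc T.card ≤ A.card * 1 := by omega
        _ ≤ _ := Nat.mul_le_mul_left _ h1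
  obtain ⟨l, hl⟩ : ∃ l, l = Nat.find hex := ⟨_, rfl⟩
  obtain ⟨hl0, hlT⟩ := Nat.find_spec hex
  rw [← hl] at hl0 hlT
  obtain ⟨T, hTne, hTcard⟩ : ∃ T : Finset A, T.Nonempty ∧
      (l - 1) * finrank (ZMod p) ↥(Submodule.span (ZMod p) (σ '' (T : Set A))) + 1 ≤ T.card := by
    by_cases hl1 : l = 1
    · obtain ⟨a, ha⟩ := hAne
      refine ⟨{⟨a, ha⟩}, singleton_nonempty _, ?_⟩
      rw [hl1, card_singleton]
      omega
    · have h1 := Nat.find_min hex (m := l - 1) (by omega)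
      rw [not_and] at h1
      have h2 := h1 (by omega)
      push Not at h2
      obtain ⟨T, hT⟩ := h2
      refine ⟨T, ?_, hT⟩
      rw [← card_pos]
      omega
  -- the classes
  obtain ⟨c, hc, heq⟩ := equitable_fam σ hl0 hlT
  have hsum : ∑ t, (univ.filter fun a => c a = t).card = A.card := by
    rw [← Fintype.card_coe A, ← Finset.card_univ]
    exact (card_eq_sum_card_fiberwise fun _ _ => mem_coe.2 (mem_univ _)).symm
  have hline : 2 ≤ lam * ((p ^ e : ℕ) : ℝ) := by
    obtain ⟨a, ha⟩ := hAne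
    have h1 := hcnt (Submodule.span (ZMod p) {σ ⟨a, ha⟩}) (by
      rw [finrank_span_singleton (hσ0 _)]) {⟨a, ha⟩} (by
      intro b hb
      rw [mem_singleton.1 hb]
      exact Submodule.mem_span_singleton_self _)
    rw [finrank_span_singleton (hσ0 _), card_singleton] at h1
    push_cast at h1 ⊢
    simp only [mul_one, sub_self, ne_eq, OfNat.ofNat_ne_zero, not_false_eq_true, zero_pow,
      mul_zero, zero_mul, add_zero, pow_one] at h1
    exact h1
  have hload : ∑ t, gl (p ^ e) (univ.filter fun a => c a = t).card ≤ lam := by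
    have h1 := hcnt (Submodule.span (ZMod p) (σ '' (T : Set A))) (hrank T hTne)
      (univ.filter fun a => σ a ∈ Submodule.span (ZMod p) (σ '' (T : Set A)))
      (fun a ha => (mem_filter.1 ha).2)
    have hTle : T.card ≤ (univ.filter fun a =>
        σ a ∈ Submodule.span (ZMod p) (σ '' (T : Set A))).card := by
      apply card_le_card
      intro a ha
      rw [mem_filter]
      exact ⟨mem_univ _, Submodule.subset_span ⟨a, ha, rfl⟩⟩
    refine part_load (k := A.card) hN3 hNodd hl0 _ hsum heq lam hline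
      (w := (univ.filter fun a => σ a ∈ Submodule.span (ZMod p) (σ '' (T : Set A))).card)
      (r := finrank (ZMod p) ↥(Submodule.span (ZMod p) (σ '' (T : Set A))))
      (hrank T hTne) ?_ (hTcard.trans hTle) ?_
    · have := card_le_univ (univ.filter fun a =>
        σ a ∈ Submodule.span (ZMod p) (σ '' (T : Set A)))
      rwa [Fintype.card_coe] at this
    · push_cast
      exact h1
  -- the decomposition
  have hclass : ∀ t : Fin l, ∃ Xt : SimpleGraph Γ,
      (∀ g h, Xt.Adj g h ↔ ∃ a : A, c a = t ∧ (h = g + a ∨ g = h + a)) ∧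
      LDL Xt (univ.filter fun a => c a = t).card (gl (p ^ e) (univ.filter fun a => c a = t).card) := by
    intro t
    refine ⟨{ Adj := fun g h => ∃ a : A, c a = t ∧ (h = g + a ∨ g = h + a)
              symm := ⟨?_⟩
              loopless := ⟨?_⟩ }, fun g h => Iff.rfl, ?_⟩
    · rintro g h ⟨a, ha, h1⟩
      exact ⟨a, ha, h1.symm⟩
    · rintro g ⟨a, _, h1⟩
      have h2 : (a : Γ) = 0 := by
        rcases h1 with h1 | h1 <;> exact (left_eq_add.1 h1)
      apply hs0 _ (hAS a.2)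
      rw [h2, smul_zero]
    · rcases Nat.eq_zero_or_pos (univ.filter fun a => c a = t).card with h0 | hpos
      · rw [h0]
        refine ⟨Empty, inferInstance, fun x => x.elim, rfl, fun x => x.elim, fun v => ?_, ?_⟩
        · simp [gl]
        · ext g h
          rw [iSup_adj]
          constructor
          · rintro ⟨a, ha, _⟩
            exact absurd (mem_filter.2 ⟨mem_univ a, ha⟩) (by
              rw [card_eq_zero.1 h0]
              exact notMem_empty _)
          · rintro ⟨x, _⟩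
            exact x.elim
      · obtain ⟨m, hm⟩ : ∃ m, m = (univ.filter fun a => c a = t).card := ⟨_, rfl⟩
        have eq : Fin m ≃ (univ.filter fun a => c a = t : Finset A) := by
          rw [hm]
          exact (Finset.equivFin _).symm
        have hli := li_of_card (F := ZMod p) (hc t) eq
        rw [← hm]
        have ht : ∀ i, p ^ e • (((eq i : A)) : Γ) = 0 := fun i => hN0 _ (hAS (eq i : A).2)
        refine ind_ldl hN3 hNodd (by omega) (fun i => (((eq i : A)) : Γ)) ht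
          (comb_inj hp he _ ht (fun i => σ (eq i)) (fun i => hσ _) hli) _ ?_
        intro g h
        constructor
        · rintro ⟨a, ha, h1⟩
          refine ⟨eq.symm ⟨a, mem_filter.2 ⟨mem_univ a, ha⟩⟩, ?_⟩
          rw [Equiv.apply_symm_apply]
          exact h1
        · rintro ⟨i, h1⟩
          exact ⟨eq i, (mem_filter.1 (eq i).2).2, h1⟩
  choose Xt hXt1 hXt2 using hclass
  have hXeq : X = ⨆ t, Xt t := by
    ext g h
    rw [iSup_adj, hX]
    constructor
    · intro hs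
      rcases hA1 _ hs with ha | ha
      · exact ⟨c ⟨_, ha⟩, (hXt1 _ _ _).2 ⟨⟨_, ha⟩, rfl, Or.inl (by
          show h = g + (h - g)
          abel)⟩⟩
      · exact ⟨c ⟨_, ha⟩, (hXt1 _ _ _).2 ⟨⟨_, ha⟩, rfl, Or.inr (by
          show g = h + -(h - g)
          abel)⟩⟩
    · rintro ⟨t, ht⟩
      obtain ⟨a, _, h1 | h1⟩ := (hXt1 _ _ _).1 ht
      · rw [h1, add_sub_cancel_left]
        exact hAS a.2
      · have h2 : h - g = -(a : Γ) := by rw [h1]; abel
        rw [h2]
        exact hneg _ (hAS a.2)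
  have h1 := (LDL.iSup Xt _ _ hXt2).mono hload
  rw [← hXeq, hsum] at h1
  exact ⟨A.card, hAcard, h1⟩

/-- Cayley graphs with generators of odd prime power orders. -/
theorem orders_ldl [Finite Γ] (S : Finset Γ) (hneg : ∀ s ∈ S, -s ∈ S)
    (hord : ∀ s ∈ S, ∃ p e : ℕ, p.Prime ∧ Odd p ∧ 1 ≤ e ∧ addOrderOf s = p ^ e)
    (D : Finset ℕ) (hD : ∀ N, N ∈ D ↔ ∃ s ∈ S, addOrderOf s = N) (lam : ℕ → ℝ)
    (hlam : ∀ (p e r : ℕ) (U : AddSubgroup Γ), p.Prime → 1 ≤ e → p ^ e ∈ D → 1 ≤ r →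
      (∀ u ∈ U, p • u = 0) → Nat.card U = p ^ r →
      ({s | s ∈ S ∧ addOrderOf s = p ^ e ∧ p ^ (e - 1) • s ∈ U}.ncard : ℝ) +
        2 * ((r : ℝ) - 1) ^ 2 * ((p : ℝ) ^ e - 1) ≤ lam (p ^ e) * ((p : ℝ) ^ e) ^ r)
    (X : SimpleGraph Γ) (hX : ∀ g h, X.Adj g h ↔ h - g ∈ S) :
    ∃ k, S.card = 2 * k ∧ LDL X k (∑ N ∈ D, lam N) := by
  classical
  have h0 : ∀ s ∈ S, s ≠ 0 := by
    intro s hs h
    have h1 : X.Adj 0 s := (hX 0 s).2 (by rwa [sub_zero])
    exact h1.ne h.symm
  have key : ∀ N : D, ∃ (k : ℕ) (XN : SimpleGraph Γ),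
      (∀ g h, XN.Adj g h ↔ h - g ∈ S.filter fun s => addOrderOf s = N) ∧
      (S.filter fun s => addOrderOf s = (N : ℕ)).card = 2 * k ∧ LDL XN k (lam N) := by
    rintro ⟨N, hN⟩
    obtain ⟨s, hs, hsN⟩ := (hD N).1 hN
    obtain ⟨p, e, hp, hpo, he, hpe⟩ := hord s hs
    rw [hpe] at hsN
    subst hsN
    obtain ⟨XN, hXN⟩ : ∃ XN : SimpleGraph Γ, ∀ g h, XN.Adj g h ↔
        h - g ∈ S.filter fun s => addOrderOf s = p ^ e := by
      refine ⟨{ Adj := fun g h => h - g ∈ S.filter fun s => addOrderOf s = p ^ e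
                symm := ⟨?_⟩
                loopless := ⟨?_⟩ }, fun g h => Iff.rfl⟩
      · intro g h hgh
        rw [mem_filter] at hgh ⊢
        rw [← neg_sub h g]
        exact ⟨hneg _ hgh.1, by rw [addOrderOf_neg]; exact hgh.2⟩
      · intro g hg
        rw [sub_self, mem_filter] at hg
        exact h0 _ hg.1 rfl
    have h1 := order_ldl hp hpo he (S.filter fun s => addOrderOf s = p ^ e)
      ⟨s, mem_filter.2 ⟨hs, hpe⟩⟩ (by
        intro s hs
        rw [mem_filter] at hs ⊢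
        exact ⟨hneg _ hs.1, by rw [addOrderOf_neg]; exact hs.2⟩)
      (fun s hs => (mem_filter.1 hs).2) (lam (p ^ e)) (by
        intro U r hr hU hUc
        have h2 := hlam p e r U hp he hN hr hU hUc
        convert h2 using 5
        ext s
        rw [mem_filter, and_assoc]) XN hXN
    obtain ⟨k, hk1, hk2⟩ := h1
    exact ⟨k, XN, hXN, hk1, hk2⟩
  choose k XN hXN hk hldl using key
  refine ⟨∑ N, k N, ?_, ?_⟩
  · rw [card_eq_sum_card_fiberwise (f := addOrderOf) (t := D) fun s hs => (hD _).2 ⟨s, hs, rfl⟩]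
    rw [mul_sum, ← sum_coe_sort D]
    exact sum_congr rfl fun N _ => hk N
  · have h1 := LDL.iSup XN k (fun N : D => lam N) hldl
    rw [sum_coe_sort D lam] at h1
    have h2 : X = ⨆ N, XN N := by
      ext g h
      rw [iSup_adj, hX]
      constructor
      · intro hs
        exact ⟨⟨_, (hD _).2 ⟨_, hs, rfl⟩⟩, (hXN _ _ _).2 (mem_filter.2 ⟨hs, rfl⟩)⟩
      · rintro ⟨N, hN⟩
        exact (mem_filter.1 ((hXN _ _ _).1 hN)).1
    rw [h2]
    exact h1

end cay

end Pool.Agent.T9h44.LA
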