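import Pool.Agent.W111.LAR.Dec

set_option autoImplicit false

/-!
# Directed form of Petersen's theorem
-/

namespace Pool.Agent.T9h44.RC

open Finset SimpleGraph H931R3.LA Pool.Agent.W111.LAR

/-- A graph of maximum degree at most `2 k` is a union of `k` sets of directed edges with in-degrees
and out-degrees at most one, each edge being used once. -/
theorem decomp_dir {V : Type} [Finite V] (G : SimpleGraph V) (k : ℕ)
    (hdeg : ∀ v, (G.neighborSet v).ncard ≤ 2 * k) :
    ∃ R : Fin k → V → V → Prop, (∀ i a b c, R i a b → R i a c → b = c) ∧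
      (∀ i a b c, R i a c → R i b c → a = b) ∧ (∀ i a b, R i a b → G.Adj a b) ∧
      (∀ a b, G.Adj a b → ∃ i, R i a b ∨ R i b a) ∧
      (∀ i j a b, R i a b → R j a b → i = j) ∧ (∀ i j a b, R i a b → ¬ R j b a) := by
  classical
  have := Fintype.ofFinite V
  let E1 := {e : Sym2 V // e ∈ G.edgeSet}
  have : Fintype E1 := Fintype.ofFinite E1
  let p1 : E1 → V := fun e => e.1.out.1
  let q1 : E1 → V := fun e => e.1.out.2
  have hpq : ∀ e : E1, s(p1 e, q1 e) = e.1 := fun e => Quot.out_eq e.1
  have hadj : ∀ e : E1, G.Adj (p1 e) (q1 e) := by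
    intro e
    have := e.2
    rw [← hpq e] at this
    exact this
  have real : ∀ v, (univ.filter (fun e => p1 e = v)).card + (univ.filter (fun e => q1 e = v)).card =
      (G.neighborSet v).ncard := by
    intro v
    rw [← card_union_of_disjoint, Set.ncard_eq_toFinset_card']
    · symm
      refine card_bij (fun w hw => (⟨s(v, w), ?_⟩ : E1)) ?_ ?_ ?_
      · rw [Set.mem_toFinset] at hw
        exact hw
      · intro w hw
        have h1 : s((s(v, w) : Sym2 V).out.1, (s(v, w) : Sym2 V).out.2) = s(v, w) :=
          Quot.out_eq _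
        rw [mem_union, mem_filter, mem_filter]
        rcases Sym2.eq_iff.1 h1 with ⟨h2, _⟩ | ⟨_, h2⟩
        · exact Or.inl ⟨mem_univ _, h2⟩
        · exact Or.inr ⟨mem_univ _, h2⟩
      · intro w hw w' hw' h
        have h1 : s(v, w) = s(v, w') := congrArg (fun e : E1 => e.1) h
        exact Sym2.congr_right.1 h1
      · intro e he
        rw [mem_union, mem_filter, mem_filter] at he
        rcases he with ⟨_, h⟩ | ⟨_, h⟩
        · refine ⟨q1 e, ?_, ?_⟩
          · rw [Set.mem_toFinset, ← h]; exact hadj e
          · apply Subtype.ext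
            show s(v, q1 e) = e.1
            rw [← h, hpq]
        · refine ⟨p1 e, ?_, ?_⟩
          · rw [Set.mem_toFinset, ← h]; exact (hadj e).symm
          · apply Subtype.ext
            show s(v, p1 e) = e.1
            rw [← h, Sym2.eq_swap, hpq]
    · rw [Finset.disjoint_left]
      intro e h1 h2
      exact (hadj e).ne ((mem_filter.1 h1).2.trans (mem_filter.1 h2).2.symm)
  let d : V → ℕ := fun v => 2 * k - (G.neighborSet v).ncard
  have hsum1 : ∑ v, (G.neighborSet v).ncard = 2 * Fintype.card E1 := by
    have h1 : (univ : Finset E1).card = ∑ v ∈ (univ : Finset V), (univ.filter (fun e => p1 e = v)).card :=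
      card_eq_sum_card_fiberwise (fun e _ => mem_univ _)
    have h2 : (univ : Finset E1).card = ∑ v ∈ (univ : Finset V), (univ.filter (fun e => q1 e = v)).card :=
      card_eq_sum_card_fiberwise (fun e _ => mem_univ _)
    simp_rw [← real]
    rw [sum_add_distrib, ← h1, ← h2, card_univ, two_mul]
  have hsum2 : ∑ v, d v + ∑ v, (G.neighborSet v).ncard = 2 * (Fintype.card V * k) := by
    rw [← sum_add_distrib]
    have : ∀ v, d v + (G.neighborSet v).ncard = 2 * k := fun v => by
      have := hdeg v
      show 2 * k - (G.neighborSet v).ncard + (G.neighborSet v).ncard = 2 * k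
      omega
    simp_rw [this]
    rw [sum_const, smul_eq_mul, card_univ]
    ring
  let qn : ℕ := Fintype.card V * k - Fintype.card E1
  have hqn : 2 * qn = ∑ v, d v := by
    show 2 * (Fintype.card V * k - Fintype.card E1) = _
    omega
  have hcard : Fintype.card (Fin qn × Bool) = Fintype.card (Σ v : V, Fin (d v)) := by
    rw [Fintype.card_prod, Fintype.card_fin, Fintype.card_bool, Fintype.card_sigma]
    simp only [Fintype.card_fin]
    omega
  let slot : Fin qn × Bool ≃ (Σ v : V, Fin (d v)) := Fintype.equivOfCardEq hcard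
  let p : E1 ⊕ Fin qn → V := Sum.elim p1 (fun j => (slot (j, true)).1)
  let q : E1 ⊕ Fin qn → V := Sum.elim q1 (fun j => (slot (j, false)).1)
  have hdum : ∀ v, (univ.filter (fun j : Fin qn => (slot (j, true)).1 = v)).card +
      (univ.filter (fun j : Fin qn => (slot (j, false)).1 = v)).card = d v := by
    intro v
    have h1 : (univ.filter (fun x : Fin qn × Bool => (slot x).1 = v)).card = d v := by
      have h2 : (univ.filter (fun x : Fin qn × Bool => (slot x).1 = v)).card =
          (univ : Finset (Fin (d v))).card := by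
        symm
        refine card_bij (fun i _ => slot.symm ⟨v, i⟩) ?_ ?_ ?_
        · intro i _
          simp
        · intro i _ j _ h
          have := slot.symm.injective h
          simpa using this
        · intro x hx
          obtain ⟨_, hx⟩ := mem_filter.1 hx
          subst hx
          exact ⟨(slot x).2, mem_univ _, by simp⟩
      rw [h2, card_univ, Fintype.card_fin]
    rw [← h1]
    simp only [card_filter]
    rw [Fintype.sum_prod_type]
    rw [← sum_add_distrib]
    refine sum_congr rfl fun j _ => ?_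
    rw [Fintype.sum_bool]
  obtain ⟨t, ht1, ht2⟩ := orient p q k (by
    intro v
    have h1 : (univ.filter (fun e : E1 ⊕ Fin qn => p e = v)).card =
        (univ.filter (fun e => p1 e = v)).card +
        (univ.filter (fun j : Fin qn => (slot (j, true)).1 = v)).card := by
      simp only [card_filter]
      rw [Fintype.sum_sum_type]
      rfl
    have h2 : (univ.filter (fun e : E1 ⊕ Fin qn => q e = v)).card =
        (univ.filter (fun e => q1 e = v)).card +
        (univ.filter (fun j : Fin qn => (slot (j, false)).1 = v)).card := by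
      simp only [card_filter]
      rw [Fintype.sum_sum_type]
      rfl
    have h3 := real v
    have h4 := hdum v
    have h5 := hdeg v
    have h6 : d v = 2 * k - (G.neighborSet v).ncard := rfl
    omega)
  obtain ⟨ℓ, hℓ, hl1, hl2⟩ := konig (fun e => if t e then p e else q e)
    (fun e => if t e then q e else p e) k univ ht1 ht2
  obtain ⟨src, hsrc⟩ : ∃ src : E1 → V, ∀ e, src e = if t (Sum.inl e) then p1 e else q1 e :=
    ⟨_, fun e => rfl⟩
  obtain ⟨tgt, htgt⟩ : ∃ tgt : E1 → V, ∀ e, tgt e = if t (Sum.inl e) then q1 e else p1 e :=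
    ⟨_, fun e => rfl⟩
  have hst : ∀ e, s(src e, tgt e) = e.1 := by
    intro e
    rw [hsrc, htgt]
    by_cases h : t (Sum.inl e) = true
    · rw [if_pos h, if_pos h, hpq]
    · rw [if_neg h, if_neg h, Sym2.eq_swap, hpq]
  have hadj' : ∀ e, G.Adj (src e) (tgt e) := by
    intro e
    rw [← mem_edgeSet, hst]
    exact e.2
  refine ⟨fun i u v => ∃ e : E1, ℓ (Sum.inl e) = i ∧ src e = u ∧ tgt e = v, ?_, ?_, ?_, ?_, ?_, ?_⟩
  · rintro i a b c ⟨e, he, he1, he2⟩ ⟨e', he', he1', he2'⟩
    have h1 : (if t (Sum.inl e) then p (Sum.inl e) else q (Sum.inl e)) =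
        (if t (Sum.inl e') then p (Sum.inl e') else q (Sum.inl e')) := by
      have h2 := he1.trans he1'.symm
      rw [hsrc, hsrc] at h2
      exact h2
    have h2 := hl1 _ (mem_univ _) _ (mem_univ _) h1 (he.trans he'.symm)
    have h3 : e = e' := Sum.inl_injective h2
    rw [← he2, ← he2', h3]
  · rintro i a b c ⟨e, he, he1, he2⟩ ⟨e', he', he1', he2'⟩
    have h1 : (if t (Sum.inl e) then q (Sum.inl e) else p (Sum.inl e)) =
        (if t (Sum.inl e') then q (Sum.inl e') else p (Sum.inl e')) := by
      have h2 := he2.trans he2'.symm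
      rw [htgt, htgt] at h2
      exact h2
    have h2 := hl2 _ (mem_univ _) _ (mem_univ _) h1 (he.trans he'.symm)
    have h3 : e = e' := Sum.inl_injective h2
    rw [← he1, ← he1', h3]
  · rintro i a b ⟨e, _, rfl, rfl⟩
    exact hadj' e
  · intro a b hab
    obtain ⟨e, he⟩ : ∃ e : E1, e.1 = s(a, b) := ⟨⟨s(a, b), hab⟩, rfl⟩
    refine ⟨⟨ℓ (Sum.inl e), hℓ _ (mem_univ _)⟩, ?_⟩
    have h1 := hst e
    rw [he] at h1
    rcases Sym2.eq_iff.1 h1 with ⟨h2, h3⟩ | ⟨h2, h3⟩
    · exact Or.inl ⟨e, rfl, h2, h3⟩
    · exact Or.inr ⟨e, rfl, h2, h3⟩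
  · rintro i j a b ⟨e, he, he1, he2⟩ ⟨e', he', he1', he2'⟩
    have h1 : e = e' := by
      apply Subtype.ext
      rw [← hst e, ← hst e', he1, he2, he1', he2']
    apply Fin.ext
    rw [← he, ← he', h1]
  · rintro i j a b ⟨e, he, he1, he2⟩ ⟨e', he', he1', he2'⟩
    have h1 : e = e' := by
      apply Subtype.ext
      rw [← hst e, ← hst e', he1, he2, he1', he2', Sym2.eq_swap]
    subst h1
    have h2 := (hadj' e).ne
    rw [he1, he2] at h2
    rw [he1] at he1'
    exact h2 he1'

end Pool.Agent.T9h44.RC
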