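import Pool.Agent.T9h44.LA.Switch
import Pool.Agent.T9h44.LA.Dir
import Pool.Agent.W111.LAR.Crit

set_option autoImplicit false

/-!
# Covers given by voltage assignments
-/

namespace Pool.Agent.T9h44.RC

open Finset Equiv SimpleGraph H931R3.LA Pool.Agent.W111.LAR

theorem iaself {n : ℕ} (f : Perm (Fin n)) (x : Fin n) : f⁻¹ (f x) = x :=
  Perm.inv_eq_iff_eq.2 rfl

variable {V : Type} [LinearOrder V] {n : ℕ}

/-- The `n`-sheeted cover of `G` with the voltage assignment `σ`. -/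
def cover (G : SimpleGraph V) (σ : V → V → Perm (Fin n)) : SimpleGraph (V × Fin n) where
  Adj p q := G.Adj p.1 q.1 ∧ q.2 = volt σ p.1 q.1 p.2
  symm := ⟨by
    rintro p q ⟨h1, h2⟩
    refine ⟨h1.symm, ?_⟩
    rw [volt_symm σ h1.ne, h2, iaself]⟩
  loopless := ⟨fun p h => h.1.ne rfl⟩

/-- The part of the cover over the directed edges `R`. -/
def part (R : V → V → Prop) (hR : ∀ a b, R a b → a ≠ b) (σ : V → V → Perm (Fin n)) :
    SimpleGraph (V × Fin n) where
  Adj p q := (R p.1 q.1 ∧ q.2 = volt σ p.1 q.1 p.2) ∨ (R q.1 p.1 ∧ p.2 = volt σ q.1 p.1 q.2)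
  symm := ⟨fun p q h => h.symm⟩
  loopless := ⟨by
    rintro p (h | h)
    · exact hR _ _ h.1 rfl
    · exact hR _ _ h.1 rfl⟩

theorem out_le (R : V → V → Prop) [Finite V] (h1 : ∀ a b c, R a b → R a c → b = c)
    (σ : V → V → Perm (Fin n)) (p : V × Fin n) :
    {q : V × Fin n | R p.1 q.1 ∧ q.2 = volt σ p.1 q.1 p.2}.ncard ≤ 1 := by
  refine (Set.ncard_le_one (Set.toFinite _)).2 ?_
  rintro q ⟨h2, h3⟩ q' ⟨h4, h5⟩
  have h6 : q.1 = q'.1 := h1 _ _ _ h2 h4
  refine Prod.ext h6 ?_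
  rw [h3, h5, h6]

theorem in_le (R : V → V → Prop) [Finite V] (h1 : ∀ a b c, R a c → R b c → a = b)
    (σ : V → V → Perm (Fin n)) (p : V × Fin n) :
    {q : V × Fin n | R q.1 p.1 ∧ p.2 = volt σ q.1 p.1 q.2}.ncard ≤ 1 := by
  refine (Set.ncard_le_one (Set.toFinite _)).2 ?_
  rintro q ⟨h2, h3⟩ q' ⟨h4, h5⟩
  have h6 : q.1 = q'.1 := h1 _ _ _ h2 h4
  refine Prod.ext h6 ?_
  rw [h6] at h3
  exact (volt σ q'.1 p.1).injective (h3.symm.trans h5)

theorem part_deg (R : V → V → Prop) [Finite V] (hR : ∀ a b, R a b → a ≠ b)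
    (h1 : ∀ a b c, R a b → R a c → b = c) (h2 : ∀ a b c, R a c → R b c → a = b)
    (σ : V → V → Perm (Fin n)) (p : V × Fin n) :
    ((part R hR σ).neighborSet p).ncard ≤ 2 := by
  have h3 : (part R hR σ).neighborSet p ⊆
      {q : V × Fin n | R p.1 q.1 ∧ q.2 = volt σ p.1 q.1 p.2} ∪
      {q : V × Fin n | R q.1 p.1 ∧ p.2 = volt σ q.1 p.1 q.2} := by
    rintro q (h | h)
    · exact Or.inl h
    · exact Or.inr h
  have h4 := Set.ncard_le_ncard h3 (Set.toFinite _)
  have h5 := Set.ncard_union_le {q : V × Fin n | R p.1 q.1 ∧ q.2 = volt σ p.1 q.1 p.2}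
    {q : V × Fin n | R q.1 p.1 ∧ p.2 = volt σ q.1 p.1 q.2}
  have h6 := out_le R h1 σ p
  have h7 := in_le R h2 σ p
  omega

open Classical in
/-- A successor function. -/
noncomputable def nxt (R : V → V → Prop) (a : V) : V := if h : ∃ b, R a b then h.choose else a

omit [LinearOrder V] in
theorem nxt_spec {R : V → V → Prop} {a b : V} (h : R a b) : R a (nxt R a) := by
  have h1 : ∃ b, R a b := ⟨b, h⟩
  unfold nxt
  rw [dif_pos h1]
  exact h1.choose_spec

/-- A short cyclic component yields a short closed trajectory. -/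
theorem short_of_cyc [Finite V] (R : V → V → Prop) (hR : ∀ a b, R a b → a ≠ b)
    (h2 : ∀ a b c, R a c → R b c → a = b) (h3 : ∀ a b, R a b → ¬ R b a)
    (σ : V → V → Perm (Fin n)) (p : V × Fin n) (hcyc : Cyc (part R hR σ) p) :
    Traj R (nxt R) p.1 ∧ ∃ j, 1 ≤ j ∧ j ≤ csize (part R hR σ) p ∧ Ret (nxt R) σ p j := by
  classical
  -- the trajectory stays in the component
  have hout : ∀ q, (part R hR σ).Reachable p q → R q.1 (nxt R q.1) := by
    intro q hq
    by_contra hno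
    have h4 : (part R hR σ).neighborSet q ⊆
        {r : V × Fin n | R r.1 q.1 ∧ q.2 = volt σ r.1 q.1 r.2} := by
      rintro r (h | h)
      · exact absurd (nxt_spec h.1) hno
      · exact h
    have h5 := Set.ncard_le_ncard h4 (Set.toFinite _)
    have h6 := in_le R h2 σ q
    have h7 := hcyc q hq
    omega
  have hmem : ∀ t, (part R hR σ).Reachable p ((step (nxt R) σ)^[t] p) := by
    intro t
    induction t with
    | zero => exact Reachable.refl _
    | succ t ih =>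
      rw [Function.iterate_succ_apply']
      refine ih.trans (Adj.reachable ?_)
      exact Or.inl ⟨hout _ ih, rfl⟩
  have hT : Traj R (nxt R) p.1 := by
    refine ⟨fun t => ?_, h2, h3⟩
    have h4 := hout _ (hmem t)
    rw [step_fst] at h4
    rw [Function.iterate_succ_apply']
    exact h4
  refine ⟨hT, ?_⟩
  -- cancellation
  have hcancel : ∀ s d, (step (nxt R) σ)^[s] p = (step (nxt R) σ)^[s + d] p →
      p = (step (nxt R) σ)^[d] p := by
    intro s
    induction s with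
    | zero => intro d h; rw [Nat.zero_add] at h; exact h
    | succ s ih =>
      intro d h
      apply ih
      rw [show s + 1 + d = s + d + 1 by ring, Function.iterate_succ_apply',
        Function.iterate_succ_apply'] at h
      obtain ⟨q, hq⟩ : ∃ q, q = (step (nxt R) σ)^[s] p := ⟨_, rfl⟩
      obtain ⟨q', hq'⟩ : ∃ q', q' = (step (nxt R) σ)^[s + d] p := ⟨_, rfl⟩
      have h4 := hout _ (hmem s)
      have h5 := hout _ (hmem (s + d))
      rw [← hq] at h4
      rw [← hq'] at h5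
      rw [← hq, ← hq'] at h
      rw [← hq, ← hq']
      have h6 : nxt R q.1 = nxt R q'.1 := congrArg Prod.fst h
      have h7 : volt σ q.1 (nxt R q.1) q.2 = volt σ q'.1 (nxt R q'.1) q'.2 :=
        congrArg Prod.snd h
      have h8 : q.1 = q'.1 := by
        rw [h6] at h4
        exact h2 _ _ _ h4 h5
      refine Prod.ext h8 ?_
      rw [h8] at h7
      exact (volt σ q'.1 (nxt R q'.1)).injective h7
  -- pigeonhole
  obtain ⟨K, hK⟩ : ∃ K : Finset (V × Fin n), K = {q | (part R hR σ).Reachable p q}.toFinite.toFinset :=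
    ⟨_, rfl⟩
  have hKc : K.card = csize (part R hR σ) p := by
    rw [hK, csize, ← Set.ncard_eq_toFinset_card]
  have hmap : ∀ t ∈ range (csize (part R hR σ) p + 1), (step (nxt R) σ)^[t] p ∈ K := by
    intro t _
    rw [hK, Set.Finite.mem_toFinset]
    exact hmem t
  obtain ⟨s, hs, t, ht, hst, heq⟩ := exists_ne_map_eq_of_card_lt_of_maps_to (s := range
    (csize (part R hR σ) p + 1)) (t := K) (by rw [card_range, hKc]; exact Nat.lt_succ_self _) hmap
  have hex : ∃ j, 1 ≤ j ∧ (step (nxt R) σ)^[j] p = p ∧ j ≤ csize (part R hR σ) p := by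
    rw [mem_range] at hs ht
    rcases lt_or_gt_of_ne hst with h | h
    · obtain ⟨d, rfl⟩ : ∃ d, t = s + d := ⟨t - s, by omega⟩
      exact ⟨d, by omega, (hcancel s d heq).symm, by omega⟩
    · obtain ⟨d, rfl⟩ : ∃ d, s = t + d := ⟨s - t, by omega⟩
      exact ⟨d, by omega, (hcancel t d heq.symm).symm, by omega⟩
  obtain ⟨h4, h5, h6⟩ := Nat.find_spec hex
  refine ⟨Nat.find hex, h4, h6, h5, ?_⟩
  intro t ht0 ht hret
  exact Nat.find_min hex ht ⟨ht0, hret, by omega⟩

omit [LinearOrder V] in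
theorem csize_ge_three {W : Type} [Finite W] {H : SimpleGraph W} {v : W} (h : Cyc H v) : 3 ≤ csize H v := by
  have h1 := h v (Reachable.refl v)
  have h2 : insert v (H.neighborSet v) ⊆ {w | H.Reachable v w} := by
    rintro w (rfl | hw)
    · exact Reachable.refl _
    · exact Adj.reachable hw
  have h3 := Set.ncard_le_ncard h2 (Set.toFinite _)
  have h4 : v ∉ H.neighborSet v := fun hv => H.loopless.irrefl v hv
  rw [Set.ncard_insert_of_notMem h4, h1] at h3
  exact h3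

/-- The bad event. -/
def Bad {k : ℕ} (R : Fin k → V → V → Prop) (L : ℕ) (σ : V → V → Perm (Fin n)) : Prop :=
  ∃ (v : V) (x : Fin n) (a b : Fin k) (j j' : ℕ), a ≠ b ∧ Traj (R a) (nxt (R a)) v ∧
    Traj (R b) (nxt (R b)) v ∧ 1 ≤ j ∧ j < L ∧ 1 ≤ j' ∧ j' < L ∧ Ret (nxt (R a)) σ (v, x) j ∧
    Ret (nxt (R b)) σ (v, x) j'

open Classical in
theorem bad_count [Fintype V] {k : ℕ} (R : Fin k → V → V → Prop)
    (hdis : ∀ i j a b, R i a b → R j a b → i = j) (hdis' : ∀ i j a b, R i a b → ¬ R j b a)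
    (L : ℕ) (hL : L ≤ n) :
    (univ.filter fun σ : V → V → Perm (Fin n) => Bad R L σ).card * ((n - L) * (n - L)) ≤
      (Fintype.card V * n * (k * k) * (L * L)) * Fintype.card (V → V → Perm (Fin n)) := by
  obtain ⟨I, hI⟩ : ∃ I : Finset ((V × Fin n) × (Fin k × Fin k) × (ℕ × ℕ)),
      I = univ ×ˢ (univ ×ˢ (range L ×ˢ range L)) := ⟨_, rfl⟩
  have hIc : I.card = Fintype.card V * n * (k * k) * (L * L) := by
    rw [hI, card_product, card_product, card_product, card_univ, card_univ, Fintype.card_prod,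
      Fintype.card_prod, Fintype.card_fin, Fintype.card_fin, card_range]
    ring
  obtain ⟨S, hS⟩ : ∃ S : ((V × Fin n) × (Fin k × Fin k) × (ℕ × ℕ)) →
      Finset (V → V → Perm (Fin n)), ∀ z, S z = univ.filter fun σ =>
        z.2.1.1 ≠ z.2.1.2 ∧ Traj (R z.2.1.1) (nxt (R z.2.1.1)) z.1.1 ∧
        Traj (R z.2.1.2) (nxt (R z.2.1.2)) z.1.1 ∧ 1 ≤ z.2.2.1 ∧ z.2.2.1 < L ∧ 1 ≤ z.2.2.2 ∧
        z.2.2.2 < L ∧ Ret (nxt (R z.2.1.1)) σ z.1 z.2.2.1 ∧
        Ret (nxt (R z.2.1.2)) σ z.1 z.2.2.2 := ⟨_, fun z => rfl⟩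
  have hsub : (univ.filter fun σ : V → V → Perm (Fin n) => Bad R L σ) ⊆ I.biUnion S := by
    intro σ hσ
    obtain ⟨v, x, a, b, j, j', h1, h2, h3, h4, h5, h6, h7, h8, h9⟩ := (mem_filter.1 hσ).2
    rw [mem_biUnion]
    refine ⟨((v, x), (a, b), (j, j')), ?_, ?_⟩
    · rw [hI, mem_product, mem_product, mem_product]
      exact ⟨mem_univ _, mem_univ _, mem_range.2 h5, mem_range.2 h7⟩
    · rw [hS, mem_filter]
      exact ⟨mem_univ _, h1, h2, h3, h4, h5, h6, h7, h8, h9⟩
  have hSc : ∀ z ∈ I, (S z).card * ((n - L) * (n - L)) ≤ Fintype.card (V → V → Perm (Fin n)) := by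
    intro z _
    by_cases hz : z.2.1.1 ≠ z.2.1.2 ∧ Traj (R z.2.1.1) (nxt (R z.2.1.1)) z.1.1 ∧
        Traj (R z.2.1.2) (nxt (R z.2.1.2)) z.1.1 ∧ 1 ≤ z.2.2.1 ∧ z.2.2.1 < L ∧ 1 ≤ z.2.2.2 ∧
        z.2.2.2 < L
    · obtain ⟨h1, h2, h3, h4, h5, h6, h7⟩ := hz
      have h8 := count_two h2 h3 (n := n) (fun a b hab => ⟨fun h => h1 (hdis _ _ _ _ hab h),
        hdis' _ _ _ _ hab⟩) z.1.2 h4 h6
      refine le_trans (Nat.mul_le_mul (card_le_card ?_) (Nat.mul_le_mul ?_ ?_)) h8
      · intro σ hσ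
        rw [hS, mem_filter] at hσ
        rw [mem_filter]
        exact ⟨mem_univ _, hσ.2.2.2.2.2.2.2.2.1, hσ.2.2.2.2.2.2.2.2.2⟩
      · omega
      · omega
    · have h1 : S z = ∅ := by
        rw [hS, filter_eq_empty_iff]
        rintro σ _ ⟨h1, h2, h3, h4, h5, h6, h7, _⟩
        exact hz ⟨h1, h2, h3, h4, h5, h6, h7⟩
      rw [h1, card_empty, zero_mul]
      exact Nat.zero_le _
  calc _ ≤ (∑ z ∈ I, (S z).card) * ((n - L) * (n - L)) :=
        Nat.mul_le_mul_right _ ((card_le_card hsub).trans card_biUnion_le)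
    _ = ∑ z ∈ I, (S z).card * ((n - L) * (n - L)) := sum_mul _ _ _
    _ ≤ ∑ _z ∈ I, Fintype.card (V → V → Perm (Fin n)) := sum_le_sum hSc
    _ = _ := by rw [sum_const, smul_eq_mul, hIc]

/-- Good voltage assignments. -/
theorem cov_of_not_bad [Finite V] {k : ℕ} (G : SimpleGraph V) (R : Fin k → V → V → Prop)
    (h1 : ∀ i a b c, R i a b → R i a c → b = c) (h2 : ∀ i a b c, R i a c → R i b c → a = b)
    (h3 : ∀ i a b, R i a b → G.Adj a b) (h4 : ∀ a b, G.Adj a b → ∃ i, R i a b ∨ R i b a)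
    (h6 : ∀ i j a b, R i a b → ¬ R j b a) (σ : V → V → Perm (Fin n))
    (hσ : ¬ Bad R (6 * k + 1) σ) : Cov (cover G σ) (k + 1) := by
  classical
  have hR : ∀ i a b, R i a b → a ≠ b := fun i a b h => (h3 i a b h).ne
  have hcov : cover G σ = ⨆ i, part (R i) (hR i) σ := by
    ext p q
    rw [iSup_adj]
    constructor
    · rintro ⟨h7, h8⟩
      obtain ⟨i, hi | hi⟩ := h4 _ _ h7
      · exact ⟨i, Or.inl ⟨hi, h8⟩⟩
      · refine ⟨i, Or.inr ⟨hi, ?_⟩⟩
        rw [volt_symm σ h7.ne, h8, iaself]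
    · rintro ⟨i, ⟨h7, h8⟩ | ⟨h7, h8⟩⟩
      · exact ⟨h3 _ _ _ h7, h8⟩
      · refine ⟨(h3 _ _ _ h7).symm, ?_⟩
        rw [volt_symm σ (h3 _ _ _ h7).ne, h8, iaself]
  rw [hcov]
  have h7 := cov_of_load (fun i => part (R i) (hR i) σ)
    (fun i p => part_deg (R i) (hR i) (h1 i) (h2 i) σ p) ?_
  · rw [Fintype.card_fin] at h7
    exact h7
  intro p
  rcases Nat.eq_zero_or_pos k with hk | hk
  · subst hk
    simp
  have hk' : (1 : ℝ) ≤ k := by exact_mod_cast hk
  have key : ∀ i, Cyc (part (R i) (hR i) σ) p → csize (part (R i) (hR i) σ) p < 6 * k + 1 →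
      ∃ j, 1 ≤ j ∧ j < 6 * k + 1 ∧ Traj (R i) (nxt (R i)) p.1 ∧ Ret (nxt (R i)) σ p j := by
    intro i hc hs
    obtain ⟨hT, j, hj1, hj2, hj3⟩ := short_of_cyc (R i) (hR i) (h2 i) (h6 i i) σ p hc
    exact ⟨j, hj1, by omega, hT, hj3⟩
  -- the terms
  have hterm : ∀ i, ¬ (Cyc (part (R i) (hR i) σ) p ∧
      csize (part (R i) (hR i) σ) p < 6 * k + 1) →
      (if Cyc (part (R i) (hR i) σ) p then (2 : ℝ) / csize (part (R i) (hR i) σ) p else 0) ≤
        1 / (3 * k) := by
    intro i hi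
    split_ifs with hc
    · have h8 : 6 * k ≤ csize (part (R i) (hR i) σ) p := by
        by_contra hcon
        exact hi ⟨hc, by omega⟩
      have h9 : (6 * (k : ℝ)) ≤ csize (part (R i) (hR i) σ) p := by exact_mod_cast h8
      rw [div_le_div_iff₀ (by linarith) (by positivity)]
      linarith
    · positivity
  have hterm' : ∀ i, (if Cyc (part (R i) (hR i) σ) p then
      (2 : ℝ) / csize (part (R i) (hR i) σ) p else 0) ≤ 2 / 3 := by
    intro i
    split_ifs with hc
    · have h8 := csize_ge_three hc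
      have h9 : (3 : ℝ) ≤ csize (part (R i) (hR i) σ) p := by exact_mod_cast h8
      rw [div_le_div_iff₀ (by linarith) (by norm_num)]
      linarith
    · norm_num
  by_cases hex : ∃ i, Cyc (part (R i) (hR i) σ) p ∧ csize (part (R i) (hR i) σ) p < 6 * k + 1
  · obtain ⟨i, hi⟩ := hex
    have hothers : ∀ i' ∈ (univ : Finset (Fin k)).erase i,
        (if Cyc (part (R i') (hR i') σ) p then
          (2 : ℝ) / csize (part (R i') (hR i') σ) p else 0) ≤ 1 / (3 * k) := by
      intro i' hi'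
      apply hterm
      rintro ⟨hc, hs⟩
      obtain ⟨j, hj1, hj2, hT, hj3⟩ := key i hi.1 hi.2
      obtain ⟨j', hj1', hj2', hT', hj3'⟩ := key i' hc hs
      exact hσ ⟨p.1, p.2, i, i', j, j', (ne_of_mem_erase hi').symm, hT, hT', hj1, hj2, hj1',
        hj2', hj3, hj3'⟩
    rw [← add_sum_erase _ _ (mem_univ i)]
    have h8 := sum_le_sum hothers
    rw [sum_const, card_erase_of_mem (mem_univ i), card_univ, Fintype.card_fin,
      nsmul_eq_mul, Nat.cast_sub hk] at h8
    have h9 : ((k : ℝ) - (1 : ℕ)) * (1 / (3 * k)) ≤ 1 / 3 := by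
      rw [mul_one_div, div_le_div_iff₀ (by positivity) (by norm_num)]
      push_cast
      linarith
    linarith [hterm' i]
  · push Not at hex
    have h8 : ∑ i, (if Cyc (part (R i) (hR i) σ) p then
        (2 : ℝ) / csize (part (R i) (hR i) σ) p else 0) ≤ ∑ _i : Fin k, 1 / (3 * (k : ℝ)) :=
      sum_le_sum fun i _ => hterm i fun h => by
        have := hex i h.1
        omega
    rw [sum_const, card_univ, Fintype.card_fin, nsmul_eq_mul] at h8
    have h9 : (k : ℝ) * (1 / (3 * k)) = 1 / 3 := by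
      field_simp
    linarith

end Pool.Agent.T9h44.RC
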