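import Pool.Agent.T9h44.LA.Pair

set_option autoImplicit false

/-!
# Copies of a cycle, joined by switched squares
-/

namespace Pool.Agent.T9h44.LA

open SimpleGraph

/-- all but one link of a ring -/
theorem ring_conn {V : Type} {F : SimpleGraph V} {n : ℕ} [NeZero n] (g : ZMod n → V) (x0 : ZMod n)
    (h : ∀ x, x ≠ x0 → F.Reachable (g x) (g (x + 1))) : ∀ x y, F.Reachable (g x) (g y) := by
  have key : ∀ x, F.Reachable (g (x0 + 1)) (g x) := by
    intro x
    have hn : 0 < n := Nat.pos_of_ne_zero (NeZero.ne n)
    have h1 := reach_iter (F := F) (fun k : ℕ => g (x0 + 1 + k)) (x - (x0 + 1)).val (by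
      intro k hk
      have h2 := h (x0 + 1 + k) (by
        intro h3
        have h4 : (((k + 1 : ℕ)) : ZMod n) = 0 := by
          have : ((k + 1 : ℕ) : ZMod n) = (x0 + 1 + k) - x0 := by push_cast; ring
          rw [this, h3]; ring
        have h5 := ZMod.val_lt (x - (x0 + 1))
        exact natCast_ne_zero_of_lt (by omega) (by omega) h4)
      have h6 : x0 + 1 + ((k + 1 : ℕ) : ZMod n) = x0 + 1 + k + 1 := by push_cast; ring
      show F.Reachable (g (x0 + 1 + k)) (g (x0 + 1 + ((k + 1 : ℕ) : ZMod n)))
      rw [h6]
      exact h2)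
    simp only [Nat.cast_zero, add_zero, ZMod.natCast_zmod_val] at h1
    have h7 : x0 + 1 + (x - (x0 + 1)) = x := by ring
    rw [h7] at h1
    exact h1
  intro x y
  exact (key x).symm.trans (key y)

section fg

variable {a b : ℕ} (c : ZMod b → Option (ZMod a))

/-- The copies of the cycle `ℤ/b` in the layers `x : ℤ/a`; the edges `v, v + 1` in the layers `x` and
`x + 1` are replaced by the edges between these layers at `v` and `v + 1`, if `v` has label `x`. -/
def fg : SimpleGraph (ZMod a × ZMod b) :=
  slot (fun u => if c u.2 = some u.1 then (u.1 + 1, u.2) else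
      if c u.2 = some (u.1 - 1) then (u.1 - 1, u.2) else (u.1, u.2 + 1))
    (fun u => if c (u.2 - 1) = some u.1 then (u.1 + 1, u.2) else
      if c (u.2 - 1) = some (u.1 - 1) then (u.1 - 1, u.2) else (u.1, u.2 - 1))

/-- consecutive labels are different -/
def Proper : Prop := ∀ v x, c v = some x → c (v - 1) ≠ some x

variable {c}

theorem fg_slot (ha : 3 ≤ a) (hb : 3 ≤ b) (hc : Proper c) :
    (∀ u v, (fg c).Adj u v ↔
      (v = (if c u.2 = some u.1 then (u.1 + 1, u.2) else
          if c u.2 = some (u.1 - 1) then (u.1 - 1, u.2) else (u.1, u.2 + 1)) ∨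
        v = (if c (u.2 - 1) = some u.1 then (u.1 + 1, u.2) else
          if c (u.2 - 1) = some (u.1 - 1) then (u.1 - 1, u.2) else (u.1, u.2 - 1)))) ∧
      ∀ u, ((fg c).neighborSet u).ncard = 2 := by
  apply slot_nb
  · rintro ⟨x, y⟩
    simp only
    split_ifs with h h'
    · exact fun h' => zmod_one_ne (by omega) x (congrArg Prod.fst h')
    · exact fun h' => sub_ne' (by omega) x (congrArg Prod.fst h')
    · exact fun h' => zmod_one_ne (by omega) y (congrArg Prod.snd h')
  · rintro ⟨x, y⟩
    simp only
    split_ifs with h h'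
    · exact fun h' => zmod_one_ne (by omega) x (congrArg Prod.fst h')
    · exact fun h' => sub_ne' (by omega) x (congrArg Prod.fst h')
    · exact fun h' => sub_ne' (by omega) y (congrArg Prod.snd h')
  · rintro ⟨x, y⟩
    simp only
    by_cases h1 : c y = some x
    · rw [if_pos h1]
      rw [if_neg (hc y x h1)]
      split_ifs with h2
      · exact fun h' => zmod_two_ne ha x (congrArg Prod.fst h')
      · exact fun h' => sub_ne' (by omega) y (congrArg Prod.snd h').symm
    · rw [if_neg h1]
      by_cases h2 : c y = some (x - 1)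
      · rw [if_pos h2]
        by_cases h3 : c (y - 1) = some x
        · rw [if_pos h3]
          exact fun h' => zmod_two_ne ha x (congrArg Prod.fst h').symm
        · rw [if_neg h3, if_neg (hc y _ h2)]
          exact fun h' => sub_ne' (by omega) y (congrArg Prod.snd h').symm
      · rw [if_neg h2]
        split_ifs with h3 h4
        · exact fun h' => zmod_one_ne (by omega) y (congrArg Prod.snd h')
        · exact fun h' => zmod_one_ne (by omega) y (congrArg Prod.snd h')
        · exact fun h' => zmod_two_ne hb y (congrArg Prod.snd h')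
  · rintro ⟨x, y⟩
    simp only
    have hx1 : x ≠ x + 1 := (zmod_one_ne (by omega) x).symm
    by_cases h1 : c y = some x
    · left
      have h2 : ¬ c y = some (x + 1) := by
        rw [h1]
        exact fun h => hx1 (Option.some.inj h)
      simp only [h1, if_true, Option.some.injEq, hx1, if_false, add_sub_cancel_right]
    · by_cases h2 : c y = some (x - 1)
      · left
        have h3 : ¬ (x - 1 = x) := sub_ne' (by omega) x
        simp only [h2, Option.some.injEq, h3, if_false, if_true, sub_add_cancel]
      · right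
        simp only [h1, if_false, h2, add_sub_cancel_right]
  · rintro ⟨x, y⟩
    simp only
    have hx1 : x ≠ x + 1 := (zmod_one_ne (by omega) x).symm
    by_cases h1 : c (y - 1) = some x
    · right
      simp only [h1, if_true, Option.some.injEq, hx1, if_false, add_sub_cancel_right]
    · by_cases h2 : c (y - 1) = some (x - 1)
      · right
        have h3 : ¬ (x - 1 = x) := sub_ne' (by omega) x
        simp only [h2, Option.some.injEq, h3, if_false, if_true, sub_add_cancel]
      · left
        simp only [h1, if_false, h2, sub_add_cancel]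

theorem fg_hor (ha : 3 ≤ a) (hb : 3 ≤ b) (hc : Proper c) (x : ZMod a) (v : ZMod b)
    (h1 : c v ≠ some x) (h2 : c v ≠ some (x - 1)) : (fg c).Adj (x, v) (x, v + 1) := by
  rw [(fg_slot ha hb hc).1]
  left
  simp only [h1, if_false, h2]

theorem fg_up (ha : 3 ≤ a) (hb : 3 ≤ b) (hc : Proper c) (x : ZMod a) (v : ZMod b)
    (h1 : c v = some x) : (fg c).Adj (x, v) (x + 1, v) := by
  rw [(fg_slot ha hb hc).1]
  left
  simp only [h1, if_true]

theorem fg_up' (ha : 3 ≤ a) (hb : 3 ≤ b) (hc : Proper c) (x : ZMod a) (v : ZMod b)
    (h1 : c v = some x) : (fg c).Adj (x, v + 1) (x + 1, v + 1) := by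
  rw [(fg_slot ha hb hc).1]
  right
  simp only [add_sub_cancel_right, h1, if_true]

/-- The layers below `m`. -/
theorem layers (ha : 3 ≤ a) (hb : 3 ≤ b) (hc : Proper c) (m : ℕ) (hm : m < a) (s : ℕ → ZMod b)
    (hs : ∀ j < m, ∀ v, c v = some (j : ZMod a) ↔ v = s j)
    (hneg : ∀ v, c v ≠ some (-1)) : ∀ j < m, ∀ v v', (fg c).Reachable (j, v) (j, v') := by
  have hnz : NeZero b := ⟨by omega⟩
  intro j
  induction j with
  | zero =>
    intro hj
    apply ring_conn (fun v => (((0 : ℕ) : ZMod a), v)) (s 0)
    intro v hv
    apply Adj.reachable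
    apply fg_hor ha hb hc
    · intro h
      exact hv ((hs 0 hj v).1 h)
    · rw [Nat.cast_zero, zero_sub]
      exact hneg v
  | succ j ih =>
    intro hj
    have ih' := ih (by omega)
    apply ring_conn (fun v => (((j + 1 : ℕ) : ZMod a), v)) (s (j + 1))
    intro v hv
    have h0 : ((j + 1 : ℕ) : ZMod a) - 1 = (j : ZMod a) := by push_cast; ring
    have h0' : (j : ZMod a) + 1 = ((j + 1 : ℕ) : ZMod a) := by push_cast; ring
    by_cases hvj : v = s j
    · have h1 := (hs j (by omega) v).2 hvj
      have h2 := fg_up ha hb hc _ v h1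
      have h3 := fg_up' ha hb hc _ v h1
      rw [h0'] at h2 h3
      exact h2.reachable.symm.trans ((ih' v (v + 1)).trans h3.reachable)
    · apply Adj.reachable
      apply fg_hor ha hb hc
      · intro h
        exact hv ((hs (j + 1) hj v).1 h)
      · rw [h0]
        intro h
        exact hvj ((hs j (by omega) v).1 h)

/-- Each label exactly once. -/
theorem fg_once (ha : 3 ≤ a) (hb : 3 ≤ b) (hc : Proper c) (s : ℕ → ZMod b)
    (hs : ∀ j < a - 1, ∀ v, c v = some (j : ZMod a) ↔ v = s j)
    (hneg : ∀ v, c v ≠ some (-1)) : HC (fg c) := by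
  have hnz : NeZero b := ⟨by omega⟩
  have hnza : NeZero a := ⟨by omega⟩
  refine ⟨?_, (fg_slot ha hb hc).2⟩
  have hlay := layers ha hb hc (a - 1) (by omega) s hs hneg
  have hcast : ((a - 1 : ℕ) : ZMod a) = -1 := by
    rw [Nat.cast_sub (by omega), ZMod.natCast_self]
    push_cast
    ring
  have hcast2 : ((a - 2 : ℕ) : ZMod a) = -1 - 1 := by
    rw [Nat.cast_sub (by omega), ZMod.natCast_self]
    push_cast
    ring
  -- the last layer
  have hlast : ∀ v v', (fg c).Reachable ((-1 : ZMod a), v) (-1, v') := by
    have h1 : ∀ v, (fg c).Reachable ((-1 : ZMod a), v) (-1, v + 1) := by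
      intro v
      by_cases hv : c v = some ((a - 2 : ℕ) : ZMod a)
      · have h2 := fg_up ha hb hc _ v hv
        have h3 := fg_up' ha hb hc _ v hv
        have h4 : ((a - 2 : ℕ) : ZMod a) + 1 = -1 := by rw [hcast2]; ring
        rw [h4] at h2 h3
        exact h2.reachable.symm.trans ((hlay (a - 2) (by omega) v (v + 1)).trans h3.reachable)
      · apply Adj.reachable
        apply fg_hor ha hb hc _ _ (hneg v)
        rw [← hcast2]
        exact hv
    exact ring_conn (fun v => ((-1 : ZMod a), v)) 0 (fun v _ => h1 v)
  -- every layer is connected to the last one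
  have hto : ∀ k : ℕ, k ≤ a - 1 → ∀ v v', (fg c).Reachable (((a - 1 - k : ℕ) : ZMod a), v)
      ((-1 : ZMod a), v') := by
    intro k
    induction k with
    | zero =>
      intro _ v v'
      rw [Nat.sub_zero, hcast]
      exact hlast v v'
    | succ k ih =>
      intro hk v v'
      have hj : a - 1 - (k + 1) < a - 1 := by omega
      have h1 := (hs _ hj (s (a - 1 - (k + 1)))).2 rfl
      have h2 := fg_up ha hb hc _ _ h1
      have h3 : ((a - 1 - (k + 1) : ℕ) : ZMod a) + 1 = ((a - 1 - k : ℕ) : ZMod a) := by
        have : a - 1 - k = a - 1 - (k + 1) + 1 := by omega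
        rw [this]
        push_cast
        ring
      rw [h3] at h2
      exact (hlay _ hj v _).trans (h2.reachable.trans (ih (by omega) _ v'))
  rw [connected_iff]
  refine ⟨?_, ⟨(0, 0)⟩⟩
  have h5 : ∀ u : ZMod a × ZMod b, (fg c).Reachable u ((-1 : ZMod a), 0) := by
    rintro ⟨x, v⟩
    have hx := ZMod.val_lt x
    have h6 := hto (a - 1 - x.val) (by omega) v 0
    have h7 : a - 1 - (a - 1 - x.val) = x.val := by omega
    rw [h7, ZMod.natCast_zmod_val] at h6
    exact h6
  intro u v
  exact (h5 u).trans (h5 v).symm

/-- The labels `0, …, a - 4` exactly once, the labels `-3` and `-2` alternating. -/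
theorem fg_alt (ha : 5 ≤ a) (hb : 3 ≤ b) (hc : Proper c) (s : ℕ → ZMod b)
    (hs : ∀ j < a - 3, ∀ v, c v = some (j : ZMod a) ↔ v = s j)
    (hneg : ∀ v, c v ≠ some (-1)) (q : ZMod b → Bool) (R : ZMod b → Prop)
    (hq1 : ∀ v, R v → q (v + 1) = ! (q v)) (hq2 : ∀ v, ¬ R v → q (v + 1) = q v)
    (hR1 : ∀ v, R v → c v = some (bif q v then -2 else -3))
    (hR2 : ∀ v, ¬ R v → c v ≠ some (-2) ∧ c v ≠ some (-3)) (r : ZMod b) (hr : R r) :
    HC (fg c) := by
  have hnz : NeZero b := ⟨by omega⟩
  have hnza : NeZero a := ⟨by omega⟩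
  have ha3 : 3 ≤ a := by omega
  refine ⟨?_, (fg_slot ha3 hb hc).2⟩
  have hlay := layers ha3 hb hc (a - 3) (by omega) s hs hneg
  have hcast3 : ((a - 3 : ℕ) : ZMod a) = -3 := by
    rw [Nat.cast_sub (by omega), ZMod.natCast_self]
    push_cast
    ring
  have hcast4 : ((a - 4 : ℕ) : ZMod a) = -3 - 1 := by
    rw [Nat.cast_sub (by omega), ZMod.natCast_self]
    push_cast
    ring
  have e32 : (-3 : ZMod a) + 1 = -2 := by ring
  have e21 : (-2 : ZMod a) + 1 = -1 := by ring
  have n32 : (-3 : ZMod a) ≠ -2 := by
    intro h
    exact zmod_one_ne (by omega) (-3 : ZMod a) (by rw [e32, h])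
  -- low layer
  have low : ∀ v, c v ≠ some (-3) → (fg c).Reachable ((-3 : ZMod a), v) (-3, v + 1) := by
    intro v hv
    by_cases h4 : c v = some ((a - 4 : ℕ) : ZMod a)
    · have h2 := fg_up ha3 hb hc _ v h4
      have h3 := fg_up' ha3 hb hc _ v h4
      have h5 : ((a - 4 : ℕ) : ZMod a) + 1 = -3 := by rw [hcast4]; ring
      rw [h5] at h2 h3
      exact h2.reachable.symm.trans ((hlay (a - 4) (by omega) v (v + 1)).trans h3.reachable)
    · apply Adj.reachable
      apply fg_hor ha3 hb hc _ _ hv
      rw [← hcast4]
      exact h4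
  have mid : ∀ v, ¬ R v → (fg c).Adj ((-2 : ZMod a), v) (-2, v + 1) := by
    intro v hv
    apply fg_hor ha3 hb hc _ _ (hR2 v hv).1
    have : (-2 : ZMod a) - 1 = -3 := by ring
    rw [this]
    exact (hR2 v hv).2
  have high : ∀ v, c v ≠ some (-2) → (fg c).Adj ((-1 : ZMod a), v) (-1, v + 1) := by
    intro v hv
    apply fg_hor ha3 hb hc _ _ (hneg v)
    have : (-1 : ZMod a) - 1 = -2 := by ring
    rw [this]
    exact hv
  have hA : ∀ v, R v → q v = false → c v = some (-3) := by
    intro v hv hqv
    rw [hR1 v hv, hqv]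
    rfl
  have hB : ∀ v, R v → q v = true → c v = some (-2) := by
    intro v hv hqv
    rw [hR1 v hv, hqv]
    rfl
  -- looking back
  have back : ∀ k : ℕ, (q (r + 1 + k) = false → (fg c).Reachable ((-2 : ZMod a), r + 1 + k)
      (-1, r + 1 + k)) ∧ (q (r + 1 + k) = true → (fg c).Reachable ((-2 : ZMod a), r + 1 + k)
      (-3, r + 1 + k)) := by
    have base : ∀ v, R v → (q (v + 1) = false → (fg c).Reachable ((-2 : ZMod a), v + 1)
        (-1, v + 1)) ∧ (q (v + 1) = true → (fg c).Reachable ((-2 : ZMod a), v + 1)
        (-3, v + 1)) := by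
      intro v hv
      have h1 := hq1 v hv
      constructor
      · intro h2
        have h3 : q v = true := by
          rw [h2] at h1
          cases hqv : q v
          · rw [hqv] at h1; simp at h1
          · rfl
        have h4 := fg_up' ha3 hb hc _ v (hB v hv h3)
        rw [e21] at h4
        exact h4.reachable
      · intro h2
        have h3 : q v = false := by
          rw [h2] at h1
          cases hqv : q v
          · rfl
          · rw [hqv] at h1; simp at h1
        have h4 := fg_up' ha3 hb hc _ v (hA v hv h3)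
        rw [e32] at h4
        exact h4.reachable.symm
    intro k
    induction k with
    | zero =>
      simp only [Nat.cast_zero, add_zero]
      exact base r hr
    | succ k ih =>
      have e : r + 1 + ((k + 1 : ℕ) : ZMod b) = r + 1 + k + 1 := by push_cast; ring
      rw [e]
      obtain ⟨v, hvd⟩ : ∃ v : ZMod b, v = r + 1 + (k : ZMod b) := ⟨_, rfl⟩
      rw [← hvd] at ih ⊢
      by_cases hv : R v
      · exact base v hv
      · have h1 := hq2 v hv
        have h2 := hR2 v hv
        constructor
        · intro h3
          rw [h1] at h3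
          exact (mid v hv).reachable.symm.trans ((ih.1 h3).trans (high v h2.1).reachable)
        · intro h3
          rw [h1] at h3
          exact (mid v hv).reachable.symm.trans ((ih.2 h3).trans (low v h2.2))
  -- looking forward
  have forw : ∀ k : ℕ, (q (r - k) = false → (fg c).Reachable ((-2 : ZMod a), r - k)
      (-3, r - k)) ∧ (q (r - k) = true → (fg c).Reachable ((-2 : ZMod a), r - k)
      (-1, r - k)) := by
    have base : ∀ v, R v → (q v = false → (fg c).Reachable ((-2 : ZMod a), v)
        (-3, v)) ∧ (q v = true → (fg c).Reachable ((-2 : ZMod a), v) (-1, v)) := by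
      intro v hv
      constructor
      · intro h2
        have h4 := fg_up ha3 hb hc _ v (hA v hv h2)
        rw [e32] at h4
        exact h4.reachable.symm
      · intro h2
        have h4 := fg_up ha3 hb hc _ v (hB v hv h2)
        rw [e21] at h4
        exact h4.reachable
    intro k
    induction k with
    | zero =>
      simp only [Nat.cast_zero, sub_zero]
      exact base r hr
    | succ k ih =>
      obtain ⟨v, hvd⟩ : ∃ v : ZMod b, v = r - ((k + 1 : ℕ) : ZMod b) := ⟨_, rfl⟩
      have e : r - (k : ZMod b) = v + 1 := by rw [hvd]; push_cast; ring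
      rw [← hvd]
      rw [e] at ih
      by_cases hv : R v
      · exact base v hv
      · have h1 := hq2 v hv
        have h2 := hR2 v hv
        rw [h1] at ih
        constructor
        · intro h3
          exact (mid v hv).reachable.trans ((ih.1 h3).trans (low v h2.2).symm)
        · intro h3
          exact (mid v hv).reachable.trans ((ih.2 h3).trans (high v h2.1).reachable.symm)
  have back' : ∀ v, (q v = false → (fg c).Reachable ((-2 : ZMod a), v) (-1, v)) ∧
      (q v = true → (fg c).Reachable ((-2 : ZMod a), v) (-3, v)) := by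
    intro v
    have h1 := back (v - (r + 1)).val
    rw [ZMod.natCast_zmod_val] at h1
    have h2 : r + 1 + (v - (r + 1)) = v := by ring
    rw [h2] at h1
    exact h1
  have forw' : ∀ v, (q v = false → (fg c).Reachable ((-2 : ZMod a), v) (-3, v)) ∧
      (q v = true → (fg c).Reachable ((-2 : ZMod a), v) (-1, v)) := by
    intro v
    have h1 := forw (r - v).val
    rw [ZMod.natCast_zmod_val] at h1
    have h2 : r - (r - v) = v := by ring
    rw [h2] at h1
    exact h1
  have ml : ∀ v, (fg c).Reachable ((-2 : ZMod a), v) (-3, v) := by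
    intro v
    cases hqv : q v
    · exact (forw' v).1 hqv
    · exact (back' v).2 hqv
  have mh : ∀ v, (fg c).Reachable ((-2 : ZMod a), v) (-1, v) := by
    intro v
    cases hqv : q v
    · exact (back' v).1 hqv
    · exact (forw' v).2 hqv
  have mm : ∀ v v', (fg c).Reachable ((-2 : ZMod a), v) (-2, v') := by
    have h1 : ∀ v, (fg c).Reachable ((-2 : ZMod a), v) (-2, v + 1) := by
      intro v
      by_cases hv : R v
      · cases hqv : q v
        · have h2 := hA v hv hqv
          exact (mh v).trans ((high v (by
            rw [h2]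
            exact fun h => n32 (Option.some.inj h))).reachable.trans (mh (v + 1)).symm)
        · have h2 := hB v hv hqv
          exact (ml v).trans ((low v (by
            rw [h2]
            exact fun h => n32 (Option.some.inj h).symm)).trans (ml (v + 1)).symm)
      · exact (mid v hv).reachable
    exact ring_conn (fun v => ((-2 : ZMod a), v)) 0 (fun v _ => h1 v)
  -- every low layer is connected to the layer `-3`
  have hto : ∀ k : ℕ, k ≤ a - 3 → ∀ v, (fg c).Reachable (((a - 3 - k : ℕ) : ZMod a), v)
      ((-2 : ZMod a), 0) := by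
    intro k
    induction k with
    | zero =>
      intro _ v
      rw [Nat.sub_zero, hcast3]
      exact (ml v).symm.trans (mm v 0)
    | succ k ih =>
      intro hk v
      have hj : a - 3 - (k + 1) < a - 3 := by omega
      have h1 := (hs _ hj (s (a - 3 - (k + 1)))).2 rfl
      have h2 := fg_up ha3 hb hc _ _ h1
      have h3 : ((a - 3 - (k + 1) : ℕ) : ZMod a) + 1 = ((a - 3 - k : ℕ) : ZMod a) := by
        have : a - 3 - k = a - 3 - (k + 1) + 1 := by omega
        rw [this]
        push_cast
        ring
      rw [h3] at h2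
      exact (hlay _ hj v _).trans (h2.reachable.trans (ih (by omega) _))
  rw [connected_iff]
  refine ⟨?_, ⟨(0, 0)⟩⟩
  have h5 : ∀ u : ZMod a × ZMod b, (fg c).Reachable u ((-2 : ZMod a), 0) := by
    rintro ⟨x, v⟩
    have hx := ZMod.val_lt x
    by_cases hx3 : x.val ≤ a - 3
    · have h6 := hto (a - 3 - x.val) (by omega) v
      have h7 : a - 3 - (a - 3 - x.val) = x.val := by omega
      rw [h7, ZMod.natCast_zmod_val] at h6
      exact h6
    · by_cases hx2 : x.val = a - 2
      · have h8 : x = -2 := by
          have : x = ((a - 2 : ℕ) : ZMod a) := by rw [← hx2, ZMod.natCast_zmod_val]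
          rw [this, Nat.cast_sub (by omega), ZMod.natCast_self]
          push_cast
          ring
        rw [h8]
        exact mm v 0
      · have hx1 : x.val = a - 1 := by omega
        have h8 : x = -1 := by
          have : x = ((a - 1 : ℕ) : ZMod a) := by rw [← hx1, ZMod.natCast_zmod_val]
          rw [this, Nat.cast_sub (by omega), ZMod.natCast_self]
          push_cast
          ring
        rw [h8]
        exact (mh v).symm.trans (mm v 0)
  intro u v
  exact (h5 u).trans (h5 v).symm

end fg

end Pool.Agent.T9h44.LA
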