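import Pool.Agent.TH486.LAC.Lift
import Pool.Agent.W111.LAR.Odd
import Pool.Agent.W111.LAR.Top

set_option autoImplicit false

/-!
# Haar graphs (bi-Cayley graphs of type zero) and the load criterion
-/

namespace Pool.Agent.T9h44.LA

open Finset SimpleGraph H931R3.LA Pool.Agent.W111.LAR Pool.Agent.TH486.LAC

/-! ### The consecutive pairing -/

theorem sum_even_odd (g : ℕ → ℤ) (h : ℕ) :
    ∑ j ∈ range (2 * h), g j = ∑ i ∈ range h, g (2 * i) + ∑ i ∈ range h, g (2 * i + 1) := by
  induction h with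
  | zero => simp
  | succ h ih =>
    rw [show 2 * (h + 1) = 2 * h + 1 + 1 from by ring, sum_range_succ, sum_range_succ, ih,
      sum_range_succ, sum_range_succ]
    ring

theorem exists_shift (f : ℕ → ℤ) (h : ℕ) (n : ℤ) (hn : f (2 * h) = f 0 + n) :
    ∃ ε : ℕ, ε ≤ 1 ∧ 2 * ∑ i ∈ range h, (f (2 * i + ε + 1) - f (2 * i + ε)) ≤ n := by
  have h1 : ∑ j ∈ range (2 * h), (f (j + 1) - f j) = n := by
    rw [sum_range_sub, hn]
    ring
  rw [sum_even_odd (fun j => f (j + 1) - f j)] at h1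
  by_contra hcon
  push Not at hcon
  have h2 := hcon 0 (by omega)
  have h3 := hcon 1 (by omega)
  simp only [add_zero] at h2
  linarith

section pairs

variable {Γ : Type} [Group Γ] [Finite Γ]

omit [Finite Γ] in
theorem ord_pow_ge (g : Γ) {d : ℕ} (hd : 0 < d) : orderOf g ≤ d * orderOf (g ^ d) := by
  have h1 := orderOf_pow' g (n := d) hd.ne'
  have h2 : Nat.gcd (orderOf g) d * orderOf (g ^ d) = orderOf g := by
    rw [h1]
    exact Nat.mul_div_cancel' (Nat.gcd_dvd_left _ _)
  calc orderOf g = Nat.gcd (orderOf g) d * orderOf (g ^ d) := h2.symm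
    _ ≤ d * orderOf (g ^ d) := Nat.mul_le_mul_right _ (Nat.gcd_le_right _ hd)

/-- The pairing of an even subset of a coset of a cyclic group. -/
theorem coset_pairs (g x : Γ) (A : Finset Γ) (h : ℕ) (hA : A.card = 2 * h) (hpos : 0 < h)
    (hx : ∀ a ∈ A, ∃ k : ℕ, a = x * g ^ k) (lam : ℝ)
    (hlam : lam = 1 / 2 ∨ ∀ p : ℕ, p.Prime → p ∣ orderOf g → (A.card : ℝ) ≤ 2 * lam * p) :
    ∃ s t : Fin h → Γ, (∀ a, a ∈ A ↔ ∃ i, a = s i ∨ a = t i) ∧
      ∑ i, (1 : ℝ) / orderOf ((s i)⁻¹ * t i) ≤ lam := by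
  classical
  have hn : 0 < orderOf g := orderOf_pos g
  -- the exponents
  have hx' : ∀ a : A, ∃ k : ℕ, k < orderOf g ∧ (a : Γ) = x * g ^ k := by
    intro a
    obtain ⟨k, hk⟩ := hx a a.2
    exact ⟨k % orderOf g, Nat.mod_lt _ hn, by rw [pow_mod_orderOf]; exact hk⟩
  choose k hk1 hk2 using hx'
  have hkinj : Function.Injective k := by
    intro a b hab
    apply Subtype.ext
    rw [hk2 a, hk2 b, hab]
  obtain ⟨T, hT⟩ : ∃ T : Finset ℕ, T = univ.image k := ⟨_, rfl⟩
  have hTc : T.card = 2 * h := by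
    rw [hT, card_image_of_injective _ hkinj, card_univ, Fintype.card_coe, hA]
  have hTn : ∀ m ∈ T, m < orderOf g := by
    intro m hm
    rw [hT, mem_image] at hm
    obtain ⟨a, _, rfl⟩ := hm
    exact hk1 a
  have hTA : ∀ m ∈ T, x * g ^ m ∈ A := by
    intro m hm
    rw [hT, mem_image] at hm
    obtain ⟨a, _, rfl⟩ := hm
    rw [← hk2 a]
    exact a.2
  have hAT : ∀ a ∈ A, ∃ m ∈ T, a = x * g ^ m := by
    intro a ha
    refine ⟨k ⟨a, ha⟩, ?_, hk2 ⟨a, ha⟩⟩
    rw [hT, mem_image]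
    exact ⟨_, mem_univ _, rfl⟩
  obtain ⟨v, hv⟩ : ∃ v : Fin (2 * h) ↪o ℕ, v = T.orderEmbOfFin hTc := ⟨_, rfl⟩
  have hvT : ∀ j, v j ∈ T := fun j => by rw [hv]; exact orderEmbOfFin_mem T hTc j
  have hTv : ∀ m ∈ T, ∃ j, v j = m := by
    intro m hm
    have h1 : m ∈ Set.range (T.orderEmbOfFin hTc) := by
      rw [range_orderEmbOfFin]
      exact hm
    rw [hv]
    exact h1
  have h0 : 0 < 2 * h := by omega
  obtain ⟨f, hf⟩ : ∃ f : ℕ → ℕ, f = fun j => if hj : j < 2 * h then v ⟨j, hj⟩ else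
      v ⟨0, h0⟩ + orderOf g := ⟨_, rfl⟩
  have hf1 : ∀ j (hj : j < 2 * h), f j = v ⟨j, hj⟩ := by
    intro j hj
    rw [hf]
    simp only [dif_pos hj]
  have hf2 : f (2 * h) = f 0 + orderOf g := by
    rw [hf1 0 h0, hf]
    simp
  have hfA : ∀ j, j ≤ 2 * h → x * g ^ f j ∈ A := by
    intro j hj
    rcases Nat.lt_or_ge j (2 * h) with h1 | h1
    · rw [hf1 j h1]
      exact hTA _ (hvT _)
    · have h2 : j = 2 * h := by omega
      rw [h2, hf2, pow_add, pow_orderOf_eq_one, mul_one, hf1 0 h0]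
      exact hTA _ (hvT _)
  have hAf : ∀ a ∈ A, ∃ j, j < 2 * h ∧ a = x * g ^ f j := by
    intro a ha
    obtain ⟨m, hm, rfl⟩ := hAT a ha
    obtain ⟨j, rfl⟩ := hTv m hm
    exact ⟨j, j.2, by rw [hf1 j j.2]⟩
  have hfs : ∀ j, j < 2 * h → f j < f (j + 1) := by
    intro j hj
    rw [hf1 j hj]
    rcases Nat.lt_or_ge (j + 1) (2 * h) with h1 | h1
    · rw [hf1 (j + 1) h1]
      exact v.strictMono (Fin.mk_lt_mk.2 (Nat.lt_succ_self j))
    · have h2 : j + 1 = 2 * h := by omega
      rw [h2, hf2]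
      have h3 := hTn _ (hvT ⟨j, hj⟩)
      omega
  obtain ⟨ε, hε, hsum⟩ := exists_shift (fun j => (f j : ℤ)) h (orderOf g) (by
    rw [hf2]
    push_cast
    ring)
  refine ⟨fun i => x * g ^ f (2 * i + ε), fun i => x * g ^ f (2 * i + ε + 1), ?_, ?_⟩
  · intro a
    constructor
    · intro ha
      obtain ⟨j, hj, rfl⟩ := hAf a ha
      rcases Nat.lt_or_ge ε 1 with h1 | h1
      · have h2 : ε = 0 := by omega
        subst h2
        refine ⟨⟨j / 2, by omega⟩, ?_⟩
        rcases Nat.mod_two_eq_zero_or_one j with h3 | h3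
        · left
          have : j = 2 * (j / 2) + 0 := by omega
          simp only [← this]
        · right
          have : j = 2 * (j / 2) + 0 + 1 := by omega
          simp only [← this]
      · have h2 : ε = 1 := by omega
        subst h2
        rcases Nat.eq_zero_or_pos j with h4 | h4
        · subst h4
          refine ⟨⟨h - 1, by omega⟩, ?_⟩
          right
          have h5 : 2 * (h - 1) + 1 + 1 = 2 * h := by omega
          simp only [h5]
          rw [hf2, pow_add, pow_orderOf_eq_one, mul_one]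
        · refine ⟨⟨(j - 1) / 2, by omega⟩, ?_⟩
          rcases Nat.mod_two_eq_zero_or_one (j - 1) with h3 | h3
          · left
            have : j = 2 * ((j - 1) / 2) + 1 := by omega
            simp only [← this]
          · right
            have : j = 2 * ((j - 1) / 2) + 1 + 1 := by omega
            simp only [← this]
    · rintro ⟨i, rfl | rfl⟩
      · exact hfA _ (by have := i.2; omega)
      · exact hfA _ (by have := i.2; omega)
  · have hinv : ∀ i : Fin h, (x * g ^ f (2 * i + ε))⁻¹ * (x * g ^ f (2 * i + ε + 1)) =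
        g ^ (f (2 * i + ε + 1) - f (2 * i + ε)) := by
      intro i
      have h1 := hfs (2 * i + ε) (by have := i.2; omega)
      rw [mul_inv_rev, mul_assoc, inv_mul_cancel_left, inv_mul_eq_iff_eq_mul, ← pow_add]
      congr 1
      omega
    simp only [hinv]
    rcases hlam with h1 | h1
    · -- total length
      have hn' : (0 : ℝ) < orderOf g := by exact_mod_cast hn
      have h2 : ∀ i ∈ (univ : Finset (Fin h)),
          (1 : ℝ) / orderOf (g ^ (f (2 * i + ε + 1) - f (2 * i + ε))) ≤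
            ((f (2 * i + ε + 1) : ℝ) - f (2 * i + ε)) / orderOf g := by
        intro i _
        have h3 := hfs (2 * i + ε) (by have := i.2; omega)
        have h4 := ord_pow_ge g (d := f (2 * i + ε + 1) - f (2 * i + ε)) (by omega)
        have h5 : (0 : ℝ) < orderOf (g ^ (f (2 * i + ε + 1) - f (2 * i + ε))) := by
          exact_mod_cast orderOf_pos _
        rw [div_le_div_iff₀ h5 hn', one_mul]
        have h6 : ((f (2 * i + ε + 1) - f (2 * i + ε) : ℕ) : ℝ) =
            (f (2 * i + ε + 1) : ℝ) - f (2 * i + ε) := Nat.cast_sub h3.le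
        rw [← h6]
        exact_mod_cast h4
      refine (sum_le_sum h2).trans ?_
      rw [← sum_div, h1, div_le_div_iff₀ hn' (by norm_num)]
      have h7 : (2 : ℝ) * ∑ i ∈ range h, ((f (2 * i + ε + 1) : ℝ) - f (2 * i + ε)) ≤ orderOf g := by
        exact_mod_cast hsum
      rw [← Fin.sum_univ_eq_sum_range (fun i => (f (2 * i + ε + 1) : ℝ) - f (2 * i + ε)) h] at h7
      linarith
    · have h2 : ∀ i ∈ (univ : Finset (Fin h)),
          (1 : ℝ) / orderOf (g ^ (f (2 * i + ε + 1) - f (2 * i + ε))) ≤ lam / h := by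
        intro i _
        have h3 := hfs (2 * i + ε) (by have := i.2; omega)
        have hj1 : 2 * (i : ℕ) + ε < 2 * h := by have := i.2; omega
        have h4 : orderOf (g ^ (f (2 * i + ε + 1) - f (2 * i + ε))) ≠ 1 := by
          rw [Ne, orderOf_eq_one_iff]
          intro h5
          have h6 := Nat.le_of_dvd (by omega) (orderOf_dvd_of_pow_eq_one h5)
          -- the gap is less than the order
          rw [hf1 _ hj1] at h6 h3
          rcases Nat.lt_or_ge (2 * i + ε + 1) (2 * h) with h7 | h7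
          · rw [hf1 _ h7] at h6
            have := hTn _ (hvT ⟨2 * i + ε + 1, h7⟩)
            omega
          · have h8 : 2 * (i : ℕ) + ε + 1 = 2 * h := by omega
            rw [h8, hf2, hf1 0 h0] at h6
            have h9 : v ⟨0, h0⟩ < v ⟨2 * i + ε, hj1⟩ :=
              v.strictMono (Fin.mk_lt_mk.2 (by omega))
            omega
        obtain ⟨p, hp, hpd⟩ := Nat.exists_prime_and_dvd h4
        have h5 : p ∣ orderOf g := hpd.trans (orderOf_pow_dvd _)
        have h6 := h1 p hp h5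
        rw [hA] at h6
        have h7 : p ≤ orderOf (g ^ (f (2 * i + ε + 1) - f (2 * i + ε))) :=
          Nat.le_of_dvd (orderOf_pos _) hpd
        have h8 : (p : ℝ) ≤ orderOf (g ^ (f (2 * i + ε + 1) - f (2 * i + ε))) := by
          exact_mod_cast h7
        have h9 : (0 : ℝ) < p := by exact_mod_cast hp.pos
        have h10 : (0 : ℝ) < h := by exact_mod_cast hpos
        have h11 : (0 : ℝ) < lam := by
          push_cast at h6
          by_contra hcon
          push Not at hcon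
          nlinarith
        rw [div_le_div_iff₀ (h9.trans_le h8) h10, one_mul]
        push_cast at h6
        nlinarith
      refine (sum_le_sum h2).trans ?_
      rw [sum_const, card_univ, Fintype.card_fin, nsmul_eq_mul]
      have h10 : (h : ℝ) ≠ 0 := by exact_mod_cast hpos.ne'
      rw [mul_div_cancel₀ _ h10]

end pairs

section haar

variable {Γ : Type} [Group Γ]

/-- The bipartite graph on `Γ × Bool` with the edges `{(g, 0), (g s, 1)}` and `{(g, 0), (g t, 1)}`. -/
def PG (s t : Γ) : SimpleGraph (Γ × Bool) where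
  Adj x y := (x.2 = false ∧ y.2 = true ∧ (y.1 = x.1 * s ∨ y.1 = x.1 * t)) ∨
    (y.2 = false ∧ x.2 = true ∧ (x.1 = y.1 * s ∨ x.1 = y.1 * t))
  symm := ⟨fun x y h => h.symm⟩
  loopless := ⟨by
    rintro x (⟨h1, h2, _⟩ | ⟨h1, h2, _⟩)
    · rw [h1] at h2; exact Bool.noConfusion h2
    · rw [h1] at h2; exact Bool.noConfusion h2⟩

theorem PG_deg [Finite Γ] (s t : Γ) (v : Γ × Bool) : ((PG s t).neighborSet v).ncard ≤ 2 := by
  have key : ∃ a b, (PG s t).neighborSet v ⊆ {a, b} := by
    obtain ⟨g, b⟩ := v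
    cases b
    · refine ⟨(g * s, true), (g * t, true), ?_⟩
      rintro ⟨w, c⟩ (⟨_, h2, h3⟩ | ⟨_, h2, _⟩)
      · simp only at h2 h3
        subst h2
        rcases h3 with rfl | rfl <;> simp
      · simp at h2
    · refine ⟨(g * s⁻¹, false), (g * t⁻¹, false), ?_⟩
      rintro ⟨w, c⟩ (⟨h1, _, _⟩ | ⟨h1, _, h3⟩)
      · simp at h1
      · simp only at h1 h3
        subst h1
        rcases h3 with rfl | rfl <;> simp
  obtain ⟨a, b, hab⟩ := key
  refine (Set.ncard_le_ncard hab (Set.toFinite _)).trans ((Set.ncard_insert_le _ _).trans ?_)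
  rw [Set.ncard_singleton]

theorem PG_size0 [Finite Γ] (s t g : Γ) :
    2 * orderOf (s⁻¹ * t) ≤ csize (PG s t) (g, false) := by
  obtain ⟨u, hu⟩ : ∃ u, u = t * s⁻¹ := ⟨_, rfl⟩
  have hou : orderOf (s⁻¹ * t) = orderOf u := by
    have h1 := MulEquiv.orderOf_eq (MulAut.conj s) (s⁻¹ * t)
    rw [MulAut.conj_apply, mul_inv_cancel_left] at h1
    rw [hu, h1]
  rw [hou]
  have hstep1 : ∀ x : Γ, (PG s t).Adj (x, false) (x * t, true) := by
    intro x
    exact Or.inl ⟨rfl, rfl, Or.inr rfl⟩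
  have hstep2 : ∀ x : Γ, (PG s t).Adj (x * t, true) (x * u, false) := by
    intro x
    refine Or.inr ⟨rfl, rfl, Or.inl ?_⟩
    rw [hu]
    simp only
    rw [mul_assoc x, inv_mul_cancel_right]
  have hreach : ∀ j : ℕ, (PG s t).Reachable (g, false) (g * u ^ j, false) := by
    intro j
    induction j with
    | zero => rw [pow_zero, mul_one]
    | succ j ih =>
      have h1 := ih.trans ((hstep1 _).reachable.trans (hstep2 _).reachable)
      rw [mul_assoc, ← pow_succ] at h1
      exact h1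
  obtain ⟨F, hF⟩ : ∃ F : Fin (orderOf u) × Bool → Γ × Bool,
      F = fun z => (if z.2 then g * u ^ (z.1 : ℕ) * t else g * u ^ (z.1 : ℕ), z.2) := ⟨_, rfl⟩
  have hinj : Function.Injective F := by
    rintro ⟨a, c⟩ ⟨b, d⟩ h
    rw [hF] at h
    simp only [Prod.mk.injEq] at h
    obtain ⟨h1, rfl⟩ := h
    have h2 : u ^ (a : ℕ) = u ^ (b : ℕ) := by
      cases c
      · simpa using h1
      · simpa using h1
    have h3 := pow_injOn_Iio_orderOf (Set.mem_Iio.2 a.2) (Set.mem_Iio.2 b.2) h2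
    rw [Fin.ext h3]
  have hsub : Set.range F ⊆ {w | (PG s t).Reachable (g, false) w} := by
    rintro _ ⟨⟨a, c⟩, rfl⟩
    rw [hF]
    cases c
    · exact hreach a
    · exact (hreach a).trans (hstep1 _).reachable
  have h1 := Set.ncard_le_ncard hsub (Set.toFinite _)
  have h2 : (Set.range F).ncard = 2 * orderOf u := by
    rw [← Set.image_univ, Set.ncard_image_of_injective _ hinj, Set.ncard_univ, Nat.card_prod,
      Nat.card_eq_fintype_card, Nat.card_eq_fintype_card, Fintype.card_fin, Fintype.card_bool,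
      mul_comm]
  rw [h2] at h1
  exact h1

theorem PG_size [Finite Γ] (s t : Γ) (v : Γ × Bool) :
    2 * orderOf (s⁻¹ * t) ≤ csize (PG s t) v := by
  obtain ⟨g, b⟩ := v
  cases b
  · exact PG_size0 s t g
  · have h1 : (PG s t).Reachable (g * t⁻¹, false) (g, true) := by
      refine Adj.reachable (Or.inl ⟨rfl, rfl, Or.inr ?_⟩)
      simp
    rw [← csize_eq h1]
    exact PG_size0 s t _

/-- The perfect matching given by `s`. -/
theorem PG_deg_one [Finite Γ] (s : Γ) (v : Γ × Bool) : ((PG s s).neighborSet v).ncard ≤ 1 := by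
  have key : ∃ a, (PG s s).neighborSet v ⊆ {a} := by
    obtain ⟨g, b⟩ := v
    cases b
    · refine ⟨(g * s, true), ?_⟩
      rintro ⟨w, c⟩ (⟨_, h2, h3⟩ | ⟨_, h2, _⟩)
      · simp only at h2 h3
        subst h2
        rcases h3 with rfl | rfl <;> simp
      · simp at h2
    · refine ⟨(g * s⁻¹, false), ?_⟩
      rintro ⟨w, c⟩ (⟨h1, _, _⟩ | ⟨h1, _, h3⟩)
      · simp at h1
      · simp only at h1 h3
        subst h1
        rcases h3 with rfl | rfl <;> simp
  obtain ⟨a, hab⟩ := key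
  refine (Set.ncard_le_ncard hab (Set.toFinite _)).trans ?_
  rw [Set.ncard_singleton]

theorem haar_union (A : Set Γ) (X : SimpleGraph (Γ × Bool))
    (hX : ∀ g h, X.Adj (g, false) (h, true) ↔ g⁻¹ * h ∈ A)
    (hX0 : ∀ g h b, ¬ X.Adj (g, b) (h, b)) {κ : Type} (s t : κ → Γ)
    (hA : ∀ a, a ∈ A ↔ ∃ i, a = s i ∨ a = t i) : X = ⨆ i, PG (s i) (t i) := by
  have key : ∀ g h, X.Adj (g, false) (h, true) ↔ ∃ i, (PG (s i) (t i)).Adj (g, false) (h, true) := by
    intro g h
    rw [hX, hA]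
    refine exists_congr fun i => ?_
    constructor
    · intro h1
      refine Or.inl ⟨rfl, rfl, ?_⟩
      simpa [inv_mul_eq_iff_eq_mul] using h1
    · rintro (⟨_, _, h1⟩ | ⟨h1, _⟩)
      · simpa [inv_mul_eq_iff_eq_mul] using h1
      · simp at h1
  have key0 : ∀ g h b, ∀ i, ¬ (PG (s i) (t i)).Adj (g, b) (h, b) := by
    rintro g h b i (⟨h1, h2, _⟩ | ⟨h1, h2, _⟩)
    · simp only at h1 h2
      rw [h1] at h2
      exact Bool.noConfusion h2
    · simp only at h1 h2
      rw [h1] at h2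
      exact Bool.noConfusion h2
  ext ⟨g, b⟩ ⟨h, c⟩
  rw [iSup_adj]
  cases b <;> cases c
  · exact ⟨fun h1 => absurd h1 (hX0 _ _ _), fun ⟨i, hi⟩ => absurd hi (key0 _ _ _ _)⟩
  · exact key g h
  · rw [X.adj_comm, key h g]
    exact exists_congr fun i => SimpleGraph.adj_comm _ _ _
  · exact ⟨fun h1 => absurd h1 (hX0 _ _ _), fun ⟨i, hi⟩ => absurd hi (key0 _ _ _ _)⟩

/-- The load decomposition of a Haar graph. -/
theorem haar_ld [Finite Γ] (A : Set Γ) (X : SimpleGraph (Γ × Bool))
    (hX : ∀ g h, X.Adj (g, false) (h, true) ↔ g⁻¹ * h ∈ A)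
    (hX0 : ∀ g h b, ¬ X.Adj (g, b) (h, b)) {κ : Type} [Fintype κ] (s t : κ → Γ)
    (hA : ∀ a, a ∈ A ↔ ∃ i, a = s i ∨ a = t i)
    (hsum : ∑ i, (1 : ℝ) / orderOf ((s i)⁻¹ * t i) ≤ 1) : LD X (Fintype.card κ) := by
  refine ⟨κ, inferInstance, fun i => PG (s i) (t i), rfl, fun i v => PG_deg _ _ _, ?_,
    haar_union A X hX hX0 s t hA⟩
  intro v
  refine le_trans (sum_le_sum fun i _ => ?_) hsum
  have h1 : ((2 * orderOf ((s i)⁻¹ * t i) : ℕ) : ℝ) ≤ csize (PG (s i) (t i)) v := by
    exact_mod_cast PG_size _ _ _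
  have h2 : (0 : ℝ) < orderOf ((s i)⁻¹ * t i) := by exact_mod_cast orderOf_pos _
  push_cast at h1
  rw [div_le_div_iff₀ (by linarith) h2]
  linarith

/-- Graphs of maximum degree two with long cycles and a graph of maximum degree one, and locally
injective homomorphisms. -/
theorem lift_odd {V W κ : Type} [Finite V] [Finite W] [Fintype κ] {G : SimpleGraph V}
    (P : SimpleGraph V) (H : κ → SimpleGraph V) (hG : G = P ⊔ ⨆ i, H i)
    (hP : ∀ v, (P.neighborSet v).ncard ≤ 1) (hdeg : ∀ i v, ((H i).neighborSet v).ncard ≤ 2)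
    (L : ℕ) (hL : 12 * Fintype.card κ ≤ L + 8) (hsz : ∀ i v, L ≤ csize (H i) v)
    (G' : SimpleGraph W) (f : W → V) (hom : ∀ a b, G'.Adj a b → G.Adj (f a) (f b))
    (inj : ∀ a b b', G'.Adj a b → G'.Adj a b' → f b = f b' → b = b') :
    Cov G' (Fintype.card κ + 1) := by
  have hQ : G' = (G' ⊓ P.comap f) ⊔ ⨆ i, (G' ⊓ (H i).comap f) := by
    ext a b
    rw [sup_adj, iSup_adj]
    constructor
    · intro h
      have h3 := hom a b h
      rw [hG, sup_adj, iSup_adj] at h3
      rcases h3 with h3 | ⟨i, hi⟩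
      · exact Or.inl (by rw [inf_adj]; exact ⟨h, h3⟩)
      · exact Or.inr ⟨i, by rw [inf_adj]; exact ⟨h, hi⟩⟩
    · rintro (h | ⟨i, hi⟩)
      · rw [inf_adj] at h
        exact h.1
      · rw [inf_adj] at hi
        exact hi.1
  have hle : ∀ (Q : SimpleGraph V) (m : ℕ), (∀ v, (Q.neighborSet v).ncard ≤ m) → ∀ a,
      ((G' ⊓ Q.comap f).neighborSet a).ncard ≤ m := by
    intro Q m hQ a
    rw [← (pull_inj inj Q a).ncard_image]
    exact (Set.ncard_le_ncard (pull_maps Q a) (Set.toFinite _)).trans (hQ (f a))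
  have h3 := cov_matching (fun i => G' ⊓ (H i).comap f) (G' ⊓ P.comap f)
    (fun i a => hle (H i) 2 (hdeg i) a) (fun a => hle P 1 hP a) L hL
    (fun i a hcyc => (hsz i (f a)).trans (pull_size inj (H i) (hdeg i) a hcyc))
  rw [← hQ] at h3
  exact h3

theorem haar_deg [Finite Γ] (A : Set Γ) (X : SimpleGraph (Γ × Bool))
    (hX : ∀ g h, X.Adj (g, false) (h, true) ↔ g⁻¹ * h ∈ A)
    (hX0 : ∀ g h b, ¬ X.Adj (g, b) (h, b)) (v : Γ × Bool) :
    (X.neighborSet v).ncard = A.ncard := by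
  obtain ⟨g, b⟩ := v
  cases b
  · have h1 : X.neighborSet (g, false) = (fun a => (g * a, true)) '' A := by
      ext ⟨h, c⟩
      constructor
      · intro hh
        cases c
        · exact absurd hh (hX0 _ _ _)
        · exact ⟨g⁻¹ * h, (hX g h).1 hh, by simp⟩
      · rintro ⟨a, ha, hh⟩
        obtain ⟨rfl, rfl⟩ := Prod.mk.inj hh
        exact (hX g (g * a)).2 (by simpa using ha)
    rw [h1, Set.ncard_image_of_injective]
    intro a b hab
    exact mul_left_cancel (Prod.mk.inj hab).1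
  · have h1 : X.neighborSet (g, true) = (fun a => (g * a⁻¹, false)) '' A := by
      ext ⟨h, c⟩
      constructor
      · intro hh
        cases c
        · have h2 : X.Adj (h, false) (g, true) := (X.adj_comm _ _).1 hh
          exact ⟨h⁻¹ * g, (hX h g).1 h2, by simp⟩
        · exact absurd hh (hX0 _ _ _)
      · rintro ⟨a, ha, hh⟩
        obtain ⟨rfl, rfl⟩ := Prod.mk.inj hh
        exact (X.adj_comm _ _).1 ((hX (g * a⁻¹) g).2 (by simpa using ha))
    rw [h1, Set.ncard_image_of_injective]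
    intro a b hab
    exact inv_injective (mul_left_cancel (Prod.mk.inj hab).1)

end haar

end Pool.Agent.T9h44.LA
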