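import Mathlib

set_option autoImplicit false

/-!
# The load of an equitable partition
-/

namespace Pool.Agent.T9h44.LA

open Finset

/-- load of `m` independent elements of order `N` -/
noncomputable def gl (N m : ℕ) : ℝ := 2 * m / (N : ℝ) ^ m

theorem gl_succ {N : ℕ} (hN : 3 ≤ N) {m : ℕ} (hm : 1 ≤ m) : gl N (m + 1) ≤ gl N m := by
  unfold gl
  have hN' : (3 : ℝ) ≤ N := by exact_mod_cast hN
  have hm' : (1 : ℝ) ≤ m := by exact_mod_cast hm
  have hp : (0 : ℝ) < (N : ℝ) ^ m := by positivity
  rw [pow_succ, div_le_div_iff₀ (by positivity) hp]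
  push_cast
  have h1 : 2 * ((m : ℝ) + 1) ≤ 2 * m * N := by nlinarith
  calc 2 * ((m : ℝ) + 1) * (N : ℝ) ^ m ≤ 2 * m * N * (N : ℝ) ^ m :=
        mul_le_mul_of_nonneg_right h1 hp.le
    _ = 2 * m * ((N : ℝ) ^ m * N) := by ring

theorem gl_anti {N : ℕ} (hN : 3 ≤ N) {m m' : ℕ} (hm : 1 ≤ m) (h : m ≤ m') : gl N m' ≤ gl N m := by
  induction m', h using Nat.le_induction with
  | base => exact le_rfl
  | succ k hk ih => exact (gl_succ hN (by omega)).trans ih

theorem gl_nonneg (N m : ℕ) : 0 ≤ gl N m := by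
  unfold gl
  positivity

/-- `x² N ≤ N ^ x` -/
theorem sq_pow {N : ℕ} (hN : 3 ≤ N) {x : ℕ} (hx : 3 ≤ x ∨ (5 ≤ N ∧ 2 ≤ x)) :
    x ^ 2 * N ≤ N ^ x := by
  have step : ∀ x, 2 ≤ x → x ^ 2 * N ≤ N ^ x → (x + 1) ^ 2 * N ≤ N ^ (x + 1) := by
    intro x hx2 h
    rw [pow_succ N x]
    have h1 : (x + 1) ^ 2 ≤ x ^ 2 * N := by nlinarith
    calc (x + 1) ^ 2 * N ≤ x ^ 2 * N * N := Nat.mul_le_mul_right _ h1
      _ ≤ N ^ x * N := Nat.mul_le_mul_right _ h
  rcases hx with hx | ⟨hN5, hx⟩
  · induction x, hx using Nat.le_induction with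
    | base =>
      have h9 : 9 ≤ N * N := by nlinarith
      calc 3 ^ 2 * N = 9 * N := by norm_num
        _ ≤ N * N * N := Nat.mul_le_mul_right _ h9
        _ = N ^ 3 := by ring
    | succ k hk ih => exact step k (by omega) ih
  · induction x, hx using Nat.le_induction with
    | base => nlinarith
    | succ k hk ih => exact step k (by omega) ih

/-- The load of an equitable partition. -/
theorem part_load {N k l : ℕ} (hN : 3 ≤ N) (hNodd : Odd N) (hl : 0 < l) (m : Fin l → ℕ)
    (hsum : ∑ i, m i = k) (heq : ∀ i j, m i ≤ m j + 1) (lam : ℝ) (h2 : 2 ≤ lam * N)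
    {w r : ℕ} (hr : 1 ≤ r) (hwk : w ≤ k) (hw : (l - 1) * r + 1 ≤ w)
    (hlam : 2 * (w : ℝ) + 2 * ((r : ℝ) - 1) ^ 2 * ((N : ℝ) - 1) ≤ lam * (N : ℝ) ^ r) :
    ∑ i, gl N (m i) ≤ lam := by
  have hN' : (3 : ℝ) ≤ N := by exact_mod_cast hN
  have hN0 : (0 : ℝ) < N := by linarith
  have hr' : (1 : ℝ) ≤ r := by exact_mod_cast hr
  have hlam1 : gl N 1 ≤ lam := by
    unfold gl
    rw [pow_one, div_le_iff₀ hN0]
    push_cast
    linarith
  -- the smallest class
  obtain ⟨i0, _, hi0⟩ := Finset.exists_min_image (Finset.univ : Finset (Fin l)) m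
    ⟨⟨0, hl⟩, Finset.mem_univ _⟩
  obtain ⟨x, hx⟩ : ∃ x, x = m i0 := ⟨_, rfl⟩
  have hmin : ∀ i, x ≤ m i := fun i => by rw [hx]; exact hi0 i (Finset.mem_univ _)
  have hmax : ∀ i, m i ≤ x + 1 := fun i => by rw [hx]; exact heq i i0
  have hkx : k + 1 ≤ l * x + l := by
    have h3 : ∑ i, m i < ∑ _i : Fin l, (x + 1) :=
      Finset.sum_lt_sum (fun i _ => hmax i) ⟨i0, Finset.mem_univ _, by omega⟩
    rw [hsum, Finset.sum_const, Finset.card_univ, Fintype.card_fin, smul_eq_mul] at h3
    have : l * (x + 1) = l * x + l := by ring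
    omega
  have hlk : l ≤ k := by
    have h3 : (l - 1) * 1 ≤ (l - 1) * r := Nat.mul_le_mul_left _ hr
    omega
  have hx1 : 1 ≤ x := by
    by_contra hcon
    have : x = 0 := by omega
    rw [this] at hkx
    omega
  have hle : ∀ y, 1 ≤ y → y ≤ x → ∑ i, gl N (m i) ≤ l * gl N y := by
    intro y hy1 hy
    calc ∑ i, gl N (m i) ≤ ∑ _i : Fin l, gl N y :=
          Finset.sum_le_sum fun i _ => gl_anti hN hy1 (hy.trans (hmin i))
      _ = l * gl N y := by rw [Finset.sum_const, Finset.card_univ, Fintype.card_fin, nsmul_eq_mul]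
  by_cases hl1 : l = 1
  · have h3 := hle 1 le_rfl hx1
    have h4 : (l : ℝ) = 1 := by rw [hl1, Nat.cast_one]
    rw [h4, one_mul] at h3
    exact h3.trans hlam1
  have hl2 : 2 ≤ l := by omega
  have hNr : (0 : ℝ) < (N : ℝ) ^ r := by positivity
  have hlr : (l : ℝ) * r ≤ w + r - 1 := by
    have h3 : l * r + 1 ≤ w + r := by
      obtain ⟨l', rfl⟩ : ∃ l', l = l' + 1 := ⟨l - 1, by omega⟩
      rw [Nat.add_sub_cancel] at hw
      have : (l' + 1) * r = l' * r + r := by ring
      omega
    have h4 : ((l * r + 1 : ℕ) : ℝ) ≤ ((w + r : ℕ) : ℝ) := by exact_mod_cast h3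
    push_cast at h4
    linarith
  by_cases hkr : l * r ≤ k
  · -- all classes have at least `r` elements
    have hrx : r ≤ x := by
      by_contra hcon
      have h3 : l * x + l ≤ l * r := by
        have : l * (x + 1) ≤ l * r := Nat.mul_le_mul_left _ (by omega)
        have h4 : l * (x + 1) = l * x + l := by ring
        omega
      omega
    refine (hle r hr hrx).trans ?_
    unfold gl
    rw [← mul_div_assoc, div_le_iff₀ hNr]
    have h3 : (0 : ℝ) ≤ (r - 1) * ((r - 1) * (N - 1)) := by
      apply mul_nonneg (by linarith)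
      exact mul_nonneg (by linarith) (by linarith)
    have h4 : ((r : ℝ) - 1) ≤ (r - 1) ^ 2 * (N - 1) := by
      rcases eq_or_lt_of_le hr with h5 | h5
      · rw [← h5]; simp
      · have h6 : (1 : ℝ) ≤ r - 1 := by
          have : ((1 + 1 : ℕ) : ℝ) ≤ r := by exact_mod_cast h5
          push_cast at this
          linarith
        nlinarith
    nlinarith
  · push Not at hkr
    obtain ⟨q, hq⟩ : ∃ q, l * r = k + q := ⟨l * r - k, by omega⟩
    have hq1 : 1 ≤ q := by omega
    have hqr : q + 1 ≤ r := by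
      obtain ⟨l', rfl⟩ : ∃ l', l = l' + 1 := ⟨l - 1, by omega⟩
      rw [Nat.add_sub_cancel] at hw
      have : (l' + 1) * r = l' * r + r := by ring
      omega
    by_cases hql : q ≤ l
    · -- all classes have `r - 1` or `r` elements
      have hxr : r - 1 ≤ x := by
        by_contra hcon
        have h3 : l * x + l ≤ l * (r - 1) := by
          have : l * (x + 1) ≤ l * (r - 1) := Nat.mul_le_mul_left _ (by omega)
          have h4 : l * (x + 1) = l * x + l := by ring
          omega
        have h4 : l * (r - 1) + l = l * r := by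
          obtain ⟨r', rfl⟩ : ∃ r', r = r' + 1 := ⟨r - 1, by omega⟩
          rw [Nat.add_sub_cancel]
          ring
        omega
      have hxr' : x + 1 ≤ r := by
        by_contra hcon
        have h3 : l * r ≤ l * x := Nat.mul_le_mul_left _ (by omega)
        have h4 : l * x ≤ k := by
          rw [← hsum]
          calc l * x = ∑ _i : Fin l, x := by
                rw [Finset.sum_const, Finset.card_univ, Fintype.card_fin, smul_eq_mul]
            _ ≤ ∑ i, m i := Finset.sum_le_sum fun i _ => hmin i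
        omega
      have hxe : x = r - 1 := by omega
      obtain ⟨r', hr'e⟩ : ∃ r', r = r' + 1 := ⟨r - 1, by omega⟩
      have hx' : x = r' := by omega
      have h3 : ∀ i, gl N (m i) = gl N r + ((r : ℝ) - m i) * (gl N r' - gl N r) := by
        intro i
        have h4 := hmin i
        have h5 := hmax i
        have h6 : m i = r' ∨ m i = r := by omega
        rcases h6 with h6 | h6
        · rw [h6, hr'e]
          push_cast
          ring
        · rw [h6]
          ring
      rw [Finset.sum_congr rfl (fun i _ => h3 i), Finset.sum_add_distrib, ← Finset.sum_mul,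
        Finset.sum_sub_distrib]
      have h4 : ∑ i, ((m i : ℕ) : ℝ) = k := by
        rw [← hsum]
        push_cast
        rfl
      rw [h4]
      simp only [Finset.sum_const, Finset.card_univ, Fintype.card_fin, nsmul_eq_mul]
      have h5 : (l : ℝ) * r - k = q := by
        have : ((l * r : ℕ) : ℝ) = ((k + q : ℕ) : ℝ) := by rw [hq]
        push_cast at this
        linarith
      rw [h5]
      have h6 : gl N r' = 2 * ((r : ℝ) - 1) * N / (N : ℝ) ^ r := by
        unfold gl
        rw [hr'e, pow_succ]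
        push_cast
        field_simp
        ring
      have h7 : gl N r = 2 * r / (N : ℝ) ^ r := rfl
      rw [h6, h7]
      have h8 : (l : ℝ) * (2 * r / (N : ℝ) ^ r) +
          q * (2 * ((r : ℝ) - 1) * N / (N : ℝ) ^ r - 2 * r / (N : ℝ) ^ r) =
          (2 * (l * r) + q * (2 * ((r : ℝ) - 1) * N - 2 * r)) / (N : ℝ) ^ r := by
        field_simp
      rw [h8, div_le_iff₀ hNr]
      have hq' : (q : ℝ) ≤ r - 1 := by
        have : ((q + 1 : ℕ) : ℝ) ≤ r := by exact_mod_cast hqr
        push_cast at this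
        linarith
      have hr2 : (2 : ℝ) ≤ r := by
        have : (1 : ℝ) ≤ q := by exact_mod_cast hq1
        linarith
      have h9 : (0 : ℝ) ≤ 2 * ((r : ℝ) - 1) * N - 2 * r := by nlinarith
      have h10 : (q : ℝ) * (2 * ((r : ℝ) - 1) * N - 2 * r) ≤
          (r - 1) * (2 * ((r : ℝ) - 1) * N - 2 * r) := mul_le_mul_of_nonneg_right hq' h9
      nlinarith
    · -- few classes
      push Not at hql
      have hrl : l + 2 ≤ r := by omega
      have hkl : l * l + l ≤ k + 1 := by
        obtain ⟨l', rfl⟩ : ∃ l', l = l' + 1 := ⟨l - 1, by omega⟩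
        rw [Nat.add_sub_cancel] at hw
        have h3 : l' * (l' + 1 + 2) ≤ l' * r := Nat.mul_le_mul_left _ hrl
        have h4 : l' * (l' + 1 + 2) = (l' + 1) * (l' + 1) + l' - 1 := by
          have : (l' + 1) * (l' + 1) + l' = l' * (l' + 1 + 2) + 1 := by ring
          omega
        have h5 : 0 < (l' + 1) * (l' + 1) := by positivity
        omega
      have hxl : l ≤ x := by
        by_contra hcon
        have h3 : l * (x + 1) ≤ l * l := Nat.mul_le_mul_left _ (by omega)
        have h4 : l * (x + 1) = l * x + l := by ring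
        omega
      by_cases hgood : 3 ≤ x ∨ (5 ≤ N ∧ 2 ≤ x)
      · have h3 := hle x hx1 le_rfl
        refine h3.trans ?_
        have h4 := sq_pow hN hgood
        have h5 : ((x : ℝ) ^ 2 * N) ≤ (N : ℝ) ^ x := by exact_mod_cast h4
        have h6 : (l : ℝ) ≤ x := by exact_mod_cast hxl
        unfold gl
        rw [← mul_div_assoc, div_le_iff₀ (by positivity)]
        have h7 : (0 : ℝ) ≤ x := by positivity
        have hlam0 : 0 ≤ lam := by
          by_contra hneg
          push Not at hneg
          nlinarith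
        calc (l : ℝ) * (2 * x) ≤ x * (2 * x) := by nlinarith
          _ = 2 * x ^ 2 := by ring
          _ ≤ (lam * N) * x ^ 2 := by nlinarith [sq_nonneg (x : ℝ)]
          _ = lam * (x ^ 2 * N) := by ring
          _ ≤ lam * (N : ℝ) ^ x := mul_le_mul_of_nonneg_left h5 hlam0
      · -- `N = 3`, `x = 2`, `l = 2`, `k = 5`
        have hx2 : x = 2 := by omega
        have hl2' : l = 2 := by omega
        have hN3 : N = 3 := by
          obtain ⟨s, hs⟩ := hNodd
          omega
        subst hl2'
        have hk5 : k = 5 := by omega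
        rw [Fin.sum_univ_two] at hsum ⊢
        have e0 := hmin 0
        have e1 := hmin 1
        have e2 := hmax 0
        have e3 := hmax 1
        have hcase : (m 0 = 2 ∧ m 1 = 3) ∨ (m 0 = 3 ∧ m 1 = 2) := by omega
        rw [hN3] at h2 ⊢
        push_cast at h2
        rcases hcase with ⟨h3, h4⟩ | ⟨h3, h4⟩
        · rw [h3, h4]
          unfold gl
          norm_num
          linarith
        · rw [h3, h4]
          unfold gl
          norm_num
          linarith

end Pool.Agent.T9h44.LA
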