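import Pool.Agent.T9h44.LA.Power
import Pool.Agent.T9h44.LA.Load
import Pool.Agent.TH486.LAC.Lift

set_option autoImplicit false

/-!
# Cayley graphs of independent families
-/

namespace Pool.Agent.T9h44.LA

open SimpleGraph H931R3.LA Pool.Agent.W111.LAR Pool.Agent.TH486.LAC

/-- A decomposition into `N` graphs of maximum degree two with load at most `lam`. -/
def LDL {V : Type} (G : SimpleGraph V) (N : ℕ) (lam : ℝ) : Prop :=
  ∃ (κ : Type) (_ : Fintype κ) (P : κ → SimpleGraph V), Fintype.card κ = N ∧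
    (∀ i v, ((P i).neighborSet v).ncard ≤ 2) ∧ (∀ v, ∑ i, (2 : ℝ) / csize (P i) v ≤ lam) ∧
    G = ⨆ i, P i

theorem LDL.ld {V : Type} {G : SimpleGraph V} {N : ℕ} {lam : ℝ} (h : LDL G N lam) (hl : lam ≤ 1) :
    LD G N := by
  obtain ⟨κ, inst, P, h1, h2, h3, h4⟩ := h
  exact ⟨κ, inst, P, h1, h2, fun v => (h3 v).trans hl, h4⟩

theorem LDL.mono {V : Type} {G : SimpleGraph V} {N : ℕ} {lam lam' : ℝ} (h : LDL G N lam)
    (hl : lam ≤ lam') : LDL G N lam' := by
  obtain ⟨κ, inst, P, h1, h2, h3, h4⟩ := h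
  exact ⟨κ, inst, P, h1, h2, fun v => (h3 v).trans hl, h4⟩

theorem LDL.iSup {V ι : Type} [Fintype ι] (G : ι → SimpleGraph V) (N : ι → ℕ) (lam : ι → ℝ)
    (h : ∀ i, LDL (G i) (N i) (lam i)) : LDL (⨆ i, G i) (∑ i, N i) (∑ i, lam i) := by
  choose κ inst P h1 h2 h3 h4 using h
  refine ⟨Σ i, κ i, inferInstance, fun x => P x.1 x.2, ?_, fun x v => h2 x.1 x.2 v, ?_, ?_⟩
  · rw [Fintype.card_sigma]
    exact Finset.sum_congr rfl fun i _ => h1 i
  · intro v
    rw [Fintype.sum_sigma]
    exact Finset.sum_le_sum fun i _ => h3 i v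
  · rw [iSup_sigma]
    exact iSup_congr fun i => h4 i

theorem csize_hc {V : Type} {F : SimpleGraph V} (h : HC F) (v : V) :
    csize F v = Nat.card V := by
  unfold csize
  have : {w | F.Reachable v w} = Set.univ := by
    ext w
    simp only [Set.mem_univ, iff_true]
    exact h.1.preconnected v w
  rw [this, Set.ncard_univ]

section ind

variable {Γ : Type} [AddCommGroup Γ]

/-- The homomorphism given by elements whose order divides `N`. -/
noncomputable def comb {N j : ℕ} (t : Fin j → Γ) (ht : ∀ i, N • t i = 0) :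
    (Fin j → ZMod N) →+ Γ :=
  ∑ i, (ZMod.lift N ⟨zmultiplesHom Γ (t i), by
    rw [zmultiplesHom_apply, natCast_zsmul]
    exact ht i⟩).comp (Pi.evalAddMonoidHom (fun _ : Fin j => ZMod N) i)

theorem comb_single {N j : ℕ} (t : Fin j → Γ) (ht : ∀ i, N • t i = 0) (i : Fin j) :
    comb t ht (Pi.single i 1) = t i := by
  unfold comb
  rw [AddMonoidHom.finset_sum_apply]
  rw [Finset.sum_eq_single i]
  · rw [AddMonoidHom.comp_apply]
    have : (Pi.evalAddMonoidHom (fun _ : Fin j => ZMod N) i) (Pi.single i 1) = 1 := by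
      simp
    rw [this]
    have h1 := ZMod.lift_coe N ⟨zmultiplesHom Γ (t i), by
      rw [zmultiplesHom_apply, natCast_zsmul]
      exact ht i⟩ 1
    rw [Int.cast_one] at h1
    rw [h1]
    simp
  · intro i' _ hi'
    rw [AddMonoidHom.comp_apply]
    have : (Pi.evalAddMonoidHom (fun _ : Fin j => ZMod N) i') (Pi.single i 1) = 0 := by
      simp [Pi.single_eq_of_ne hi']
    rw [this, map_zero]
  · intro h
    exact absurd (Finset.mem_univ _) h

/-- Cayley graphs of independent families of elements of odd order `N`. -/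
theorem ind_ldl [Finite Γ] {N j : ℕ} (hN : 3 ≤ N) (hodd : Odd N) (hj : 1 ≤ j) (t : Fin j → Γ)
    (ht : ∀ i, N • t i = 0) (hinj : Function.Injective (comb t ht)) (X : SimpleGraph Γ)
    (hX : ∀ g h, X.Adj g h ↔ ∃ i, (h = g + t i ∨ g = h + t i)) : LDL X j (gl N j) := by
  classical
  have hnz : NeZero N := ⟨by omega⟩
  obtain ⟨κ, inst, F, hc, hF, hT⟩ := tor_hd hN hodd j j le_rfl hj
  -- coset representatives
  obtain ⟨r, hr⟩ : ∃ r : Γ → Γ, r = fun g =>
      (Quotient.out (QuotientAddGroup.mk (s := (comb t ht).range) g) : Γ) := ⟨_, rfl⟩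
  have hr1 : ∀ g, ∃ x, comb t ht x = g - r g := by
    intro g
    have h1 : (QuotientAddGroup.mk (s := (comb t ht).range) (r g)) = QuotientAddGroup.mk g := by
      rw [hr]
      exact Quotient.out_eq _
    rw [QuotientAddGroup.eq] at h1
    obtain ⟨x, hx⟩ := h1
    exact ⟨x, by rw [hx]; abel⟩
  have hr2 : ∀ g x, r (g + comb t ht x) = r g := by
    intro g x
    have h1 : (QuotientAddGroup.mk (s := (comb t ht).range) (g + comb t ht x)) =
        QuotientAddGroup.mk g := by
      rw [QuotientAddGroup.eq]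
      refine ⟨-x, ?_⟩
      rw [map_neg]
      abel
    rw [hr]
    simp only
    rw [h1]
  choose f hf using hr1
  have hfadd : ∀ g x, f (g + comb t ht x) = f g + x := by
    intro g x
    apply hinj
    rw [map_add, hf, hf, hr2]
    abel
  have hstep : ∀ g i, f (g + t i) = f g + Pi.single i 1 := by
    intro g i
    have := hfadd g (Pi.single i 1)
    rw [comb_single] at this
    exact this
  have hfr : ∀ g, g = r g + comb t ht (f g) := by
    intro g
    rw [hf]
    abel
  have hrt : ∀ g i, r (g + t i) = r g := by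
    intro g i
    have := hr2 g (Pi.single i 1)
    rw [comb_single] at this
    exact this
  have hradj : ∀ g h, X.Adj g h → r g = r h := by
    intro g h hgh
    rw [hX] at hgh
    obtain ⟨i, rfl | rfl⟩ := hgh
    · exact (hrt g i).symm
    · exact hrt h i
  have hom : ∀ g h, X.Adj g h → (tor N j).Adj (f g) (f h) := by
    intro g h hgh
    rw [hX] at hgh
    rw [tor_adj (by omega)]
    obtain ⟨i, rfl | rfl⟩ := hgh
    · exact ⟨i, Or.inl (hstep _ _)⟩
    · exact ⟨i, Or.inr (hstep _ _)⟩
  have inj : ∀ a b b', X.Adj a b → X.Adj a b' → f b = f b' → b = b' := by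
    intro a b b' h1 h2 h3
    rw [hfr b, hfr b', ← hradj a b h1, ← hradj a b' h2, h3]
  -- adjacent vertices lift
  have lift : ∀ a y, (tor N j).Adj (f a) y → ∃ b, X.Adj a b ∧ f b = y := by
    intro a y hy
    rw [tor_adj (by omega)] at hy
    obtain ⟨i, hi | hi⟩ := hy
    · exact ⟨a + t i, (hX _ _).2 ⟨i, Or.inl rfl⟩, by rw [hstep, hi]⟩
    · refine ⟨a - t i, (hX _ _).2 ⟨i, Or.inr (by abel)⟩, ?_⟩
      have h1 := hstep (a - t i) i
      rw [sub_add_cancel, hi] at h1
      exact (add_right_cancel h1).symm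
  have hFle : ∀ i, F i ≤ tor N j := by
    intro i
    rw [hT]
    exact le_iSup F i
  have hnc : ∀ i a, ((X ⊓ (F i).comap f).neighborSet a).ncard = 2 := by
    intro i a
    have h1 : f '' ((X ⊓ (F i).comap f).neighborSet a) = (F i).neighborSet (f a) := by
      apply Set.Subset.antisymm (pull_maps (F i) a)
      intro y hy
      obtain ⟨b, hb1, hb2⟩ := lift a y (hFle i hy)
      refine ⟨b, ?_, hb2⟩
      rw [mem_neighborSet, inf_adj, comap_adj, hb2]
      exact ⟨hb1, hy⟩
    rw [← (pull_inj inj (F i) a).ncard_image, h1]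
    exact (hF i).2 (f a)
  refine ⟨κ, inst, fun i => X ⊓ (F i).comap f, hc, fun i v => (hnc i v).le, ?_, ?_⟩
  · intro v
    have h1 : ∀ i, (2 : ℝ) / csize (X ⊓ (F i).comap f) v ≤ 2 / (N : ℝ) ^ j := by
      intro i
      have h2 := pull_size inj (F i) (fun v => ((hF i).2 v).le) v (fun w _ => hnc i w)
      rw [csize_hc (hF i), card_tor] at h2
      have h3 : ((N : ℝ) ^ j) ≤ csize (X ⊓ (F i).comap f) v := by exact_mod_cast h2
      exact div_le_div_of_nonneg_left (by norm_num) (by positivity) h3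
    refine (Finset.sum_le_sum fun i _ => h1 i).trans (le_of_eq ?_)
    rw [Finset.sum_const, Finset.card_univ, hc, nsmul_eq_mul]
    unfold gl
    ring
  · ext a b
    rw [iSup_adj]
    constructor
    · intro h
      have h1 := hom a b h
      rw [hT, iSup_adj] at h1
      obtain ⟨i, hi⟩ := h1
      exact ⟨i, by rw [inf_adj]; exact ⟨h, hi⟩⟩
    · rintro ⟨i, hi⟩
      rw [inf_adj] at hi
      exact hi.1

end ind

end Pool.Agent.T9h44.LA
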