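import Pool.Agent.T9h44.LA.WG

set_option autoImplicit false

/-!
# The labels
-/

namespace Pool.Agent.T9h44.LA

open SimpleGraph

theorem cast_inj {n i j : ℕ} (hi : i < n) (hj : j < n) (h : (i : ZMod n) = (j : ZMod n)) :
    i = j := by
  have : NeZero n := ⟨by omega⟩
  have h1 := congrArg ZMod.val h
  rwa [ZMod.val_natCast_of_lt hi, ZMod.val_natCast_of_lt hj] at h1

theorem neg_cast {n k : ℕ} (hk : k ≤ n) : ((n - k : ℕ) : ZMod n) = -(k : ZMod n) := by
  rw [Nat.cast_sub hk, ZMod.natCast_self, zero_sub]

theorem cast_ne_neg {n j k : ℕ} (hk : 0 < k) (hj : j + k < n) : (j : ZMod n) ≠ -(k : ZMod n) := by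
  intro h
  rw [← neg_cast (by omega)] at h
  have := cast_inj (by omega) (by omega) h
  omega

/-- a state which changes exactly after the elements of a set of even size -/
theorem even_state {b : ℕ} [NeZero b] (R : ZMod b → Prop) [DecidablePred R]
    (h : Even (Finset.univ.filter R).card) :
    ∃ q : ZMod b → Bool, (∀ v, R v → q (v + 1) = ! (q v)) ∧ ∀ v, ¬ R v → q (v + 1) = q v := by
  obtain ⟨N, hN⟩ : ∃ N : ZMod b → ℕ, N = fun v =>
      (Finset.univ.filter (fun r : ZMod b => R r ∧ r.val < v.val)).card := ⟨_, rfl⟩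
  have h0 : N 0 = 0 := by
    rw [hN]
    simp [ZMod.val_zero]
  have hsucc : ∀ v : ZMod b, v.val + 1 < b → N (v + 1) = N v + (if R v then 1 else 0) := by
    intro v hv
    have hval : (v + 1).val = v.val + 1 := by
      have h7 : v + 1 = ((v.val + 1 : ℕ) : ZMod b) := by
        rw [Nat.cast_add, ZMod.natCast_zmod_val, Nat.cast_one]
      rw [h7, ZMod.val_natCast_of_lt hv]
    rw [hN]
    simp only [hval]
    have h1 : Finset.univ.filter (fun r : ZMod b => R r ∧ r.val < v.val + 1) =
        Finset.univ.filter (fun r : ZMod b => R r ∧ r.val < v.val) ∪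
          (if R v then {v} else ∅) := by
      ext r
      rw [Finset.mem_union, Finset.mem_filter, Finset.mem_filter]
      constructor
      · rintro ⟨_, h2, h3⟩
        by_cases h4 : r.val < v.val
        · exact Or.inl ⟨Finset.mem_univ _, h2, h4⟩
        · right
          have h5 : r = v := ZMod.val_injective _ (by omega)
          rw [h5] at h2 ⊢
          rw [if_pos h2]
          exact Finset.mem_singleton_self _
      · rintro (⟨_, h2, h3⟩ | h2)
        · exact ⟨Finset.mem_univ _, h2, by omega⟩
        · split_ifs at h2 with h3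
          · rw [Finset.mem_singleton] at h2
            rw [h2]
            exact ⟨Finset.mem_univ _, h3, by omega⟩
          · simp at h2
    rw [h1, Finset.card_union_of_disjoint]
    · split_ifs <;> simp
    · rw [Finset.disjoint_left]
      intro r hr hr'
      split_ifs at hr' with h3
      · rw [Finset.mem_singleton] at hr'
        rw [hr'] at hr
        have := (Finset.mem_filter.1 hr).2.2
        omega
      · simp at hr'
  have hlast : ∀ v : ZMod b, v.val + 1 = b → N v + (if R v then 1 else 0) =
      (Finset.univ.filter R).card := by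
    intro v hv
    rw [hN]
    simp only
    have h1 : Finset.univ.filter R =
        Finset.univ.filter (fun r : ZMod b => R r ∧ r.val < v.val) ∪
          (if R v then {v} else ∅) := by
      ext r
      rw [Finset.mem_union, Finset.mem_filter, Finset.mem_filter]
      constructor
      · rintro ⟨_, h2⟩
        by_cases h4 : r.val < v.val
        · exact Or.inl ⟨Finset.mem_univ _, h2, h4⟩
        · right
          have h6 := ZMod.val_lt r
          have h5 : r = v := ZMod.val_injective _ (by omega)
          rw [h5] at h2 ⊢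
          rw [if_pos h2]
          exact Finset.mem_singleton_self _
      · rintro (⟨_, h2, h3⟩ | h2)
        · exact ⟨Finset.mem_univ _, h2⟩
        · split_ifs at h2 with h3
          · rw [Finset.mem_singleton] at h2
            rw [h2]
            exact ⟨Finset.mem_univ _, h3⟩
          · simp at h2
    rw [h1, Finset.card_union_of_disjoint]
    · split_ifs <;> simp
    · rw [Finset.disjoint_left]
      intro r hr hr'
      split_ifs at hr' with h3
      · rw [Finset.mem_singleton] at hr'
        rw [hr'] at hr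
        have := (Finset.mem_filter.1 hr).2.2
        omega
      · simp at hr'
  have hwrap : ∀ v : ZMod b, v.val + 1 = b → v + 1 = 0 := by
    intro v hv
    have h9 : ((v.val + 1 : ℕ) : ZMod b) = 0 := by
      rw [hv]
      exact ZMod.natCast_self _
    rw [Nat.cast_add, ZMod.natCast_zmod_val, Nat.cast_one] at h9
    exact h9
  refine ⟨fun v => Nat.bodd (N v), ?_, ?_⟩
  · intro v hv
    simp only
    by_cases h1 : v.val + 1 < b
    · rw [hsucc v h1, if_pos hv, Nat.bodd_succ]
    · have h2 : v.val + 1 = b := by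
        have := ZMod.val_lt v
        omega
      rw [hwrap v h2, h0]
      have h3 := hlast v h2
      rw [if_pos hv] at h3
      rw [← h3] at h
      have h4 := Nat.bodd_succ (N v)
      have h5 : Nat.bodd (N v + 1) = false := by
        obtain ⟨m, hm⟩ := h
        rw [hm, Nat.bodd_add]
        simp
      have h6 : (N v).succ = N v + 1 := rfl
      rw [h5] at h4
      rw [← h4]
      rfl
  · intro v hv
    simp only
    by_cases h1 : v.val + 1 < b
    · rw [hsucc v h1, if_neg hv, add_zero]
    · have h2 : v.val + 1 = b := by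
        have := ZMod.val_lt v
        omega
      rw [hwrap v h2, h0]
      have h3 := hlast v h2
      rw [if_neg hv, add_zero] at h3
      rw [← h3] at h
      obtain ⟨m, hm⟩ := h
      rw [hm, Nat.bodd_add]
      simp

section labels

variable {a b : ℕ} [NeZero b] (w : ZMod b ≃ ZMod b)

/-- the first `a` vertices of the second cycle -/
def UU (a : ℕ) (w : ZMod b ≃ ZMod b) (v : ZMod b) : Prop := (w.symm v).val < a

theorem idx_u {i : ℕ} (hi : i < b) : (w.symm (w (i : ZMod b))).val = i := by
  rw [w.symm_apply_apply, ZMod.val_natCast_of_lt hi]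

theorem u_idx (v : ZMod b) : w (((w.symm v).val : ℕ) : ZMod b) = v := by
  rw [ZMod.natCast_zmod_val, w.apply_symm_apply]

theorem u_inj {i j : ℕ} (hi : i < b) (hj : j < b) (h : w (i : ZMod b) = w (j : ZMod b)) : i = j :=
  cast_inj hi hj (w.injective h)

open Classical in
theorem card_UU (hab : a ≤ b) : (Finset.univ.filter (UU a w)).card = a := by
  have h1 : Finset.univ.filter (UU a w) = (Finset.range a).image (fun i : ℕ => w (i : ZMod b)) := by
    ext v
    rw [Finset.mem_filter, Finset.mem_image]
    constructor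
    · rintro ⟨_, h⟩
      exact ⟨(w.symm v).val, Finset.mem_range.2 h, u_idx w v⟩
    · rintro ⟨i, hi, rfl⟩
      refine ⟨Finset.mem_univ _, ?_⟩
      unfold UU
      rw [idx_u w (by have := Finset.mem_range.1 hi; omega)]
      exact Finset.mem_range.1 hi
  rw [h1, Finset.card_image_of_injOn, Finset.card_range]
  intro i hi j hj hij
  exact u_inj w (by have := Finset.mem_range.1 hi; omega) (by
    have := Finset.mem_range.1 hj; omega) hij

open Classical in
theorem card_shift (P : ZMod b → Prop) :
    (Finset.univ.filter (fun v => P (v + 1))).card = (Finset.univ.filter P).card := by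
  apply Finset.card_bij (fun v _ => v + 1)
  · intro v hv
    exact Finset.mem_filter.2 ⟨Finset.mem_univ _, (Finset.mem_filter.1 hv).2⟩
  · intro v _ v' _ h
    exact add_right_cancel h
  · intro v hv
    refine ⟨v - 1, Finset.mem_filter.2 ⟨Finset.mem_univ _, ?_⟩, by ring⟩
    rw [sub_add_cancel]
    exact (Finset.mem_filter.1 hv).2

/-- the positions of the special labels -/
theorem sp_exists (ha : 7 ≤ a) (hb : 3 * a ≤ b) :
    ∃ sp : ℕ → ZMod b, (∀ i < a - 3, ∀ j < a - 3, sp i = sp j → i = j) ∧
      (∀ j < a - 3, ¬ UU a w (sp j)) ∧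
      (∀ i : ℕ, i < 3 → ¬ UU a w (w (i : ZMod b) - 1) →
        ∃ j < a - 3, 0 < j ∧ sp j = w (i : ZMod b) - 1) ∧
      (∀ j < a - 3, UU a w (sp j + 1) → ∃ i : ℕ, i < 3 ∧ sp j + 1 = w (i : ZMod b)) := by
  classical
  obtain ⟨I, hI⟩ : ∃ I : Finset (ZMod b), I = Finset.univ.filter
      (fun v => ¬ UU a w v ∧ ¬ UU a w (v + 1)) := ⟨_, rfl⟩
  have hIc : a - 3 ≤ I.card := by
    have h1 : (Finset.univ : Finset (ZMod b)) ⊆ I ∪ (Finset.univ.filter (UU a w) ∪
        Finset.univ.filter (fun v => UU a w (v + 1))) := by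
      intro v _
      rw [Finset.mem_union, Finset.mem_union, hI, Finset.mem_filter, Finset.mem_filter,
        Finset.mem_filter]
      by_cases h1 : UU a w v
      · exact Or.inr (Or.inl ⟨Finset.mem_univ _, h1⟩)
      · by_cases h2 : UU a w (v + 1)
        · exact Or.inr (Or.inr ⟨Finset.mem_univ _, h2⟩)
        · exact Or.inl ⟨Finset.mem_univ _, h1, h2⟩
    have h2 := (Finset.card_le_card h1).trans ((Finset.card_union_le _ _).trans
      (Nat.add_le_add_left (Finset.card_union_le _ _) _))
    rw [card_shift (UU a w), card_UU w (by omega), Finset.card_univ, ZMod.card] at h2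
    omega
  obtain ⟨e⟩ := Function.Embedding.nonempty_of_card_le (α := Fin (a - 3)) (β := I)
    (by rw [Fintype.card_fin, Fintype.card_coe]; exact hIc)
  have he : ∀ j : Fin (a - 3), ¬ UU a w (e j : ZMod b) ∧ ¬ UU a w ((e j : ZMod b) + 1) := by
    intro j
    have h3 := Finset.mem_filter.1 (show (e j : ZMod b) ∈ Finset.univ.filter
      (fun v => ¬ UU a w v ∧ ¬ UU a w (v + 1)) from by rw [← hI]; exact (e j).2)
    exact h3.2
  obtain ⟨g, hg⟩ : ∃ g : ℕ → ZMod b, g = fun j => if h : j < a - 3 then (e ⟨j, h⟩ : ZMod b) else 0 :=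
    ⟨_, rfl⟩
  have hg1 : ∀ j < a - 3, ¬ UU a w (g j) ∧ ¬ UU a w (g j + 1) := by
    intro j hj
    rw [hg]
    simp only [hj, dif_pos]
    exact he ⟨j, hj⟩
  have hg2 : ∀ i < a - 3, ∀ j < a - 3, g i = g j → i = j := by
    intro i hi j hj hij
    rw [hg] at hij
    simp only [hi, hj, dif_pos] at hij
    have := e.injective (Subtype.ext hij)
    exact congrArg Fin.val this
  have hUu : ∀ i < a, UU a w (w (i : ZMod b)) := by
    intro i hi
    unfold UU
    rw [idx_u w (by omega)]
    exact hi
  refine ⟨fun j => if 1 ≤ j ∧ j ≤ 3 ∧ ¬ UU a w (w ((j - 1 : ℕ) : ZMod b) - 1) then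
    w ((j - 1 : ℕ) : ZMod b) - 1 else g j, ?_, ?_, ?_, ?_⟩
  · intro i hi j hj hij
    simp only at hij
    split_ifs at hij with h1 h2 h2
    · have := u_inj w (by omega) (by omega) (sub_left_injective hij)
      omega
    · exfalso
      apply (hg1 j hj).2
      rw [← hij, sub_add_cancel]
      exact hUu _ (by omega)
    · exfalso
      apply (hg1 i hi).2
      rw [hij, sub_add_cancel]
      exact hUu _ (by omega)
    · exact hg2 i hi j hj hij
  · intro j hj
    simp only
    split_ifs with h1
    · exact h1.2.2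
    · exact (hg1 j hj).1
  · intro i hi h
    refine ⟨i + 1, by omega, by omega, ?_⟩
    simp only
    rw [if_pos]
    · rw [Nat.add_sub_cancel]
    · refine ⟨by omega, by omega, ?_⟩
      rw [Nat.add_sub_cancel]
      exact h
  · intro j hj h
    simp only at h ⊢
    split_ifs at h ⊢ with h1
    · exact ⟨j - 1, by omega, by rw [sub_add_cancel]⟩
    · exact absurd h (hg1 j hj).2

/-- the labels of the path in the second cycle -/
def lab (a : ℕ) : ℕ → ZMod a
  | 0 => -2
  | 1 => -3
  | (i + 2) => (i : ZMod a)

/-- the position of a label in the path -/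
def pos (a : ℕ) (j : ℕ) : ℕ := if j = a - 2 then 0 else if j = a - 3 then 1 else j + 2

theorem lab_pos (ha : 5 ≤ a) {j : ℕ} (hj : j < a - 1) : lab a (pos a j) = (j : ZMod a) := by
  unfold pos
  split_ifs with h1 h2
  · rw [h1, neg_cast (by omega)]
    simp [lab]
  · rw [h2, neg_cast (by omega)]
    simp [lab]
  · rfl

theorem pos_lt (ha : 5 ≤ a) {j : ℕ} (hj : j < a - 1) : pos a j < a - 1 := by
  unfold pos
  split_ifs <;> omega

theorem lab_form (ha : 5 ≤ a) {i : ℕ} (hi : i < a - 1) :
    ∃ j < a - 1, lab a i = (j : ZMod a) ∧ i = pos a j := by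
  match i, hi with
  | 0, hi =>
    refine ⟨a - 2, by omega, ?_, ?_⟩
    · rw [neg_cast (by omega)]
      simp [lab]
    · unfold pos
      rw [if_pos rfl]
  | 1, hi =>
    refine ⟨a - 3, by omega, ?_, ?_⟩
    · rw [neg_cast (by omega)]
      simp [lab]
    · unfold pos
      rw [if_neg (by omega), if_pos rfl]
  | (i + 2), hi =>
    refine ⟨i, by omega, rfl, ?_⟩
    unfold pos
    rw [if_neg (by omega), if_neg (by omega)]

theorem lab_inj (ha : 5 ≤ a) {i j : ℕ} (hi : i < a - 1) (hj : j < a - 1) (h : lab a i = lab a j) :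
    i = j := by
  obtain ⟨i', hi', e1, e2⟩ := lab_form ha hi
  obtain ⟨j', hj', e3, e4⟩ := lab_form ha hj
  rw [e1, e3] at h
  have := cast_inj (by omega) (by omega) h
  rw [e2, e4, this]

/-- the labels of the second cycle -/
noncomputable def c2 (a b : ℕ) (i : ZMod b) : Option (ZMod a) :=
  if i.val < a - 1 then some (lab a i.val) else none

theorem c2_iff (ha : 5 ≤ a) (hab : a ≤ b) {j : ℕ} (hj : j < a - 1) (i : ZMod b) :
    c2 a b i = some (j : ZMod a) ↔ i = ((pos a j : ℕ) : ZMod b) := by
  unfold c2
  constructor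
  · intro h
    split_ifs at h with h1
    have h2 := Option.some.inj h
    rw [← lab_pos ha hj] at h2
    have h3 := lab_inj ha h1 (pos_lt ha hj) h2
    rw [← h3, ZMod.natCast_zmod_val]
  · intro h
    have h1 := pos_lt ha hj
    rw [h, ZMod.val_natCast_of_lt (by omega), if_pos h1, lab_pos ha hj]

theorem c2_form (ha : 5 ≤ a) (i : ZMod b) (x : ZMod a) (h : c2 a b i = some x) :
    ∃ j < a - 1, x = (j : ZMod a) := by
  unfold c2 at h
  split_ifs at h with h1
  obtain ⟨j, hj, e, _⟩ := lab_form ha h1
  exact ⟨j, hj, by rw [← Option.some.inj h, e]⟩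

theorem c2_proper (ha : 5 ≤ a) (hab : a ≤ b) : Proper (c2 a b) := by
  intro v x h h'
  obtain ⟨j, hj, rfl⟩ := c2_form ha v x h
  rw [c2_iff ha hab hj] at h h'
  rw [← h] at h'
  exact sub_ne' (by omega) v h'

theorem c2_neg (ha : 5 ≤ a) (v : ZMod b) : c2 a b v ≠ some (-1) := by
  intro h
  obtain ⟨j, hj, e⟩ := c2_form ha v _ h
  apply cast_ne_neg (n := a) (j := j) (k := 1) (by norm_num) (by omega)
  rw [← e]
  simp

theorem c2_hc (ha : 5 ≤ a) (hab : a ≤ b) : HC (fg (c2 a b)) :=
  fg_once (by omega) (by omega) (c2_proper ha hab) (fun j => ((pos a j : ℕ) : ZMod b))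
    (fun _ hj v => c2_iff ha hab hj v) (c2_neg ha)

end labels

end Pool.Agent.T9h44.LA
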