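import Pool.Agent.T9h44.LA.Cay

set_option autoImplicit false

/-!
# Labelled covers of Cayley multigraphs of abelian groups
-/

namespace Pool.Agent.T9h44.LA

open Finset Module SimpleGraph H931R3.LA Pool.Agent.W111.LAR Pool.Agent.TH486.LAC

section pull

variable {W A : Type} [Finite W]

theorem pull_size' {X : SimpleGraph A} {G : SimpleGraph W} {f : W → A}
    (surj : ∀ x b, X.Adj (f x) b → ∃ y, G.Adj x y ∧ f y = b) (P : SimpleGraph A) (hP : P ≤ X)
    (x : W) : csize P (f x) ≤ csize (G ⊓ P.comap f) x := by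
  have walk : ∀ {u v : A} (_q : P.Walk u v) (b : W), (G ⊓ P.comap f).Reachable x b → f b = u →
      ∃ b', (G ⊓ P.comap f).Reachable x b' ∧ f b' = v := by
    intro u v q
    induction q with
    | nil => intro b hb hbx; exact ⟨b, hb, hbx⟩
    | cons hadj q ih =>
      rename_i u z v
      intro b hb hbx
      subst hbx
      obtain ⟨y, hy1, hy2⟩ := surj b z (hP hadj)
      have h1 : (G ⊓ P.comap f).Adj b y := by
        rw [inf_adj, comap_adj, hy2]
        exact ⟨hy1, hadj⟩
      exact ih y (hb.trans h1.reachable) hy2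
  have hsub : {w | P.Reachable (f x) w} ⊆ f '' {b | (G ⊓ P.comap f).Reachable x b} := by
    rintro w ⟨q⟩
    obtain ⟨b, hb, hbw⟩ := walk q x (Reachable.refl x) rfl
    exact ⟨b, hb, hbw⟩
  exact (Set.ncard_le_ncard hsub (Set.toFinite _)).trans (Set.ncard_image_le (Set.toFinite _))

/-- Decompositions lift along locally bijective homomorphisms. -/
theorem LDL.pull [Finite A] {X : SimpleGraph A} {k : ℕ} {lam : ℝ} (h : LDL X k lam) (G : SimpleGraph W)
    (f : W → A) (hom : ∀ x y, G.Adj x y → X.Adj (f x) (f y))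
    (inj : ∀ a b b', G.Adj a b → G.Adj a b' → f b = f b' → b = b')
    (surj : ∀ x b, X.Adj (f x) b → ∃ y, G.Adj x y ∧ f y = b) : LDL G k lam := by
  obtain ⟨κ, inst, P, h1, h2, h3, h4⟩ := h
  refine ⟨κ, inst, fun i => G ⊓ (P i).comap f, h1, ?_, ?_, ?_⟩
  · intro i a
    rw [← (pull_inj inj (P i) a).ncard_image]
    exact (Set.ncard_le_ncard (pull_maps (P i) a) (Set.toFinite _)).trans (h2 i (f a))
  · intro v
    refine (Finset.sum_le_sum fun i _ => ?_).trans (h3 (f v))
    have h5 := pull_size' surj (P i) (by rw [h4]; exact le_iSup P i) v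
    have h6 : (0 : ℝ) < csize (P i) (f v) := by exact_mod_cast csize_pos (P i) (f v)
    have h7 : (csize (P i) (f v) : ℝ) ≤ csize (G ⊓ (P i).comap f) v := by exact_mod_cast h5
    exact div_le_div_of_nonneg_left (by norm_num) h6 h7
  · ext a b
    rw [iSup_adj]
    constructor
    · intro h
      have h5 := hom a b h
      rw [h4, iSup_adj] at h5
      obtain ⟨i, hi⟩ := h5
      exact ⟨i, by rw [inf_adj]; exact ⟨h, hi⟩⟩
    · rintro ⟨i, hi⟩
      rw [inf_adj] at hi
      exact hi.1

end pull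

section layer

variable {Γ : Type} [AddCommGroup Γ] {W : Type}

/-- Subspaces spanned by the images of the labels. -/
theorem sub_count' [Finite Γ] {p e k : ℕ} (hp : p.Prime) (a : Fin k → Γ) (lam : ℝ)
    (hlam : ∀ (U : AddSubgroup Γ) (r : ℕ), 1 ≤ r → (∀ u ∈ U, p • u = 0) → Nat.card U = p ^ r →
      2 * ({i | p ^ (e - 1) • a i ∈ U}.ncard : ℝ) + 2 * ((r : ℝ) - 1) ^ 2 * ((p : ℝ) ^ e - 1) ≤
        lam * ((p : ℝ) ^ e) ^ r)
    (σ : Fin k → ptor Γ p) (hσ : ∀ i, (σ i : Γ) = p ^ (e - 1) • a i)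
    (V : Submodule (ZMod p) (ptor Γ p)) (hV : 1 ≤ finrank (ZMod p) V) (B : Finset (Fin k))
    (hB : ∀ i ∈ B, σ i ∈ V) :
    2 * (B.card : ℝ) + 2 * ((finrank (ZMod p) V : ℝ) - 1) ^ 2 * ((p : ℝ) ^ e - 1) ≤
      lam * ((p : ℝ) ^ e) ^ (finrank (ZMod p) V) := by
  classical
  have : Fact p.Prime := ⟨hp⟩
  obtain ⟨U, hU⟩ : ∃ U : AddSubgroup Γ, U = V.toAddSubgroup.map (ptor Γ p).subtype := ⟨_, rfl⟩
  have hcard : Nat.card U = p ^ finrank (ZMod p) V := by
    have h1 : Nat.card V = p ^ finrank (ZMod p) V := by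
      rw [Module.natCard_eq_pow_finrank (K := ZMod p), Nat.card_zmod]
    rw [← h1, hU]
    exact (Nat.card_congr (V.toAddSubgroup.equivMapOfInjective _
      (ptor Γ p).subtype_injective).toEquiv).symm
  have htor : ∀ u ∈ U, p • u = 0 := by
    intro u hu
    rw [hU] at hu
    obtain ⟨x, _, rfl⟩ := hu
    exact mem_ptor.1 x.2
  have h1 := hlam U _ hV htor hcard
  have h2 : B.card ≤ {i | p ^ (e - 1) • a i ∈ U}.ncard := by
    rw [← Set.ncard_coe_finset]
    apply Set.ncard_le_ncard _ (Set.toFinite _)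
    intro i hi
    show p ^ (e - 1) • a i ∈ U
    rw [← hσ, hU]
    exact ⟨σ i, hB i hi, rfl⟩
  have h3 : (B.card : ℝ) ≤ ({i | p ^ (e - 1) • a i ∈ U}.ncard : ℝ) := by exact_mod_cast h2
  linarith

/-- The graph with the edges `x, π i x`, where `π i` adds `a i` to the value of `f`, and the `a i`
have order `p ^ e`. -/
theorem layer_ldl [Finite Γ] [Finite W] {p e k : ℕ} (hp : p.Prime) (hpo : Odd p) (he : 1 ≤ e)
    (hk : 1 ≤ k) (f : W → Γ) (π : Fin k → Equiv.Perm W) (a : Fin k → Γ)
    (hord : ∀ i, addOrderOf (a i) = p ^ e) (hf : ∀ i x, f (π i x) = f x + a i) (lam : ℝ)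
    (hlam : ∀ (U : AddSubgroup Γ) (r : ℕ), 1 ≤ r → (∀ u ∈ U, p • u = 0) → Nat.card U = p ^ r →
      2 * ({i | p ^ (e - 1) • a i ∈ U}.ncard : ℝ) + 2 * ((r : ℝ) - 1) ^ 2 * ((p : ℝ) ^ e - 1) ≤
        lam * ((p : ℝ) ^ e) ^ r)
    (G : SimpleGraph W) (hG : ∀ x y, G.Adj x y ↔ ∃ i, y = π i x ∨ x = π i y) :
    LDL G k lam := by
  classical
  have hfact : Fact p.Prime := ⟨hp⟩
  have hp3 : 3 ≤ p := by
    have := hp.two_le
    obtain ⟨k, hk⟩ := hpo
    omega
  have hN3 : 3 ≤ p ^ e := hp3.trans (Nat.le_self_pow (by omega) p)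
  have hNodd : Odd (p ^ e) := hpo.pow
  have hpe : p ^ e = p ^ (e - 1) * p := by
    rw [← pow_succ]
    congr 1
    omega
  have hN0 : ∀ i, p ^ e • a i = 0 := fun i => by
    rw [← hord i]
    exact addOrderOf_nsmul_eq_zero (a i)
  have hs0 : ∀ i, p ^ (e - 1) • a i ≠ 0 := by
    intro i h0
    have h1 := addOrderOf_dvd_of_nsmul_eq_zero h0
    rw [hord i] at h1
    have h2 := Nat.le_of_dvd (pow_pos hp.pos _) h1
    have h3 : p ^ (e - 1) < p ^ e := Nat.pow_lt_pow_right (by omega) (by omega)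
    omega
  -- the images in the p-torsion
  obtain ⟨σ, hσ⟩ : ∃ σ : Fin k → ptor Γ p, ∀ i, (σ i : Γ) = p ^ (e - 1) • a i :=
    ⟨fun i => ⟨p ^ (e - 1) • a i, by
      rw [mem_ptor, smul_smul, mul_comm, ← hpe]
      exact hN0 i⟩, fun i => rfl⟩
  have hσ0 : ∀ i, σ i ≠ 0 := by
    intro i h
    apply hs0 i
    rw [← hσ, h]
    rfl
  have hfin : FiniteDimensional (ZMod p) (ptor Γ p) := inferInstance
  have hrank : ∀ T : Finset (Fin k), T.Nonempty →
      1 ≤ finrank (ZMod p) ↥(Submodule.span (ZMod p) (σ '' (T : Set (Fin k)))) := by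
    rintro T ⟨i, hi⟩
    rw [Nat.one_le_iff_ne_zero, ← Nat.pos_iff_ne_zero, Module.finrank_pos_iff]
    refine ⟨⟨⟨σ i, Submodule.subset_span ⟨i, hi, rfl⟩⟩, 0, ?_⟩⟩
    intro h
    exact hσ0 i (congrArg Subtype.val h)
  have hcnt := sub_count' (e := e) hp a lam hlam σ hσ
  obtain ⟨i0⟩ : Nonempty (Fin k) := ⟨⟨0, hk⟩⟩
  -- the number of classes
  have hex : ∃ l : ℕ, 0 < l ∧ ∀ T : Finset (Fin k),
      T.card ≤ l * finrank (ZMod p) ↥(Submodule.span (ZMod p) (σ '' (T : Set (Fin k)))) := by
    refine ⟨k, hk, fun T => ?_⟩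
    rcases T.eq_empty_or_nonempty with rfl | hT
    · simp
    · have h1 := hrank T hT
      have h2 : T.card ≤ k := by
        have := card_le_univ T
        rwa [Fintype.card_fin] at this
      calc T.card ≤ k * 1 := by omega
        _ ≤ _ := Nat.mul_le_mul_left _ h1
  obtain ⟨l, hl⟩ : ∃ l, l = Nat.find hex := ⟨_, rfl⟩
  obtain ⟨hl0, hlT⟩ := Nat.find_spec hex
  rw [← hl] at hl0 hlT
  obtain ⟨T, hTne, hTcard⟩ : ∃ T : Finset (Fin k), T.Nonempty ∧
      (l - 1) * finrank (ZMod p) ↥(Submodule.span (ZMod p) (σ '' (T : Set (Fin k)))) + 1 ≤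
        T.card := by
    by_cases hl1 : l = 1
    · refine ⟨{i0}, singleton_nonempty _, ?_⟩
      rw [hl1, card_singleton]
      omega
    · have h1 := Nat.find_min hex (m := l - 1) (by omega)
      rw [not_and] at h1
      have h2 := h1 (by omega)
      push Not at h2
      obtain ⟨T, hT⟩ := h2
      refine ⟨T, ?_, hT⟩
      rw [← card_pos]
      omega
  -- the classes
  obtain ⟨c, hc, heq⟩ := equitable_fam σ hl0 hlT
  have hsum : ∑ t, (univ.filter fun i => c i = t).card = k := by
    have h := card_eq_sum_card_fiberwise (s := (univ : Finset (Fin k))) (f := c)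
      (t := (univ : Finset (Fin l))) (fun _ _ => mem_coe.2 (mem_univ _))
    rw [card_univ, Fintype.card_fin] at h
    exact h.symm
  have hline : 2 ≤ lam * ((p ^ e : ℕ) : ℝ) := by
    have h1 := hcnt (Submodule.span (ZMod p) {σ i0}) (by
      rw [finrank_span_singleton (hσ0 _)]) {i0} (by
      intro b hb
      rw [mem_singleton.1 hb]
      exact Submodule.mem_span_singleton_self _)
    rw [finrank_span_singleton (hσ0 _), card_singleton] at h1
    push_cast at h1 ⊢
    simp only [mul_one, sub_self, ne_eq, OfNat.ofNat_ne_zero, not_false_eq_true, zero_pow,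
      mul_zero, zero_mul, add_zero, pow_one] at h1
    exact h1
  have hload : ∑ t, gl (p ^ e) (univ.filter fun i => c i = t).card ≤ lam := by
    have h1 := hcnt (Submodule.span (ZMod p) (σ '' (T : Set (Fin k)))) (hrank T hTne)
      (univ.filter fun i => σ i ∈ Submodule.span (ZMod p) (σ '' (T : Set (Fin k))))
      (fun i hi => (mem_filter.1 hi).2)
    have hTle : T.card ≤ (univ.filter fun i =>
        σ i ∈ Submodule.span (ZMod p) (σ '' (T : Set (Fin k)))).card := by
      apply card_le_card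
      intro i hi
      rw [mem_filter]
      exact ⟨mem_univ _, Submodule.subset_span ⟨i, hi, rfl⟩⟩
    refine part_load (k := k) hN3 hNodd hl0 _ hsum heq lam hline
      (w := (univ.filter fun i => σ i ∈ Submodule.span (ZMod p) (σ '' (T : Set (Fin k)))).card)
      (r := finrank (ZMod p) ↥(Submodule.span (ZMod p) (σ '' (T : Set (Fin k)))))
      (hrank T hTne) ?_ (hTcard.trans hTle) ?_
    · have := card_le_univ (univ.filter fun i =>
        σ i ∈ Submodule.span (ZMod p) (σ '' (T : Set (Fin k))))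
      rwa [Fintype.card_fin] at this
    · push_cast
      exact h1
  have hane : ∀ i, a i ≠ 0 := by
    intro i h
    apply hs0 i
    rw [h, smul_zero]
  -- the decomposition
  have hclass : ∀ t : Fin l, ∃ Gt : SimpleGraph W,
      (∀ x y, Gt.Adj x y ↔ ∃ i, c i = t ∧ (y = π i x ∨ x = π i y)) ∧
      LDL Gt (univ.filter fun i => c i = t).card
        (gl (p ^ e) (univ.filter fun i => c i = t).card) := by
    intro t
    obtain ⟨Gt, hGt⟩ : ∃ Gt : SimpleGraph W,
        ∀ x y, Gt.Adj x y ↔ ∃ i, c i = t ∧ (y = π i x ∨ x = π i y) := by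
      refine ⟨{ Adj := fun x y => ∃ i, c i = t ∧ (y = π i x ∨ x = π i y)
                symm := ⟨?_⟩
                loopless := ⟨?_⟩ }, fun x y => Iff.rfl⟩
      · rintro x y ⟨i, hi, h1⟩
        exact ⟨i, hi, h1.symm⟩
      · rintro x ⟨i, _, h1⟩
        have h2 : x = π i x := by rcases h1 with h1 | h1 <;> exact h1
        have h3 := hf i x
        rw [← h2] at h3
        exact hane i (left_eq_add.1 h3)
    refine ⟨Gt, hGt, ?_⟩
    rcases Nat.eq_zero_or_pos (univ.filter fun i => c i = t).card with h0 | hpos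
    · rw [h0]
      refine ⟨Empty, inferInstance, fun x => x.elim, rfl, fun x => x.elim, fun v => ?_, ?_⟩
      · simp [gl]
      · ext x y
        rw [iSup_adj, hGt]
        constructor
        · rintro ⟨i, hi, _⟩
          exact absurd (mem_filter.2 ⟨mem_univ i, hi⟩) (by
            rw [card_eq_zero.1 h0]
            exact notMem_empty _)
        · rintro ⟨x, _⟩
          exact x.elim
    · obtain ⟨m, hm⟩ : ∃ m, m = (univ.filter fun i => c i = t).card := ⟨_, rfl⟩
      have eq : Fin m ≃ (univ.filter fun i => c i = t : Finset (Fin k)) := by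
        rw [hm]
        exact (Finset.equivFin _).symm
      have hli := li_of_card (F := ZMod p) (hc t) eq
      rw [← hm]
      have ht : ∀ i, p ^ e • a (eq i : Fin k) = 0 := fun i => hN0 _
      have hinj := comb_inj hp he (fun i => a (eq i : Fin k)) ht (fun i => σ (eq i))
        (fun i => hσ _) hli
      obtain ⟨Xt, hXt⟩ : ∃ Xt : SimpleGraph Γ, ∀ g h, Xt.Adj g h ↔
          ∃ i : Fin m, (h = g + a (eq i : Fin k) ∨ g = h + a (eq i : Fin k)) := by
        refine ⟨{ Adj := fun g h => ∃ i : Fin m, (h = g + a (eq i : Fin k) ∨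
                    g = h + a (eq i : Fin k))
                  symm := ⟨?_⟩
                  loopless := ⟨?_⟩ }, fun x y => Iff.rfl⟩
        · rintro x y ⟨i, h1⟩
          exact ⟨i, h1.symm⟩
        · rintro g ⟨i, h1⟩
          have h2 : a (eq i : Fin k) = 0 := by
            rcases h1 with h1 | h1 <;> exact (left_eq_add.1 h1)
          exact hane _ h2
      have hldl := ind_ldl hN3 hNodd (by omega) (fun i => a (eq i : Fin k)) ht hinj Xt hXt
      -- labels and signs
      have hnz : NeZero (p ^ e) := ⟨by omega⟩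
      have h11 : (1 : ZMod (p ^ e)) ≠ 0 := by
        intro h
        have h2 : ((1 : ℕ) : ZMod (p ^ e)) = 0 := by exact_mod_cast h
        rw [ZMod.natCast_eq_zero_iff] at h2
        have := Nat.le_of_dvd one_pos h2
        omega
      have h12 : (1 : ZMod (p ^ e)) ≠ -1 := by
        intro h
        have h2 : ((2 : ℕ) : ZMod (p ^ e)) = 0 := by
          have h3 : (1 : ZMod (p ^ e)) + 1 = 0 := by
            nth_rw 2 [h]
            exact add_neg_cancel 1
          rw [← h3]
          norm_num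
        rw [ZMod.natCast_eq_zero_iff] at h2
        have := Nat.le_of_dvd two_pos h2
        omega
      have hsingle : ∀ (i j : Fin m) (u v : ZMod (p ^ e)), u ≠ 0 →
          (Pi.single i u : Fin m → ZMod (p ^ e)) = Pi.single j v → i = j ∧ u = v := by
        intro i j u v hu h
        have h1 := congrFun h i
        rw [Pi.single_eq_same] at h1
        by_cases hij : i = j
        · subst hij
          rw [Pi.single_eq_same] at h1
          exact ⟨rfl, h1⟩
        · rw [Pi.single_eq_of_ne hij] at h1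
          exact absurd h1 hu
      have hcs : ∀ i : Fin m, comb (fun i => a (eq i : Fin k)) ht (Pi.single i 1) =
          a (eq i : Fin k) := fun i => comb_single _ ht i
      have hcs' : ∀ i : Fin m, comb (fun i => a (eq i : Fin k)) ht (Pi.single i (-1)) =
          - a (eq i : Fin k) := fun i => by
        rw [Pi.single_neg, map_neg, hcs]
      -- the value of f at a neighbour
      have hstep : ∀ x y, Gt.Adj x y → ∃ i : Fin m,
          (y = π (eq i : Fin k) x ∧
            f y - f x = comb (fun i => a (eq i : Fin k)) ht (Pi.single i 1)) ∨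
          (x = π (eq i : Fin k) y ∧
            f y - f x = comb (fun i => a (eq i : Fin k)) ht (Pi.single i (-1))) := by
        intro x y hxy
        obtain ⟨i, hi, h1⟩ := (hGt x y).1 hxy
        refine ⟨eq.symm ⟨i, mem_filter.2 ⟨mem_univ i, hi⟩⟩, ?_⟩
        rw [hcs, hcs', Equiv.apply_symm_apply]
        rcases h1 with h1 | h1
        · left
          refine ⟨h1, ?_⟩
          rw [h1, hf]
          show f x + a i - f x = a i
          abel
        · right
          refine ⟨h1, ?_⟩
          have h2 := hf i y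
          rw [← h1] at h2
          rw [h2]
          show f y - (f y + a i) = - a i
          abel
      refine hldl.pull Gt f ?_ ?_ ?_
      · intro x y hxy
        obtain ⟨i, hi, h1⟩ := (hGt x y).1 hxy
        rw [hXt]
        refine ⟨eq.symm ⟨i, mem_filter.2 ⟨mem_univ i, hi⟩⟩, ?_⟩
        rw [Equiv.apply_symm_apply]
        rcases h1 with h1 | h1
        · left; rw [h1, hf]
        · right; rw [h1, hf]
      · intro x y y' h1 h2 h3
        obtain ⟨i, hi⟩ := hstep x y h1
        obtain ⟨j, hj⟩ := hstep x y' h2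
        rw [h3] at hi
        rcases hi with ⟨hi1, hi2⟩ | ⟨hi1, hi2⟩ <;> rcases hj with ⟨hj1, hj2⟩ | ⟨hj1, hj2⟩
        · obtain ⟨hij, _⟩ := hsingle i j 1 1 h11 (hinj (hi2.symm.trans hj2))
          rw [hi1, hj1, hij]
        · obtain ⟨_, h4⟩ := hsingle i j 1 (-1) h11 (hinj (hi2.symm.trans hj2))
          exact absurd h4 h12
        · obtain ⟨_, h4⟩ := hsingle i j (-1) 1 (neg_ne_zero.2 h11) (hinj (hi2.symm.trans hj2))
          exact absurd h4.symm h12
        · obtain ⟨hij, _⟩ := hsingle i j (-1) (-1) (neg_ne_zero.2 h11)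
            (hinj (hi2.symm.trans hj2))
          rw [hi1, hij] at hj1
          exact (π (eq j : Fin k)).injective hj1
      · intro x b hb
        obtain ⟨i, h1⟩ := (hXt _ _).1 hb
        rcases h1 with h1 | h1
        · refine ⟨π (eq i : Fin k) x, (hGt _ _).2 ⟨(eq i : Fin k), (mem_filter.1 (eq i).2).2,
            Or.inl rfl⟩, ?_⟩
          rw [hf, h1]
        · refine ⟨(π (eq i : Fin k)).symm x, (hGt _ _).2 ⟨(eq i : Fin k),
            (mem_filter.1 (eq i).2).2, Or.inr ?_⟩, ?_⟩
          · rw [Equiv.apply_symm_apply]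
          · have h2 := hf (eq i : Fin k) ((π (eq i : Fin k)).symm x)
            rw [Equiv.apply_symm_apply, h1] at h2
            exact (add_right_cancel h2).symm
  choose Gt hGt1 hGt2 using hclass
  have hGeq : G = ⨆ t, Gt t := by
    ext x y
    rw [iSup_adj, hG]
    constructor
    · rintro ⟨i, hi⟩
      exact ⟨c i, (hGt1 _ _ _).2 ⟨i, rfl, hi⟩⟩
    · rintro ⟨t, ht⟩
      obtain ⟨i, _, hi⟩ := (hGt1 _ _ _).1 ht
      exact ⟨i, hi⟩
  have h1 := (LDL.iSup Gt _ _ hGt2).mono hload
  rw [← hGeq, hsum] at h1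
  exact h1

end layer

end Pool.Agent.T9h44.LA
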