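import Pool.Agent.T9h44.LA.Load

set_option autoImplicit false

/-!
# The load of an equitable partition, with some elements outside the span of a critical set
-/

namespace Pool.Agent.T9h44.LA

open Finset

theorem part_load2 {N k l : ℕ} (hN : 3 ≤ N) (hl : 0 < l) (m : Fin l → ℕ)
    (hsum : ∑ i, m i = k) (heq : ∀ i j, m i ≤ m j + 1) (lam : ℝ) (h2 : 2 ≤ lam * N)
    {w r : ℕ} (hr : 1 ≤ r) (hwk : w + r < k) (hw : (l - 1) * r + 1 ≤ w)
    (hlam : 2 * (w : ℝ) ≤ lam * (N : ℝ) ^ r) :
    ∑ i, gl N (m i) ≤ lam := by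
  have hN' : (3 : ℝ) ≤ N := by exact_mod_cast hN
  have hN0 : (0 : ℝ) < N := by linarith
  have hr' : (1 : ℝ) ≤ r := by exact_mod_cast hr
  have hlam1 : gl N 1 ≤ lam := by
    unfold gl
    rw [pow_one, div_le_iff₀ hN0]
    push_cast
    linarith
  -- the smallest class
  obtain ⟨i0, _, hi0⟩ := Finset.exists_min_image (Finset.univ : Finset (Fin l)) m
    ⟨⟨0, hl⟩, Finset.mem_univ _⟩
  obtain ⟨x, hx⟩ : ∃ x, x = m i0 := ⟨_, rfl⟩
  have hmin : ∀ i, x ≤ m i := fun i => by rw [hx]; exact hi0 i (Finset.mem_univ _)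
  have hmax : ∀ i, m i ≤ x + 1 := fun i => by rw [hx]; exact heq i i0
  have hkx : k + 1 ≤ l * x + l := by
    have h3 : ∑ i, m i < ∑ _i : Fin l, (x + 1) :=
      Finset.sum_lt_sum (fun i _ => hmax i) ⟨i0, Finset.mem_univ _, by omega⟩
    rw [hsum, Finset.sum_const, Finset.card_univ, Fintype.card_fin, smul_eq_mul] at h3
    have : l * (x + 1) = l * x + l := by ring
    omega
  have hlk : l * r + 2 ≤ k := by
    obtain ⟨l', rfl⟩ : ∃ l', l = l' + 1 := ⟨l - 1, by omega⟩
    rw [Nat.add_sub_cancel] at hw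
    have : (l' + 1) * r = l' * r + r := by ring
    omega
  have hrx : r ≤ x := by
    by_contra hcon
    have h3 : l * x + l ≤ l * r := by
      have : l * (x + 1) ≤ l * r := Nat.mul_le_mul_left _ (by omega)
      have h4 : l * (x + 1) = l * x + l := by ring
      omega
    omega
  have hle : ∀ y, 1 ≤ y → y ≤ x → ∑ i, gl N (m i) ≤ l * gl N y := by
    intro y hy1 hy
    calc ∑ i, gl N (m i) ≤ ∑ _i : Fin l, gl N y :=
          Finset.sum_le_sum fun i _ => gl_anti hN hy1 (hy.trans (hmin i))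
      _ = l * gl N y := by rw [Finset.sum_const, Finset.card_univ, Fintype.card_fin, nsmul_eq_mul]
  by_cases hl1 : l = 1
  · have h3 := hle 1 le_rfl (by omega)
    have h4 : (l : ℝ) = 1 := by rw [hl1, Nat.cast_one]
    rw [h4, one_mul] at h3
    exact h3.trans hlam1
  have hl2 : 2 ≤ l := by omega
  have hNr : (0 : ℝ) < (N : ℝ) ^ r := by positivity
  have hlr0 : l * r + 1 ≤ w + r := by
    obtain ⟨l', rfl⟩ : ∃ l', l = l' + 1 := ⟨l - 1, by omega⟩
    rw [Nat.add_sub_cancel] at hw
    have : (l' + 1) * r = l' * r + r := by ring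
    omega
  have hlr : (l : ℝ) * r ≤ w + r - 1 := by
    have h4 : ((l * r + 1 : ℕ) : ℝ) ≤ ((w + r : ℕ) : ℝ) := by exact_mod_cast hlr0
    push_cast at h4
    linarith
  by_cases hxr : r + 1 ≤ x
  · refine (hle (r + 1) (by omega) hxr).trans ?_
    unfold gl
    rw [← mul_div_assoc, div_le_iff₀ (by positivity), pow_succ]
    push_cast
    have h3 : l * (r + 1) ≤ w * N := by
      have h4 : r + 1 ≤ w := by
        have : 1 * r ≤ (l - 1) * r := Nat.mul_le_mul_right _ (by omega)
        omega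
      have h5 : l ≤ w := by
        have : (l - 1) * 1 ≤ (l - 1) * r := Nat.mul_le_mul_left _ hr
        omega
      have h6 : w * 3 ≤ w * N := Nat.mul_le_mul_left _ hN
      have h7 : l * (r + 1) = l * r + l := by ring
      omega
    have h4 : ((l : ℝ) * (r + 1)) ≤ w * N := by exact_mod_cast h3
    calc (l : ℝ) * (2 * (r + 1)) = 2 * (l * (r + 1)) := by ring
      _ ≤ 2 * (w * N) := by linarith
      _ = (2 * w) * N := by ring
      _ ≤ (lam * (N : ℝ) ^ r) * N := mul_le_mul_of_nonneg_right hlam hN0.le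
      _ = lam * ((N : ℝ) ^ r * N) := by ring
  · have hxe : x = r := by omega
    have h3 : ∀ i, gl N (m i) = gl N r - ((m i : ℝ) - r) * (gl N r - gl N (r + 1)) := by
      intro i
      have h4 := hmin i
      have h5 := hmax i
      have h6 : m i = r ∨ m i = r + 1 := by omega
      rcases h6 with h6 | h6
      · rw [h6]
        ring
      · rw [h6]
        push_cast
        ring
    rw [Finset.sum_congr rfl (fun i _ => h3 i), Finset.sum_sub_distrib, ← Finset.sum_mul,
      Finset.sum_sub_distrib]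
    have h4 : ∑ i, ((m i : ℕ) : ℝ) = k := by
      rw [← hsum]
      push_cast
      rfl
    rw [h4]
    simp only [Finset.sum_const, Finset.card_univ, Fintype.card_fin, nsmul_eq_mul]
    have h5 : (2 : ℝ) ≤ k - l * r := by
      have : ((l * r + 2 : ℕ) : ℝ) ≤ (k : ℝ) := by exact_mod_cast hlk
      push_cast at this
      linarith
    have h6 : 0 ≤ gl N r - gl N (r + 1) := sub_nonneg.2 (gl_succ hN hr)
    have h7 : (l : ℝ) * gl N r - (k - l * r) * (gl N r - gl N (r + 1)) ≤
        l * gl N r - 2 * (gl N r - gl N (r + 1)) := by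
      have := mul_le_mul_of_nonneg_right h5 h6
      linarith
    refine h7.trans ?_
    have h8 : gl N r = 2 * r / (N : ℝ) ^ r := rfl
    have h9 : gl N (r + 1) = (2 * (r + 1) / N) / (N : ℝ) ^ r := by
      unfold gl
      rw [pow_succ]
      push_cast
      field_simp
    rw [h8, h9]
    have h10 : (l : ℝ) * (2 * r / (N : ℝ) ^ r) -
        2 * (2 * r / (N : ℝ) ^ r - (2 * (r + 1) / N) / (N : ℝ) ^ r) =
        (2 * (l * r) - 4 * r + 2 * (2 * (r + 1) / N)) / (N : ℝ) ^ r := by
      field_simp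
      ring
    rw [h10, div_le_iff₀ hNr]
    have h11 : (2 : ℝ) * (r + 1) / N ≤ r + 1 := by
      rw [div_le_iff₀ hN0]
      nlinarith
    linarith

end Pool.Agent.T9h44.LA
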