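import Pool.Agent.T9h44.LA.Two

set_option autoImplicit false

/-!
# The product of two cycles
-/

namespace Pool.Agent.T9h44.LA

open SimpleGraph

/-- The cycle `ℤ/n`. -/
def cyc (n : ℕ) : SimpleGraph (ZMod n) := SimpleGraph.fromRel (fun u v => v = u + 1)

theorem cyc_adj {n : ℕ} (hn : 2 ≤ n) (u v : ZMod n) :
    (cyc n).Adj u v ↔ (v = u + 1 ∨ u = v + 1) := by
  unfold cyc
  rw [SimpleGraph.fromRel_adj]
  constructor
  · exact fun h => h.2
  · rintro (rfl | rfl)
    · exact ⟨(zmod_one_ne hn u).symm, Or.inl rfl⟩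
    · exact ⟨zmod_one_ne hn v, Or.inr rfl⟩

theorem reach_iter {V : Type} {F : SimpleGraph V} (g : ℕ → V) (n : ℕ)
    (h : ∀ k < n, F.Reachable (g k) (g (k + 1))) : F.Reachable (g 0) (g n) := by
  induction n with
  | zero => exact Reachable.refl _
  | succ n ih => exact (ih fun k hk => h k (by omega)).trans (h n (by omega))

section pair

variable {a b : ℕ} (φ : ZMod b →+* ZMod a)

/-- the first cycle -/
def p1 : SimpleGraph (ZMod a × ZMod b) :=
  slot (fun u => if u.1 + φ u.2 = -1 then (u.1 + 1, u.2) else (u.1, u.2 + 1))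
    (fun u => if u.1 + φ u.2 = 0 then (u.1 - 1, u.2) else (u.1, u.2 - 1))

/-- the second cycle -/
def p2 : SimpleGraph (ZMod a × ZMod b) :=
  slot (fun u => if u.1 + φ u.2 = -1 then (u.1, u.2 + 1) else (u.1 + 1, u.2))
    (fun u => if u.1 + φ u.2 = 0 then (u.1, u.2 - 1) else (u.1 - 1, u.2))

theorem sub_ne' {n : ℕ} (hn : 2 ≤ n) (u : ZMod n) : u - 1 ≠ u := by
  intro h
  apply zmod_one_ne hn (u - 1)
  rw [sub_add_cancel]
  exact h.symm

theorem eq_neg_one {n : ℕ} {s : ZMod n} (h : s + 1 = 0) : s = -1 := by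
  rw [eq_neg_iff_add_eq_zero]; exact h

theorem p1_slot (ha : 3 ≤ a) (hb : 3 ≤ b) :
    (∀ u v, (p1 φ).Adj u v ↔
      (v = (if u.1 + φ u.2 = -1 then (u.1 + 1, u.2) else (u.1, u.2 + 1)) ∨
        v = (if u.1 + φ u.2 = 0 then (u.1 - 1, u.2) else (u.1, u.2 - 1)))) ∧
      ∀ u, ((p1 φ).neighborSet u).ncard = 2 := by
  apply slot_nb
  · rintro ⟨x, y⟩
    simp only
    split_ifs with h
    · exact fun h' => zmod_one_ne (by omega) x (congrArg Prod.fst h')
    · exact fun h' => zmod_one_ne (by omega) y (congrArg Prod.snd h')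
  · rintro ⟨x, y⟩
    simp only
    split_ifs with h
    · exact fun h' => sub_ne' (by omega) x (congrArg Prod.fst h')
    · exact fun h' => sub_ne' (by omega) y (congrArg Prod.snd h')
  · rintro ⟨x, y⟩
    simp only
    split_ifs with h h'
    · exact fun h' => zmod_two_ne ha x (congrArg Prod.fst h')
    · exact fun h' => zmod_one_ne (by omega) x (congrArg Prod.fst h')
    · exact fun h' => zmod_one_ne (by omega) y (congrArg Prod.snd h')
    · exact fun h' => zmod_two_ne hb y (congrArg Prod.snd h')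
  · rintro ⟨x, y⟩
    right
    simp only
    by_cases h : x + φ y = -1
    · rw [if_pos h]
      have h1 : (x + 1) + φ y = 0 := by
        have : (x + 1) + φ y = (x + φ y) + 1 := by ring
        rw [this, h]; ring
      simp only [h1, if_true]
      rw [add_sub_cancel_right]
    · rw [if_neg h]
      have h1 : ¬ (x + φ (y + 1) = 0) := by
        intro h2
        apply h
        apply eq_neg_one
        rw [map_add, map_one, ← add_assoc] at h2
        exact h2
      simp only [h1, if_false]
      rw [add_sub_cancel_right]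
  · rintro ⟨x, y⟩
    left
    simp only
    by_cases h : x + φ y = 0
    · rw [if_pos h]
      have h1 : (x - 1) + φ y = -1 := by
        have : (x - 1) + φ y = (x + φ y) - 1 := by ring
        rw [this, h]; ring
      simp only [h1, if_true]
      rw [sub_add_cancel]
    · rw [if_neg h]
      have h1 : ¬ (x + φ (y - 1) = -1) := by
        intro h2
        apply h
        rw [map_sub, map_one] at h2
        have : x + φ y = (x + (φ y - 1)) + 1 := by ring
        rw [this, h2]; ring
      simp only [h1, if_false]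
      rw [sub_add_cancel]

theorem p2_slot (ha : 3 ≤ a) (hb : 3 ≤ b) :
    (∀ u v, (p2 φ).Adj u v ↔
      (v = (if u.1 + φ u.2 = -1 then (u.1, u.2 + 1) else (u.1 + 1, u.2)) ∨
        v = (if u.1 + φ u.2 = 0 then (u.1, u.2 - 1) else (u.1 - 1, u.2)))) ∧
      ∀ u, ((p2 φ).neighborSet u).ncard = 2 := by
  apply slot_nb
  · rintro ⟨x, y⟩
    simp only
    split_ifs with h
    · exact fun h' => zmod_one_ne (by omega) y (congrArg Prod.snd h')
    · exact fun h' => zmod_one_ne (by omega) x (congrArg Prod.fst h')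
  · rintro ⟨x, y⟩
    simp only
    split_ifs with h
    · exact fun h' => sub_ne' (by omega) y (congrArg Prod.snd h')
    · exact fun h' => sub_ne' (by omega) x (congrArg Prod.fst h')
  · rintro ⟨x, y⟩
    simp only
    split_ifs with h h'
    · exact fun h' => zmod_two_ne hb y (congrArg Prod.snd h')
    · exact fun h' => zmod_one_ne (by omega) y (congrArg Prod.snd h')
    · exact fun h' => zmod_one_ne (by omega) x (congrArg Prod.fst h')
    · exact fun h' => zmod_two_ne ha x (congrArg Prod.fst h')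
  · rintro ⟨x, y⟩
    right
    simp only
    by_cases h : x + φ y = -1
    · rw [if_pos h]
      have h1 : x + φ (y + 1) = 0 := by
        rw [map_add, map_one, ← add_assoc, h]; ring
      simp only [h1, if_true]
      rw [add_sub_cancel_right]
    · rw [if_neg h]
      have h1 : ¬ (x + 1 + φ y = 0) := by
        intro h2
        apply h
        apply eq_neg_one
        rw [← h2]; ring
      simp only [h1, if_false]
      rw [add_sub_cancel_right]
  · rintro ⟨x, y⟩
    left
    simp only
    by_cases h : x + φ y = 0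
    · rw [if_pos h]
      have h1 : x + φ (y - 1) = -1 := by
        rw [map_sub, map_one]
        have : x + (φ y - 1) = (x + φ y) - 1 := by ring
        rw [this, h]; ring
      simp only [h1, if_true]
      rw [sub_add_cancel]
    · rw [if_neg h]
      have h1 : ¬ (x - 1 + φ y = -1) := by
        intro h2
        apply h
        have : x + φ y = (x - 1 + φ y) + 1 := by ring
        rw [this, h2]; ring
      simp only [h1, if_false]
      rw [sub_add_cancel]

theorem natCast_ne_zero_of_lt {n k : ℕ} (h0 : 0 < k) (hk : k < n) : ((k : ℕ) : ZMod n) ≠ 0 := by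
  intro h
  rw [ZMod.natCast_eq_zero_iff] at h
  have := Nat.le_of_dvd h0 h
  omega

theorem p1_hc (ha : 3 ≤ a) (hb : 3 ≤ b) (hco : Nat.Coprime (a - 1) b) : HC (p1 φ) := by
  obtain ⟨hadj, hdeg⟩ := p1_slot φ ha hb
  refine ⟨?_, hdeg⟩
  have hnz : NeZero a := ⟨by omega⟩
  have hnzb : NeZero b := ⟨by omega⟩
  have step2 : ∀ x y, x + φ y ≠ -1 → (p1 φ).Adj (x, y) (x, y + 1) := by
    intro x y h
    rw [hadj]
    left
    simp only [h, if_false]
  have step1 : ∀ x y, x + φ y = -1 → (p1 φ).Adj (x, y) (x + 1, y) := by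
    intro x y h
    rw [hadj]
    left
    simp only [h, if_true]
  have hac : ((a : ℕ) : ZMod a) = 0 := ZMod.natCast_self a
  -- along the second coordinate
  have run : ∀ (x : ZMod a) (y : ZMod b) (k : ℕ), k < a → x + φ y = 0 →
      (p1 φ).Reachable (x, y) (x, y + k) := by
    intro x y k hk h
    have := reach_iter (F := p1 φ) (fun j => (x, y + j)) k (by
      intro j hj
      apply Adj.reachable
      have h1 := step2 x (y + j) (by
        rw [map_add, ← add_assoc, h, zero_add, map_natCast]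
        intro h2
        have h3 : (((j + 1 : ℕ)) : ZMod a) = 0 := by
          push_cast
          rw [h2]; ring
        exact natCast_ne_zero_of_lt (by omega) (by omega) h3)
      push_cast
      rw [← add_assoc]
      exact h1)
    simpa using this
  have toz : ∀ u : ZMod a × ZMod b, ∃ y : ZMod b, (p1 φ).Reachable (-φ y, y) u := by
    rintro ⟨x, y⟩
    obtain ⟨k, hk⟩ : ∃ k : ℕ, k = (x + φ y).val := ⟨_, rfl⟩
    refine ⟨y - k, ?_⟩
    have h0 : x + φ (y - k) = 0 := by
      rw [map_sub, map_natCast, hk, ZMod.natCast_zmod_val]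
      ring
    have h1 := run x (y - k) k (by rw [hk]; exact ZMod.val_lt _) h0
    rw [sub_add_cancel] at h1
    have h2 : -φ (y - k) = x := by
      rw [neg_eq_iff_add_eq_zero, add_comm]; exact h0
    rw [h2]
    exact h1
  have zz : ∀ y : ZMod b, (p1 φ).Reachable (-φ y, y) (-φ (y + ((a - 1 : ℕ) : ZMod b)),
      y + ((a - 1 : ℕ) : ZMod b)) := by
    intro y
    have h0 : -φ y + φ y = 0 := by ring
    have h1 := run (-φ y) y (a - 1) (by omega) h0
    have h3 : φ ((a - 1 : ℕ) : ZMod b) = -1 := by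
      rw [map_natCast, Nat.cast_sub (by omega), hac]
      push_cast
      ring
    have h2 := (step1 (-φ y) (y + ((a - 1 : ℕ) : ZMod b)) (by
      rw [map_add, h3]; ring)).reachable
    have h4 : -φ y + 1 = -φ (y + ((a - 1 : ℕ) : ZMod b)) := by
      rw [map_add, h3]; ring
    rw [h4] at h2
    exact h1.trans h2
  have zall : ∀ y : ZMod b, (p1 φ).Reachable (-φ 0, 0) (-φ y, y) := by
    intro y
    obtain ⟨k, hk⟩ : ∃ k : ℕ, (k : ZMod b) * ((a - 1 : ℕ) : ZMod b) = y := by
      obtain ⟨u, hu⟩ := (ZMod.isUnit_iff_coprime (a - 1) b).2 hco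
      refine ⟨(y * (u⁻¹ : (ZMod b)ˣ)).val, ?_⟩
      rw [ZMod.natCast_zmod_val, ← hu, mul_assoc, Units.inv_mul, mul_one]
    have := reach_iter (F := p1 φ) (fun j : ℕ => (-φ (((j : ℕ) : ZMod b) * ((a - 1 : ℕ) : ZMod b)),
      ((j : ℕ) : ZMod b) * ((a - 1 : ℕ) : ZMod b))) k (by
      intro j _
      have h1 := zz (((j : ℕ) : ZMod b) * ((a - 1 : ℕ) : ZMod b))
      have h2 : ((j : ℕ) : ZMod b) * ((a - 1 : ℕ) : ZMod b) + ((a - 1 : ℕ) : ZMod b) =
          ((j + 1 : ℕ) : ZMod b) * ((a - 1 : ℕ) : ZMod b) := by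
        push_cast
        ring
      rw [h2] at h1
      exact h1)
    rw [← hk]
    simpa using this
  rw [connected_iff]
  refine ⟨?_, ⟨(0, 0)⟩⟩
  intro u v
  obtain ⟨y, hy⟩ := toz u
  obtain ⟨z, hz⟩ := toz v
  exact hy.symm.trans ((zall y).symm.trans ((zall z).trans hz))

theorem p2_hc (ha : 3 ≤ a) (hb : 3 ≤ b) : HC (p2 φ) := by
  obtain ⟨hadj, hdeg⟩ := p2_slot φ ha hb
  refine ⟨?_, hdeg⟩
  have hnz : NeZero a := ⟨by omega⟩
  have hnzb : NeZero b := ⟨by omega⟩
  have step1 : ∀ x y, x + φ y ≠ -1 → (p2 φ).Adj (x, y) (x + 1, y) := by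
    intro x y h
    rw [hadj]
    left
    simp only [h, if_false]
  have step2 : ∀ x y, x + φ y = -1 → (p2 φ).Adj (x, y) (x, y + 1) := by
    intro x y h
    rw [hadj]
    left
    simp only [h, if_true]
  have hac : ((a : ℕ) : ZMod a) = 0 := ZMod.natCast_self a
  have run : ∀ (x : ZMod a) (y : ZMod b) (k : ℕ), k < a → x + φ y = 0 →
      (p2 φ).Reachable (x, y) (x + k, y) := by
    intro x y k hk h
    have := reach_iter (F := p2 φ) (fun j => (x + j, y)) k (by
      intro j hj
      apply Adj.reachable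
      have h1 := step1 (x + j) y (by
        have h4 : x + (j : ZMod a) + φ y = (x + φ y) + j := by ring
        rw [h4, h, zero_add]
        intro h2
        have h3 : (((j + 1 : ℕ)) : ZMod a) = 0 := by
          push_cast
          rw [h2]; ring
        exact natCast_ne_zero_of_lt (by omega) (by omega) h3)
      push_cast
      rw [← add_assoc]
      exact h1)
    simpa using this
  have toz : ∀ u : ZMod a × ZMod b, ∃ y : ZMod b, (p2 φ).Reachable (-φ y, y) u := by
    rintro ⟨x, y⟩
    obtain ⟨k, hk⟩ : ∃ k : ℕ, k = (x + φ y).val := ⟨_, rfl⟩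
    refine ⟨y, ?_⟩
    have h0 : -φ y + φ y = 0 := by ring
    have h1 := run (-φ y) y k (by rw [hk]; exact ZMod.val_lt _) h0
    have h2 : -φ y + (k : ZMod a) = x := by
      rw [hk, ZMod.natCast_zmod_val]
      ring
    rw [h2] at h1
    exact h1
  have zz : ∀ y : ZMod b, (p2 φ).Reachable (-φ y, y) (-φ (y + 1), y + 1) := by
    intro y
    have h0 : -φ y + φ y = 0 := by ring
    have h1 := run (-φ y) y (a - 1) (by omega) h0
    have h3 : ((a - 1 : ℕ) : ZMod a) = -1 := by
      rw [Nat.cast_sub (by omega), hac]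
      push_cast
      ring
    rw [h3] at h1
    have h2 := (step2 (-φ y + -1) y (by ring)).reachable
    have h4 : -φ y + -1 = -φ (y + 1) := by
      rw [map_add, map_one]; ring
    rw [h4] at h1 h2
    exact h1.trans h2
  have zall : ∀ y : ZMod b, (p2 φ).Reachable (-φ 0, 0) (-φ y, y) := by
    intro y
    have := reach_iter (F := p2 φ) (fun j : ℕ => (-φ ((j : ℕ) : ZMod b), ((j : ℕ) : ZMod b)))
      y.val (by
      intro j _
      have h1 := zz ((j : ℕ) : ZMod b)
      push_cast
      exact h1)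
    rw [ZMod.natCast_zmod_val] at this
    simpa using this
  rw [connected_iff]
  refine ⟨?_, ⟨(0, 0)⟩⟩
  intro u v
  obtain ⟨y, hy⟩ := toz u
  obtain ⟨z, hz⟩ := toz v
  exact hy.symm.trans ((zall y).symm.trans ((zall z).trans hz))

theorem pair_union (ha : 3 ≤ a) (hb : 3 ≤ b) : (cyc a).boxProd (cyc b) = p1 φ ⊔ p2 φ := by
  obtain ⟨h1, _⟩ := p1_slot φ ha hb
  obtain ⟨h2, _⟩ := p2_slot φ ha hb
  have key : ∀ u v : ZMod a × ZMod b, (p1 φ ⊔ p2 φ).Adj u v → ((cyc a).boxProd (cyc b)).Adj u v := by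
    rintro ⟨x, y⟩ ⟨x', y'⟩ h
    rw [boxProd_adj, cyc_adj (by omega), cyc_adj (by omega)]
    rw [sup_adj, h1, h2] at h
    simp only at h ⊢
    rcases h with (h | h) | (h | h) <;> split_ifs at h <;> rw [Prod.mk.injEq] at h <;>
      obtain ⟨rfl, rfl⟩ := h
    · exact Or.inl ⟨Or.inl rfl, rfl⟩
    · exact Or.inr ⟨Or.inl rfl, rfl⟩
    · exact Or.inl ⟨Or.inr (by ring), rfl⟩
    · exact Or.inr ⟨Or.inr (by ring), rfl⟩
    · exact Or.inr ⟨Or.inl rfl, rfl⟩
    · exact Or.inl ⟨Or.inl rfl, rfl⟩
    · exact Or.inr ⟨Or.inr (by ring), rfl⟩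
    · exact Or.inl ⟨Or.inr (by ring), rfl⟩
  have key1 : ∀ (x : ZMod a) (y : ZMod b), (p1 φ ⊔ p2 φ).Adj (x, y) (x + 1, y) := by
    intro x y
    rw [sup_adj, h1, h2]
    simp only
    by_cases h : x + φ y = -1
    · left; left
      rw [if_pos h]
    · right; left
      rw [if_neg h]
  have key2 : ∀ (x : ZMod a) (y : ZMod b), (p1 φ ⊔ p2 φ).Adj (x, y) (x, y + 1) := by
    intro x y
    rw [sup_adj, h1, h2]
    simp only
    by_cases h : x + φ y = -1
    · right; left
      rw [if_pos h]
    · left; left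
      rw [if_neg h]
  ext ⟨x, y⟩ ⟨x', y'⟩
  constructor
  · intro h
    rw [boxProd_adj, cyc_adj (by omega), cyc_adj (by omega)] at h
    simp only at h
    rcases h with ⟨h | h, h'⟩ | ⟨h | h, h'⟩
    · subst h h'
      exact key1 x y
    · subst h h'
      exact (key1 x' y).symm
    · subst h h'
      exact key2 x y
    · subst h h'
      exact (key2 x y').symm
  · exact key _ _

end pair

end Pool.Agent.T9h44.LA
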