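import Pool.Agent.T9h44.LA.Small

set_option autoImplicit false

/-!
# Hamilton decompositions of the powers of a cycle
-/

namespace Pool.Agent.T9h44.LA

open SimpleGraph

theorem co_pow {p : ℕ} (hp : 2 ≤ p) (i k : ℕ) (hi : 1 ≤ i) : Nat.Coprime (p ^ i - 1) (p ^ k) := by
  apply Nat.Coprime.pow_right
  rw [Nat.coprime_comm]
  have h1 : p ∣ p ^ i := dvd_pow_self p (by omega)
  have h2 : 1 ≤ p ^ i := Nat.one_le_pow _ _ (by omega)
  have h5 : Nat.gcd p (p ^ i - 1) ∣ 1 := by
    have h6 := (Nat.gcd_dvd_left p (p ^ i - 1)).trans h1
    have h7 := Nat.gcd_dvd_right p (p ^ i - 1)
    have h8 := Nat.dvd_sub h6 h7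
    have h4 : p ^ i - (p ^ i - 1) = 1 := by omega
    rwa [h4] at h8
  exact Nat.dvd_one.1 h5

/-- **Hamilton decompositions of the powers of a cycle of odd length.** -/
theorem tor_hd {p : ℕ} (hp : 3 ≤ p) (hodd : Odd p) :
    ∀ (n j : ℕ), j ≤ n → 1 ≤ j → HD (tor p j) j := by
  have hnz : NeZero p := ⟨by omega⟩
  intro n
  induction n with
  | zero =>
    intro j h1 h2
    omega
  | succ n ih =>
    intro j hj h1
    by_cases hj1 : j = 1
    · subst hj1
      have h2 := HC.map (Equiv.funUnique (Fin 1) (ZMod p)).symm (cyc_hc (n := p) (by omega))
      have h3 : tor p 1 = (cyc p).comap (Equiv.funUnique (Fin 1) (ZMod p)).symm.symm := by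
        ext x y
        rw [comap_adj, cyc_adj (by omega), tor_adj (by omega)]
        simp only [Equiv.symm_symm, Equiv.funUnique_apply]
        have key : ∀ x y : Fin 1 → ZMod p, y = x + Pi.single 0 1 ↔
            y default = x default + 1 := by
          intro x y
          constructor
          · rintro rfl
            simp
          · intro h
            funext i
            have hi : i = default := Subsingleton.elim _ _
            rw [hi, h]
            simp
        constructor
        · rintro ⟨i, hi⟩
          have hi0 : i = 0 := Subsingleton.elim _ _
          rw [hi0, key, key] at hi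
          exact hi
        · intro h
          refine ⟨0, ?_⟩
          rw [key, key]
          exact h
      rw [h3]
      exact HD.one h2
    · obtain ⟨i, hi⟩ : ∃ i, j = i + i ∨ j = i + (i + 1) := by
        rcases Nat.even_or_odd' j with ⟨i, hi | hi⟩
        · exact ⟨i, Or.inl (by omega)⟩
        · exact ⟨i, Or.inr (by omega)⟩
      rcases hi with hi | hi
      · have h2 := ih i (by omega) (by omega)
        have h3 := prod_even h2 h2 (by rfl) (by
          rw [card_tor]
          exact co_pow (by omega) i i (by omega))
        have h4 := h3.map (Fin.appendEquiv i i)
        rw [← tor_split (by omega)] at h4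
        rw [hi]
        exact h4
      · obtain ⟨m, rfl⟩ : ∃ m, i = m + 1 := ⟨i - 1, by omega⟩
        by_cases hsmall : p ^ (m + 1) < 7
        · -- `p ∈ {3, 5}` and `j = 3`
          have hm : m = 0 := by
            by_contra hm0
            have h2 : p ^ 2 ≤ p ^ (m + 1) := Nat.pow_le_pow_right (by omega) (by omega)
            have h3 : 3 ^ 2 ≤ p ^ 2 := Nat.pow_le_pow_left hp 2
            omega
          subst hm
          rw [zero_add, pow_one] at hsmall
          have h35 : p = 3 ∨ p = 5 := by
            obtain ⟨r, hr⟩ := hodd
            omega
          have hj3 : j = 3 := by omega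
          subst hj3
          rcases h35 with rfl | rfl
          · exact tor_three_three
          · exact tor_five_three
        · have h2 := ih (m + 1) (by omega) (by omega)
          have h2' := ih (m + 2) (by omega) (by omega)
          have h3 := prod_odd h2 h2' (by
              rw [card_tor, card_tor]
              exact pow_dvd_pow _ (by omega))
            (by
              rw [card_tor, card_tor]
              exact co_pow (by omega) _ _ (by omega))
            (by
              rw [card_tor]
              omega)
            (by
              rw [card_tor, card_tor, pow_succ p (m + 1), mul_comm]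
              exact Nat.mul_le_mul_left _ (by omega))
            (by
              rw [card_tor]
              exact hodd.pow)
            (by
              rw [card_tor]
              exact hodd.pow)
          have h4 := h3.map (Fin.appendEquiv (m + 1) (m + 2))
          rw [← tor_split (by omega)] at h4
          rw [hi]
          exact h4

end Pool.Agent.T9h44.LA
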