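import Pool.Agent.T9h44.LA.Torus

set_option autoImplicit false

/-!
# Hamilton decompositions of the third powers of the cycles of length three and five
-/

namespace Pool.Agent.T9h44.LA

open SimpleGraph

/-- direction of the `k`-th cycle at the vertex `(i, j, l)` of the third power of the directed cycle
of length `m` -/
def dir (m k i j l : ℕ) : ℕ :=
  if (i + j + l) % m = 0 then (if j = m - 1 then k else 2 - k)
  else if (i + j + l) % m = m - 1 then (if 0 < i then (k + 1) % 3 else 2 - k)
  else (if i = m - 1 then (k + 2) % 3 else (if k = 2 then 2 else 1 - k))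

/-- code of a vertex -/
def cod (m i j l : ℕ) : ℕ := i + m * j + m * m * l

/-- table lookup -/
def look (B T c : ℕ) : ℕ := T / B ^ c % B

/-- code of the next vertex -/
def ncod (m k i j l : ℕ) : ℕ :=
  if dir m k i j l = 0 then cod m ((i + 1) % m) j l
  else if dir m k i j l = 1 then cod m i ((j + 1) % m) l
  else cod m i j ((l + 1) % m)

/-- time tables for `m = 3` -/
def T3 (k : ℕ) : ℕ :=
  if k = 0 then 33169194688473163335383024906951253447072 else
  if k = 1 then 8648941655630280275865007331995199519136 else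
  33671020023170282749124322352905625987104

/-- time tables for `m = 5` -/
def T5 (k : ℕ) : ℕ :=
  if k = 0 then 182083261891792043765720090324729457485490489771648830459845580207963318211911996425447408497175008303000721373408586529822225852022111470639951454333355915945512824517393501115251051140790911512549394590608816760819100383095417854854625924842361185905941133562368 else
  if k = 1 then 113042358314783707528476324728522511449829021598599026384790952944188680158960054968340003109954242470671505086948906809401555326521382846402628704183267466722573796772189815789500247820369027087309934268404444601213360159478096637369592154521058944045435682004608 else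
  93907823626479683986129934095010529334888254328746426696722859562853611155297906696095201668921826693154526384845747851042597107179745230802071426634265197937941210219193250769299173118315188969722679543976455223513101836472104607913187247070356483484503058432128

theorem chk3 : ∀ k < 3, ∀ i < 3, ∀ j < 3, ∀ l < 3,
    look 32 (T3 k) (ncod 3 k i j l) = (look 32 (T3 k) (cod 3 i j l) + 1) % 27 := by
  decide

theorem cov3 : ∀ i < 3, ∀ j < 3, ∀ l < 3, ∀ d < 3, ∃ k < 3, dir 3 k i j l = d := by
  decide

theorem chk5 : ∀ k < 3, ∀ i < 5, ∀ j < 5, ∀ l < 5,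
    look 128 (T5 k) (ncod 5 k i j l) = (look 128 (T5 k) (cod 5 i j l) + 1) % 125 := by
  decide +kernel

theorem cov5 : ∀ i < 5, ∀ j < 5, ∀ l < 5, ∀ d < 3, ∃ k < 3, dir 5 k i j l = d := by
  decide +kernel

theorem dir_lt (m k i j l : ℕ) (hk : k < 3) : dir m k i j l < 3 := by
  unfold dir
  split_ifs <;> omega

/-- a cycle given by the times of its vertices -/
theorem time_hc {V : Type} [Fintype V] {n : ℕ} (hn : 3 ≤ n) (hcard : Fintype.card V = n)
    (s : V → V) (t : V → ZMod n) (h : ∀ v, t (s v) = t v + 1) (v0 : V) :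
    HC ((cyc n).comap t) ∧ ∀ u v, ((cyc n).comap t).Adj u v ↔ (v = s u ∨ u = s v) := by
  have hnz : NeZero n := ⟨by omega⟩
  have hsurj : Function.Surjective t := by
    intro x
    have key : ∀ k : ℕ, ∃ v, t v = t v0 + k := by
      intro k
      induction k with
      | zero => exact ⟨v0, by simp⟩
      | succ k ih =>
        obtain ⟨v, hv⟩ := ih
        refine ⟨s v, ?_⟩
        rw [h, hv]
        push_cast
        ring
    obtain ⟨v, hv⟩ := key (x - t v0).val
    refine ⟨v, ?_⟩
    rw [hv, ZMod.natCast_zmod_val]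
    ring
  have hbij : Function.Bijective t := by
    rw [Fintype.bijective_iff_surjective_and_card]
    exact ⟨hsurj, by rw [hcard, ZMod.card]⟩
  have h1 := (cyc_hc hn).map (Equiv.ofBijective t hbij).symm
  have h2 : (cyc n).comap t = (cyc n).comap (Equiv.ofBijective t hbij).symm.symm := by
    rw [Equiv.symm_symm]
    rfl
  refine ⟨by rw [h2]; exact h1, ?_⟩
  intro u v
  rw [comap_adj, cyc_adj (by omega), ← h, ← h]
  constructor
  · rintro (h3 | h3)
    · exact Or.inl (hbij.1 h3)
    · exact Or.inr (hbij.1 h3)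
  · rintro (rfl | rfl)
    · exact Or.inl rfl
    · exact Or.inr rfl

theorem val_succ {m : ℕ} [NeZero m] (x : ZMod m) : (x + 1).val = (x.val + 1) % m := by
  have h7 : x + 1 = ((x.val + 1 : ℕ) : ZMod m) := by
    rw [Nat.cast_add, ZMod.natCast_zmod_val, Nat.cast_one]
  rw [h7, ZMod.val_natCast]

theorem tor_three {m B : ℕ} (hm : 3 ≤ m) (T : ℕ → ℕ)
    (chk : ∀ k < 3, ∀ i < m, ∀ j < m, ∀ l < m,
      look B (T k) (ncod m k i j l) = (look B (T k) (cod m i j l) + 1) % m ^ 3)
    (cov : ∀ i < m, ∀ j < m, ∀ l < m, ∀ d < 3, ∃ k < 3, dir m k i j l = d) :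
    HD (tor m 3) 3 := by
  have hnz : NeZero m := ⟨by omega⟩
  obtain ⟨D, hD⟩ : ∃ D : Fin 3 → (Fin 3 → ZMod m) → Fin 3, ∀ k x,
      (D k x).val = dir m k.val (x 0).val (x 1).val (x 2).val :=
    ⟨fun k x => ⟨_, dir_lt m k.val _ _ _ k.2⟩, fun _ _ => rfl⟩
  obtain ⟨t, ht⟩ : ∃ t : Fin 3 → (Fin 3 → ZMod m) → ZMod (m ^ 3), t = fun k x =>
      ((look B (T k.val) (cod m (x 0).val (x 1).val (x 2).val) : ℕ) : ZMod (m ^ 3)) := ⟨_, rfl⟩
  have hstep : ∀ k x, t k (x + Pi.single (D k x) 1) = t k x + 1 := by
    intro k x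
    rw [ht]
    simp only
    have h1 := chk k.val k.2 (x 0).val (ZMod.val_lt _) (x 1).val (ZMod.val_lt _) (x 2).val
      (ZMod.val_lt _)
    have h2 : cod m ((x + Pi.single (D k x) 1 : Fin 3 → ZMod m) 0).val
        ((x + Pi.single (D k x) 1 : Fin 3 → ZMod m) 1).val
        ((x + Pi.single (D k x) 1 : Fin 3 → ZMod m) 2).val =
          ncod m k.val (x 0).val (x 1).val (x 2).val := by
      have h3 := hD k x
      unfold ncod
      rw [← h3]
      have h4 : D k x = 0 ∨ D k x = 1 ∨ D k x = 2 := by
        generalize D k x = d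
        fin_cases d <;> simp
      rcases h4 with h4 | h4 | h4
      · rw [h4]
        simp [val_succ]
      · rw [h4]
        simp [val_succ]
      · rw [h4]
        simp [val_succ]
    rw [h2, h1]
    have h5 : ((look B (T k.val) (cod m (x 0).val (x 1).val (x 2).val) : ℕ) : ZMod (m ^ 3)) + 1 =
        (((look B (T k.val) (cod m (x 0).val (x 1).val (x 2).val) + 1 : ℕ)) : ZMod (m ^ 3)) := by
      push_cast
      ring
    rw [h5, ZMod.natCast_eq_natCast_iff]
    exact Nat.mod_modEq _ _
  have hcard : Fintype.card (Fin 3 → ZMod m) = m ^ 3 := by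
    rw [Fintype.card_fun, ZMod.card, Fintype.card_fin]
  have h3m : 3 ≤ m ^ 3 := hm.trans (Nat.le_self_pow (by norm_num) m)
  have hF := fun k => time_hc h3m hcard (fun x => x + Pi.single (D k x) 1) (t k) (hstep k) 0
  refine ⟨Fin 3, inferInstance, fun k => (cyc (m ^ 3)).comap (t k), by simp, fun k => (hF k).1, ?_⟩
  have hcov : ∀ (x : Fin 3 → ZMod m) (i : Fin 3), ∃ k, D k x = i := by
    intro x i
    obtain ⟨k, hk, hki⟩ := cov (x 0).val (ZMod.val_lt _) (x 1).val (ZMod.val_lt _) (x 2).val
      (ZMod.val_lt _) i.val i.2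
    refine ⟨⟨k, hk⟩, Fin.ext ?_⟩
    rw [hD]
    exact hki
  ext x y
  rw [tor_adj (by omega), iSup_adj]
  constructor
  · rintro ⟨i, hi⟩
    rcases hi with hi | hi
    · obtain ⟨k, hk⟩ := hcov x i
      refine ⟨k, ?_⟩
      rw [(hF k).2]
      left
      rw [hi, ← hk]
    · obtain ⟨k, hk⟩ := hcov y i
      refine ⟨k, ?_⟩
      rw [(hF k).2]
      right
      rw [hi, ← hk]
  · rintro ⟨k, hk⟩
    rw [(hF k).2] at hk
    rcases hk with hk | hk
    · exact ⟨_, Or.inl hk⟩
    · exact ⟨_, Or.inr hk⟩

theorem tor_three_three : HD (tor 3 3) 3 := tor_three (B := 32) (by norm_num) T3 chk3 cov3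

theorem tor_five_three : HD (tor 5 3) 3 := tor_three (B := 128) (by norm_num) T5 chk5 cov5

end Pool.Agent.T9h44.LA
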