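import Mathlib

set_option autoImplicit false

/-!
# Voltage assignments: counting those with short closed trajectories
-/

namespace Pool.Agent.T9h44.RC

open Finset Equiv

variable {V : Type} [LinearOrder V] {n : ℕ}

/-- The permutation attached to the ordered pair `(u, v)`. -/
def volt (σ : V → V → Perm (Fin n)) (u v : V) : Perm (Fin n) := if u < v then σ u v else (σ v u)⁻¹

theorem volt_symm (σ : V → V → Perm (Fin n)) {u v : V} (h : u ≠ v) :
    volt σ v u = (volt σ u v)⁻¹ := by
  unfold volt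
  rcases lt_or_gt_of_ne h with h1 | h1
  · rw [if_pos h1, if_neg (not_lt.2 h1.le)]
  · rw [if_pos h1, if_neg (not_lt.2 h1.le), inv_inv]

/-- Modification at the pair `(u, v)`. -/
def upd (σ : V → V → Perm (Fin n)) (u v : V) (g : Perm (Fin n)) : V → V → Perm (Fin n) :=
  fun a b => if u < v then (if a = u ∧ b = v then g * σ a b else σ a b)
    else (if a = v ∧ b = u then σ a b * g⁻¹ else σ a b)

theorem volt_upd_same (σ : V → V → Perm (Fin n)) (u v : V) (g : Perm (Fin n)) :
    volt (upd σ u v g) u v = g * volt σ u v := by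
  unfold volt upd
  by_cases h : u < v
  · simp [h]
  · simp [h]

theorem volt_upd_other (σ : V → V → Perm (Fin n)) {u v a b : V} (g : Perm (Fin n))
    (h1 : ¬ (a = u ∧ b = v)) (h2 : ¬ (a = v ∧ b = u)) :
    volt (upd σ u v g) a b = volt σ a b := by
  unfold volt upd
  have h1' : ¬ (b = v ∧ a = u) := fun h => h1 h.symm
  have h2' : ¬ (b = u ∧ a = v) := fun h => h2 h.symm
  by_cases h : u < v
  · simp [h, h1, h2']
  · simp [h, h2, h1']

theorem upd_upd (σ : V → V → Perm (Fin n)) (u v : V) (g g' : Perm (Fin n)) :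
    upd (upd σ u v g) u v g' = upd σ u v (g' * g) := by
  funext a b
  unfold upd
  by_cases h : u < v
  · by_cases h1 : a = u ∧ b = v
    · simp [h, h1, mul_assoc]
    · simp [h, h1]
  · by_cases h1 : a = v ∧ b = u
    · simp [h, h1, mul_assoc]
    · simp [h, h1]

theorem upd_one (σ : V → V → Perm (Fin n)) (u v : V) : upd σ u v 1 = σ := by
  funext a b
  unfold upd
  simp

/-- One step along the edges `a → nx a`. -/
def step (nx : V → V) (σ : V → V → Perm (Fin n)) (p : V × Fin n) : V × Fin n :=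
  (nx p.1, volt σ p.1 (nx p.1) p.2)

theorem step_fst (nx : V → V) (σ : V → V → Perm (Fin n)) (p : V × Fin n) (t : ℕ) :
    ((step nx σ)^[t] p).1 = nx^[t] p.1 := by
  induction t with
  | zero => rfl
  | succ t ih =>
    rw [Function.iterate_succ_apply', Function.iterate_succ_apply']
    show nx ((step nx σ)^[t] p).1 = _
    rw [ih]

/-- `p` returns to itself after `j` steps, and not earlier. -/
def Ret (nx : V → V) (σ : V → V → Perm (Fin n)) (p : V × Fin n) (j : ℕ) : Prop :=
  (step nx σ)^[j] p = p ∧ ∀ t, 0 < t → t < j → (step nx σ)^[t] p ≠ p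

/-- The hypotheses on the edges `R`, with successor `nx`, along the trajectory of `v`. -/
structure Traj (R : V → V → Prop) (nx : V → V) (v : V) : Prop where
  real : ∀ t, R (nx^[t] v) (nx^[t + 1] v)
  inj : ∀ a b c, R a c → R b c → a = b
  anti : ∀ a b, R a b → ¬ R b a

variable {R : V → V → Prop} {nx : V → V} {v : V}

/-- The trajectory of `σ'`, modified at the last edge. -/
theorem traj_eq (hT : Traj R nx v) {u : V} (huv : R u v) (σ : V → V → Perm (Fin n)) (x y : Fin n)
    (j : ℕ) (hret : Ret nx σ (v, x) j) (hy : ∀ t < j, ((step nx σ)^[t] (v, x)).2 ≠ y) :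
    ∀ t < j, (step nx (upd σ u v (swap x y)))^[t] (v, x) = (step nx σ)^[t] (v, x) := by
  intro t
  induction t with
  | zero => intro _; rfl
  | succ t ih =>
    intro ht
    rw [Function.iterate_succ_apply', Function.iterate_succ_apply', ih (by omega)]
    obtain ⟨q, hq⟩ : ∃ q, q = (step nx σ)^[t] (v, x) := ⟨_, rfl⟩
    rw [← hq]
    have hq1 : q.1 = nx^[t] v := by rw [hq, step_fst]
    have hreal := hT.real t
    rw [Function.iterate_succ_apply', ← hq1] at hreal
    unfold step
    refine Prod.ext rfl ?_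
    show volt (upd σ u v (swap x y)) q.1 (nx q.1) q.2 = volt σ q.1 (nx q.1) q.2
    by_cases h1 : q.1 = u ∧ nx q.1 = v
    · obtain ⟨h2, h3⟩ := h1
      have h4 : (step nx σ)^[t + 1] (v, x) = (v, volt σ u v q.2) := by
        rw [Function.iterate_succ_apply', ← hq]
        unfold step
        rw [h3, h2]
      rw [h3, h2, volt_upd_same, Perm.mul_apply]
      apply swap_apply_of_ne_of_ne
      · intro h5
        apply hret.2 (t + 1) (by omega) ht
        rw [h4, h5]
      · have h5 := hy (t + 1) ht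
        rw [h4] at h5
        exact h5
    · rw [volt_upd_other σ _ h1]
      rintro ⟨h2, h3⟩
      rw [h3, h2] at hreal
      exact hT.anti _ _ huv hreal

/-- The last step of the modified trajectory. -/
theorem traj_last (hT : Traj R nx v) {u : V} (huv : R u v) (σ : V → V → Perm (Fin n))
    (x y : Fin n) {j : ℕ} (hj : 1 ≤ j) (hret : Ret nx σ (v, x) j)
    (hy : ∀ t < j, ((step nx σ)^[t] (v, x)).2 ≠ y) :
    (step nx (upd σ u v (swap x y)))^[j] (v, x) = (v, y) := by
  obtain ⟨i, rfl⟩ : ∃ i, j = i + 1 := ⟨j - 1, by omega⟩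
  rw [Function.iterate_succ_apply', traj_eq hT huv σ x y (i + 1) hret hy i (by omega)]
  obtain ⟨q, hq⟩ : ∃ q, q = (step nx σ)^[i] (v, x) := ⟨_, rfl⟩
  have h1 := hret.1
  rw [Function.iterate_succ_apply', ← hq] at h1
  rw [← hq]
  have hq1 : q.1 = nx^[i] v := by rw [hq, step_fst]
  have hreal := hT.real i
  rw [Function.iterate_succ_apply', ← hq1] at hreal
  have h2 : nx q.1 = v := congrArg Prod.fst h1
  rw [h2] at hreal
  have h3 : q.1 = u := hT.inj _ _ _ hreal huv
  have h4 : volt σ q.1 (nx q.1) q.2 = x := congrArg Prod.snd h1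
  unfold step
  rw [h2, h3, volt_upd_same, Perm.mul_apply]
  rw [h2, h3] at h4
  rw [h4, swap_apply_left]

open Classical in
/-- Switching: few voltage assignments have a closed trajectory of length `j`. -/
theorem count_one [Fintype V] (hT : Traj R nx v) {u : V} (huv : R u v) (x : Fin n) {j : ℕ}
    (hj : 1 ≤ j) (B : Finset (V → V → Perm (Fin n)))
    (hB : ∀ σ ∈ B, ∀ g, upd σ u v g ∈ B) :
    (B.filter fun σ => Ret nx σ (v, x) j).card * (n - j) ≤ B.card := by
  obtain ⟨Y, hY⟩ : ∃ Y : (V → V → Perm (Fin n)) → Finset (Fin n), ∀ σ,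
      Y σ = univ \ (range j).image fun t => ((step nx σ)^[t] (v, x)).2 := ⟨_, fun σ => rfl⟩
  have hYc : ∀ σ, n - j ≤ (Y σ).card := by
    intro σ
    rw [hY, card_sdiff_of_subset (subset_univ _), card_univ, Fintype.card_fin]
    have := card_image_le (s := range j) (f := fun t => ((step nx σ)^[t] (v, x)).2)
    rw [card_range] at this
    omega
  have hYm : ∀ σ y, y ∈ Y σ → ∀ t < j, ((step nx σ)^[t] (v, x)).2 ≠ y := by
    intro σ y hy t ht h
    rw [hY, mem_sdiff] at hy
    exact hy.2 (mem_image.2 ⟨t, mem_range.2 ht, h⟩)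
  have h1 : (B.filter fun σ => Ret nx σ (v, x) j).card * (n - j) ≤
      ((B.filter fun σ => Ret nx σ (v, x) j).sigma fun σ => Y σ).card := by
    rw [card_sigma, ← smul_eq_mul, ← sum_const]
    exact sum_le_sum fun σ _ => hYc σ
  refine h1.trans (card_le_card_of_injOn (fun z => upd z.1 u v (swap x z.2)) ?_ ?_)
  · rintro ⟨σ, y⟩ hz
    rw [mem_coe, mem_sigma, mem_filter] at hz
    exact mem_coe.2 (hB _ hz.1.1 _)
  · rintro ⟨σ, y⟩ hz ⟨σ', y'⟩ hz' h
    rw [mem_coe, mem_sigma, mem_filter] at hz hz'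
    have h2 : upd σ u v (swap x y) = upd σ' u v (swap x y') := h
    have h3 := traj_last hT huv σ x y hj hz.1.2 (hYm σ y hz.2)
    have h4 := traj_last hT huv σ' x y' hj hz'.1.2 (hYm σ' y' hz'.2)
    rw [h2, h4] at h3
    have h5 : y' = y := congrArg Prod.snd h3
    subst h5
    have h6 := congrArg (fun τ => upd τ u v (swap x y')) h2
    simp only [upd_upd, swap_mul_self, upd_one] at h6
    rw [h6]

/-- Trajectories which avoid the modified edge. -/
theorem traj_avoid {R' : V → V → Prop} {nx' : V → V} (hT' : Traj R' nx' v) {u w : V}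
    (h1 : ¬ R' u w) (h2 : ¬ R' w u) (σ : V → V → Perm (Fin n)) (g : Perm (Fin n)) (x : Fin n) :
    ∀ t, (step nx' (upd σ u w g))^[t] (v, x) = (step nx' σ)^[t] (v, x) := by
  intro t
  induction t with
  | zero => rfl
  | succ t ih =>
    rw [Function.iterate_succ_apply', Function.iterate_succ_apply', ih]
    obtain ⟨q, hq⟩ : ∃ q, q = (step nx' σ)^[t] (v, x) := ⟨_, rfl⟩
    rw [← hq]
    have hq1 : q.1 = nx'^[t] v := by rw [hq, step_fst]
    have hreal := hT'.real t
    rw [Function.iterate_succ_apply', ← hq1] at hreal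
    unfold step
    refine Prod.ext rfl ?_
    show volt (upd σ u w g) q.1 (nx' q.1) q.2 = volt σ q.1 (nx' q.1) q.2
    rw [volt_upd_other]
    · rintro ⟨h3, h4⟩
      rw [h4, h3] at hreal
      exact h1 hreal
    · rintro ⟨h3, h4⟩
      rw [h4, h3] at hreal
      exact h2 hreal

theorem ret_upd {R' : V → V → Prop} {nx' : V → V} (hT' : Traj R' nx' v) {u w : V}
    (h1 : ¬ R' u w) (h2 : ¬ R' w u) (σ : V → V → Perm (Fin n)) (g : Perm (Fin n)) (x : Fin n)
    (j : ℕ) : Ret nx' (upd σ u w g) (v, x) j ↔ Ret nx' σ (v, x) j := by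
  unfold Ret
  simp only [traj_avoid hT' h1 h2]

open Classical in
/-- Two closed trajectories with different edges. -/
theorem count_two [Fintype V] {R' : V → V → Prop} {nx' : V → V} (hT : Traj R nx v)
    (hT' : Traj R' nx' v) (hdis : ∀ a b, R a b → ¬ R' a b ∧ ¬ R' b a) (x : Fin n) {j j' : ℕ}
    (hj : 1 ≤ j) (hj' : 1 ≤ j') :
    (univ.filter fun σ : V → V → Perm (Fin n) => Ret nx σ (v, x) j ∧ Ret nx' σ (v, x) j').card *
      ((n - j) * (n - j')) ≤ Fintype.card (V → V → Perm (Fin n)) := by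
  -- if the trajectory returns, the last edge exists
  have hu : (∃ σ : V → V → Perm (Fin n), Ret nx σ (v, x) j) → ∃ u, R u v := by
    rintro ⟨σ, hσ, _⟩
    obtain ⟨i, rfl⟩ : ∃ i, j = i + 1 := ⟨j - 1, by omega⟩
    have h1 := congrArg Prod.fst hσ
    rw [step_fst] at h1
    have h2 := hT.real i
    simp only at h1
    rw [h1] at h2
    exact ⟨_, h2⟩
  have hu' : (∃ σ : V → V → Perm (Fin n), Ret nx' σ (v, x) j') → ∃ u, R' u v := by
    rintro ⟨σ, hσ, _⟩
    obtain ⟨i, rfl⟩ : ∃ i, j' = i + 1 := ⟨j' - 1, by omega⟩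
    have h1 := congrArg Prod.fst hσ
    rw [step_fst] at h1
    have h2 := hT'.real i
    simp only at h1
    rw [h1] at h2
    exact ⟨_, h2⟩
  by_cases hex : ∃ σ : V → V → Perm (Fin n), Ret nx σ (v, x) j ∧ Ret nx' σ (v, x) j'
  swap
  · rw [filter_eq_empty_iff.2 (fun σ _ h => hex ⟨σ, h⟩), card_empty, zero_mul]
    exact Nat.zero_le _
  obtain ⟨σ0, h0, h0'⟩ := hex
  obtain ⟨u, hu⟩ := hu ⟨σ0, h0⟩
  obtain ⟨u', hu'⟩ := hu' ⟨σ0, h0'⟩
  have h1 := count_one hT' hu' x hj' (univ : Finset (V → V → Perm (Fin n)))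
    (fun σ _ g => mem_univ _)
  have h2 := count_one hT hu x hj (univ.filter fun σ : V → V → Perm (Fin n) =>
    Ret nx' σ (v, x) j') (by
    intro σ hσ g
    rw [mem_filter] at hσ ⊢
    refine ⟨mem_univ _, ?_⟩
    obtain ⟨h3, h4⟩ := hdis _ _ hu
    exact (ret_upd hT' h3 h4 σ g x j').2 hσ.2)
  rw [filter_filter] at h2
  have h3 : (univ.filter fun σ : V → V → Perm (Fin n) =>
      Ret nx σ (v, x) j ∧ Ret nx' σ (v, x) j') =
      univ.filter fun σ : V → V → Perm (Fin n) => Ret nx' σ (v, x) j' ∧ Ret nx σ (v, x) j := by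
    apply filter_congr
    intro σ _
    exact and_comm
  rw [h3, ← mul_assoc]
  calc _ ≤ (univ.filter fun σ : V → V → Perm (Fin n) => Ret nx' σ (v, x) j').card *
        (n - j') := Nat.mul_le_mul_right _ h2
    _ ≤ _ := by
      rw [← card_univ]
      exact h1

end Pool.Agent.T9h44.RC
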