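import Pool.Agent.T9h44.LA.Triple

set_option autoImplicit false

/-!
# Hamilton decompositions of the powers of a cycle
-/

namespace Pool.Agent.T9h44.LA

open SimpleGraph

theorem eq_comap_cyc {V : Type} {F : SimpleGraph V} {n : ℕ} (hn : 2 ≤ n) (f : ZMod n ≃ V)
    (h : ∀ u v, F.Adj (f u) (f v) ↔ (v = u + 1 ∨ u = v + 1)) : F = (cyc n).comap f.symm := by
  ext x y
  rw [comap_adj, cyc_adj hn, ← h, f.apply_symm_apply, f.apply_symm_apply]

theorem pair_gen {V W : Type} [Finite V] [Finite W] {F : SimpleGraph V} {F' : SimpleGraph W}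
    (hF : HC F) (hF' : HC F') (hdvd : Nat.card V ∣ Nat.card W)
    (hco : Nat.Coprime (Nat.card V - 1) (Nat.card W)) : HD (F.boxProd F') 2 := by
  obtain ⟨ha, f, hf⟩ := hF.param
  obtain ⟨hb, g, hg⟩ := hF'.param
  have h1 := eq_comap_cyc (by omega) f hf
  have h2 := eq_comap_cyc (by omega) g hg
  have h3 : HD ((cyc (Nat.card V)).boxProd (cyc (Nat.card W))) 2 := by
    rw [pair_union (ZMod.castHom hdvd _) ha hb]
    exact (HD.one (p1_hc _ ha hb hco)).sup (HD.one (p2_hc _ ha hb))
  have h4 := h3.map (f.prodCongr g)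
  have h5 : F.boxProd F' =
      ((cyc (Nat.card V)).boxProd (cyc (Nat.card W))).comap (f.prodCongr g).symm := by
    ext ⟨x, y⟩ ⟨x', y'⟩
    rw [comap_adj, boxProd_adj, boxProd_adj]
    rw [h1, h2, comap_adj, comap_adj]
    simp only [Equiv.prodCongr_symm, Equiv.prodCongr_apply, Prod.map_apply,
      EmbeddingLike.apply_eq_iff_eq]
  rw [h5]
  exact h4

theorem triple_gen {V W : Type} [Finite V] [Finite W] {F : SimpleGraph V} {F' F'' : SimpleGraph W}
    (hF : HC F) (hF' : HC F') (hF'' : HC F'') (ha : 7 ≤ Nat.card V)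
    (hb : 3 * Nat.card V ≤ Nat.card W) (hoa : Odd (Nat.card V)) (hob : Odd (Nat.card W)) :
    HD (F.boxProd (F' ⊔ F'')) 3 := by
  obtain ⟨_, f, hf⟩ := hF.param
  obtain ⟨_, g, hg⟩ := hF'.param
  obtain ⟨_, g', hg'⟩ := hF''.param
  have h1 := eq_comap_cyc (by omega) f hf
  have h2 := eq_comap_cyc (by omega) g hg
  have h2' := eq_comap_cyc (by omega) g' hg'
  have hnz : NeZero (Nat.card W) := ⟨by omega⟩
  have h3 := triple (g'.trans g.symm) ha hb hoa hob
  have h4 := h3.map (f.prodCongr g)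
  have h5 : F.boxProd (F' ⊔ F'') =
      ((cyc (Nat.card V)).boxProd (cyc (Nat.card W) ⊔
        (cyc (Nat.card W)).comap (g'.trans g.symm).symm)).comap (f.prodCongr g).symm := by
    ext ⟨x, y⟩ ⟨x', y'⟩
    rw [comap_adj, boxProd_adj, boxProd_adj, sup_adj, sup_adj]
    rw [h1, h2, h2', comap_adj, comap_adj, comap_adj, comap_adj]
    simp only [Equiv.prodCongr_symm, Equiv.prodCongr_apply, Prod.map_apply,
      EmbeddingLike.apply_eq_iff_eq, Equiv.symm_trans_apply, Equiv.symm_symm,
      Equiv.apply_symm_apply]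
  rw [h5]
  exact h4

theorem HD.fin {V : Type} {G : SimpleGraph V} {h : ℕ} (hG : HD G h) :
    ∃ F : Fin h → SimpleGraph V, (∀ i, HC (F i)) ∧ G = ⨆ i, F i := by
  obtain ⟨κ, inst, F, hc, hF, rfl⟩ := hG
  have e : Fin h ≃ κ := (Fintype.equivFinOfCardEq hc).symm
  exact ⟨fun i => F (e i), fun i => hF _, (e.iSup_comp (g := F)).symm⟩

theorem boxProd_iSup {V W ι : Type} (F : ι → SimpleGraph V) (F' : ι → SimpleGraph W) :
    (⨆ i, F i).boxProd (⨆ i, F' i) = ⨆ i, (F i).boxProd (F' i) := by
  ext ⟨x, y⟩ ⟨x', y'⟩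
  rw [boxProd_adj, iSup_adj, iSup_adj, iSup_adj]
  constructor
  · rintro (⟨⟨i, hi⟩, h⟩ | ⟨⟨i, hi⟩, h⟩)
    · exact ⟨i, by rw [boxProd_adj]; exact Or.inl ⟨hi, h⟩⟩
    · exact ⟨i, by rw [boxProd_adj]; exact Or.inr ⟨hi, h⟩⟩
  · rintro ⟨i, hi⟩
    rw [boxProd_adj] at hi
    rcases hi with ⟨h, h'⟩ | ⟨h, h'⟩
    · exact Or.inl ⟨⟨i, h⟩, h'⟩
    · exact Or.inr ⟨⟨i, h⟩, h'⟩

theorem prod_even {V W : Type} [Finite V] [Finite W] {G : SimpleGraph V} {G' : SimpleGraph W}
    {h : ℕ} (hG : HD G h) (hG' : HD G' h) (hdvd : Nat.card V ∣ Nat.card W)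
    (hco : Nat.Coprime (Nat.card V - 1) (Nat.card W)) : HD (G.boxProd G') (h + h) := by
  obtain ⟨F, hF, rfl⟩ := hG.fin
  obtain ⟨F', hF', rfl⟩ := hG'.fin
  rw [boxProd_iSup]
  have h1 := HD.iSup (fun i : Fin h => (F i).boxProd (F' i)) (fun _ => 2)
    (fun i => pair_gen (hF i) (hF' i) hdvd hco)
  have h2 : ∑ _i : Fin h, 2 = h + h := by
    rw [Finset.sum_const, Finset.card_univ, Fintype.card_fin, smul_eq_mul]
    ring
  rw [h2] at h1
  exact h1

theorem prod_odd {V W : Type} [Finite V] [Finite W] {G : SimpleGraph V} {G' : SimpleGraph W}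
    {m : ℕ} (hG : HD G (m + 1)) (hG' : HD G' (m + 2)) (hdvd : Nat.card V ∣ Nat.card W)
    (hco : Nat.Coprime (Nat.card V - 1) (Nat.card W)) (ha : 7 ≤ Nat.card V)
    (hb : 3 * Nat.card V ≤ Nat.card W) (hoa : Odd (Nat.card V)) (hob : Odd (Nat.card W)) :
    HD (G.boxProd G') (m + 1 + (m + 2)) := by
  classical
  obtain ⟨F, hF, rfl⟩ := hG.fin
  obtain ⟨F', hF', rfl⟩ := hG'.fin
  have h0 : (⨆ i, F' i) = ⨆ i : Fin (m + 1), (F' i.castSucc ⊔
      (if i = Fin.last m then F' (Fin.last (m + 1)) else ⊥)) := by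
    ext x y
    rw [iSup_adj, iSup_adj]
    constructor
    · rintro ⟨i, hi⟩
      by_cases h : i = Fin.last (m + 1)
      · refine ⟨Fin.last m, ?_⟩
        rw [sup_adj, if_pos rfl]
        rw [h] at hi
        exact Or.inr hi
      · obtain ⟨j, rfl⟩ := Fin.exists_castSucc_eq.2 h
        exact ⟨j, by rw [sup_adj]; exact Or.inl hi⟩
    · rintro ⟨i, hi⟩
      rw [sup_adj] at hi
      rcases hi with hi | hi
      · exact ⟨_, hi⟩
      · split_ifs at hi with h
        · exact ⟨_, hi⟩
        · exact absurd hi (by simp)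
  rw [h0, boxProd_iSup]
  have h1 := HD.iSup (fun i : Fin (m + 1) => (F i).boxProd (F' i.castSucc ⊔
      (if i = Fin.last m then F' (Fin.last (m + 1)) else ⊥)))
    (fun i => if i = Fin.last m then 3 else 2) (by
      intro i
      by_cases h : i = Fin.last m
      · simp only [h, if_true]
        exact triple_gen (hF _) (hF' _) (hF' _) ha hb hoa hob
      · simp only [h, if_false, sup_bot_eq]
        exact pair_gen (hF _) (hF' _) hdvd hco)
  have h2 : ∑ i : Fin (m + 1), (if i = Fin.last m then 3 else 2) = m + 1 + (m + 2) := by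
    rw [Fin.sum_univ_castSucc]
    have h3 : ∀ i : Fin m, (if i.castSucc = Fin.last m then 3 else 2) = 2 := by
      intro i
      rw [if_neg (Fin.castSucc_lt_last i).ne]
    rw [Finset.sum_congr rfl (fun i _ => h3 i)]
    simp only [Finset.sum_const, Finset.card_univ, Fintype.card_fin, smul_eq_mul, if_true]
    ring
  rw [h2] at h1
  exact h1

/-- The product of `j` cycles of length `p`. -/
def tor (p j : ℕ) : SimpleGraph (Fin j → ZMod p) :=
  SimpleGraph.fromRel (fun x y => ∃ i, y = x + Pi.single i 1)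

theorem tor_adj {p : ℕ} (hp : 2 ≤ p) (j : ℕ) (x y : Fin j → ZMod p) :
    (tor p j).Adj x y ↔ ∃ i, (y = x + Pi.single i 1 ∨ x = y + Pi.single i 1) := by
  unfold tor
  rw [SimpleGraph.fromRel_adj]
  have key : ∀ (x : Fin j → ZMod p) (i : Fin j), x ≠ x + Pi.single i 1 := by
    intro x i h
    have := congrFun h i
    rw [Pi.add_apply, Pi.single_eq_same] at this
    exact zmod_one_ne hp _ this.symm
  constructor
  · rintro ⟨_, ⟨i, hi⟩ | ⟨i, hi⟩⟩
    · exact ⟨i, Or.inl hi⟩
    · exact ⟨i, Or.inr hi⟩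
  · rintro ⟨i, rfl | rfl⟩
    · exact ⟨key x i, Or.inl ⟨i, rfl⟩⟩
    · exact ⟨(key y i).symm, Or.inr ⟨i, rfl⟩⟩

theorem append_single_left {p m n : ℕ} (x : Fin m → ZMod p) (y : Fin n → ZMod p) (i : Fin m) :
    Fin.append x y + Pi.single (Fin.castAdd n i) 1 = Fin.append (x + Pi.single i 1) y := by
  funext k
  refine Fin.addCases (fun l => ?_) (fun l => ?_) k
  · rw [Pi.add_apply, Fin.append_left, Fin.append_left, Pi.add_apply]
    congr 1
    by_cases h : l = i
    · rw [h, Pi.single_eq_same, Pi.single_eq_same]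
    · rw [Pi.single_eq_of_ne h, Pi.single_eq_of_ne]
      intro h'
      exact h (Fin.castAdd_injective _ _ h')
  · rw [Pi.add_apply, Fin.append_right, Fin.append_right, Pi.single_eq_of_ne, add_zero]
    intro h
    have := congrArg Fin.val h
    simp only [Fin.val_natAdd, Fin.val_castAdd] at this
    have := i.2
    omega

theorem append_single_right {p m n : ℕ} (x : Fin m → ZMod p) (y : Fin n → ZMod p) (i : Fin n) :
    Fin.append x y + Pi.single (Fin.natAdd m i) 1 = Fin.append x (y + Pi.single i 1) := by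
  funext k
  refine Fin.addCases (fun l => ?_) (fun l => ?_) k
  · rw [Pi.add_apply, Fin.append_left, Fin.append_left, Pi.single_eq_of_ne, add_zero]
    intro h
    have := congrArg Fin.val h
    simp only [Fin.val_natAdd, Fin.val_castAdd] at this
    have := l.2
    omega
  · rw [Pi.add_apply, Fin.append_right, Fin.append_right, Pi.add_apply]
    congr 1
    by_cases h : l = i
    · rw [h, Pi.single_eq_same, Pi.single_eq_same]
    · rw [Pi.single_eq_of_ne h, Pi.single_eq_of_ne]
      intro h'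
      apply h
      have := congrArg Fin.val h'
      simp only [Fin.val_natAdd] at this
      exact Fin.ext (by omega)

theorem tor_split {p : ℕ} (hp : 2 ≤ p) (m n : ℕ) :
    tor p (m + n) = ((tor p m).boxProd (tor p n)).comap (Fin.appendEquiv m n).symm := by
  have key : ∀ (x x' : Fin m → ZMod p) (y y' : Fin n → ZMod p),
      (tor p (m + n)).Adj (Fin.append x y) (Fin.append x' y') ↔
        ((tor p m).boxProd (tor p n)).Adj (x, y) (x', y') := by
    intro x x' y y'
    have inj : ∀ (x x' : Fin m → ZMod p) (y y' : Fin n → ZMod p),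
        Fin.append x y = Fin.append x' y' → x = x' ∧ y = y' := by
      intro x x' y y' h
      have := (Fin.appendEquiv m n).injective (a₁ := (x, y)) (a₂ := (x', y')) h
      exact ⟨congrArg Prod.fst this, congrArg Prod.snd this⟩
    rw [boxProd_adj, tor_adj hp, tor_adj hp, tor_adj hp]
    constructor
    · rintro ⟨i, hi⟩
      revert hi
      refine Fin.addCases (fun l => ?_) (fun l => ?_) i
      · intro hi
        rw [append_single_left, append_single_left] at hi
        rcases hi with hi | hi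
        · obtain ⟨h1, h2⟩ := inj _ _ _ _ hi
          exact Or.inl ⟨⟨l, Or.inl h1⟩, h2.symm⟩
        · obtain ⟨h1, h2⟩ := inj _ _ _ _ hi
          exact Or.inl ⟨⟨l, Or.inr h1⟩, h2⟩
      · intro hi
        rw [append_single_right, append_single_right] at hi
        rcases hi with hi | hi
        · obtain ⟨h1, h2⟩ := inj _ _ _ _ hi
          exact Or.inr ⟨⟨l, Or.inl h2⟩, h1.symm⟩
        · obtain ⟨h1, h2⟩ := inj _ _ _ _ hi
          exact Or.inr ⟨⟨l, Or.inr h2⟩, h1⟩
    · simp only
      rintro (⟨⟨i, hi⟩, h⟩ | ⟨⟨i, hi⟩, h⟩)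
      · refine ⟨Fin.castAdd n i, ?_⟩
        rw [append_single_left, append_single_left, h]
        rcases hi with rfl | rfl
        · exact Or.inl rfl
        · exact Or.inr rfl
      · refine ⟨Fin.natAdd m i, ?_⟩
        rw [append_single_right, append_single_right, h]
        rcases hi with rfl | rfl
        · exact Or.inl rfl
        · exact Or.inr rfl
  ext x y
  obtain ⟨⟨x1, x2⟩, rfl⟩ := (Fin.appendEquiv m n).surjective x
  obtain ⟨⟨y1, y2⟩, rfl⟩ := (Fin.appendEquiv m n).surjective y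
  rw [comap_adj, Equiv.symm_apply_apply, Equiv.symm_apply_apply]
  exact key x1 y1 x2 y2

theorem cyc_hc {n : ℕ} (hn : 3 ≤ n) : HC (cyc n) := by
  have hnz : NeZero n := ⟨by omega⟩
  refine ⟨?_, ?_⟩
  · rw [connected_iff]
    refine ⟨fun x y => ?_, ⟨0⟩⟩
    exact ring_conn (fun x : ZMod n => x) 0 (fun x _ => (((cyc_adj (by omega) _ _).2
      (Or.inl rfl)).reachable)) x y
  · intro v
    have : (cyc n).neighborSet v = {v + 1, v - 1} := by
      ext x
      rw [mem_neighborSet, cyc_adj (by omega)]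
      simp only [Set.mem_insert_iff, Set.mem_singleton_iff]
      constructor
      · rintro (h | h)
        · exact Or.inl h
        · right
          rw [h]; ring
      · rintro (h | h)
        · exact Or.inl h
        · right
          rw [h]; ring
    rw [this]
    exact Set.ncard_pair (zmod_two_ne hn v)

theorem card_tor (p j : ℕ) : Nat.card (Fin j → ZMod p) = p ^ j := by
  rw [Nat.card_fun, Nat.card_zmod, Nat.card_eq_fintype_card, Fintype.card_fin]

end Pool.Agent.T9h44.LA
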