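import Pool.Agent.T9h44.LA.Labels

set_option autoImplicit false

/-!
# The product of a cycle and the union of two Hamilton cycles
-/

namespace Pool.Agent.T9h44.LA

open SimpleGraph

section triple

variable {a b : ℕ} [NeZero b] (w : ZMod b ≃ ZMod b)

/-- the labels of the first cycle -/
theorem c1_exists (ha : 7 ≤ a) (hb : 3 * a ≤ b) (hoa : Odd a) (hob : Odd b) :
    ∃ c : ZMod b → Option (ZMod a), (∀ v, c v = none ↔ UU a w v) ∧ Proper c ∧ HC (fg c) ∧
      (∀ i : ℕ, i < 3 → ¬ UU a w (w (i : ZMod b) - 1) →
        ∃ j : ℕ, 0 < j ∧ j < a - 3 ∧ c (w (i : ZMod b) - 1) = some (j : ZMod a)) ∧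
      ∀ v, ¬ UU a w v → UU a w (v + 1) → (∀ i : ℕ, i < 3 → v + 1 ≠ w (i : ZMod b)) →
        c v = some (-2) ∨ c v = some (-3) := by
  classical
  obtain ⟨sp, sp1, sp2, sp3, sp4⟩ := sp_exists w ha hb
  obtain ⟨R, hRd⟩ : ∃ R : ZMod b → Prop, R = fun v => ¬ UU a w v ∧ ∀ j < a - 3, sp j ≠ v := ⟨_, rfl⟩
  -- the number of remaining positions
  have hRc : (Finset.univ.filter R).card + (a + (a - 3)) = b := by
    have h1 : (Finset.univ : Finset (ZMod b)) = Finset.univ.filter R ∪
        (Finset.univ.filter (UU a w) ∪ (Finset.range (a - 3)).image sp) := by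
      ext v
      simp only [Finset.mem_univ, Finset.mem_union, Finset.mem_filter, Finset.mem_image,
        Finset.mem_range, true_and, true_iff, hRd]
      by_cases h1 : UU a w v
      · exact Or.inr (Or.inl h1)
      · by_cases h2 : ∀ j < a - 3, sp j ≠ v
        · exact Or.inl ⟨h1, h2⟩
        · push Not at h2
          exact Or.inr (Or.inr h2)
    have h2 : Disjoint (Finset.univ.filter R)
        (Finset.univ.filter (UU a w) ∪ (Finset.range (a - 3)).image sp) := by
      rw [Finset.disjoint_left]
      intro v hv hv'
      rw [Finset.mem_filter, hRd] at hv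
      rw [Finset.mem_union, Finset.mem_filter, Finset.mem_image] at hv'
      rcases hv' with hv' | ⟨j, hj, hjv⟩
      · exact hv.2.1 hv'.2
      · exact hv.2.2 j (Finset.mem_range.1 hj) hjv
    have h3 : Disjoint (Finset.univ.filter (UU a w)) ((Finset.range (a - 3)).image sp) := by
      rw [Finset.disjoint_left]
      intro v hv hv'
      rw [Finset.mem_image] at hv'
      obtain ⟨j, hj, rfl⟩ := hv'
      exact sp2 j (Finset.mem_range.1 hj) (Finset.mem_filter.1 hv).2
    have h4 : ((Finset.range (a - 3)).image sp).card = a - 3 := by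
      rw [Finset.card_image_of_injOn, Finset.card_range]
      intro i hi j hj hij
      exact sp1 i (Finset.mem_range.1 hi) j (Finset.mem_range.1 hj) hij
    have h5 := congrArg Finset.card h1
    rw [Finset.card_union_of_disjoint h2, Finset.card_union_of_disjoint h3, card_UU w (by omega),
      h4, Finset.card_univ, ZMod.card] at h5
    exact h5.symm
  have heven : Even (Finset.univ.filter R).card := by
    obtain ⟨m, hm⟩ := hoa
    obtain ⟨n, hn⟩ := hob
    rw [Nat.even_iff]
    omega
  obtain ⟨q, hq1, hq2⟩ := even_state R heven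
  obtain ⟨r, hr⟩ : ∃ r, R r := by
    have h1 : 0 < (Finset.univ.filter R).card := by omega
    obtain ⟨r, hr⟩ := Finset.card_pos.1 h1
    exact ⟨r, (Finset.mem_filter.1 hr).2⟩
  obtain ⟨c, hcd⟩ : ∃ c : ZMod b → Option (ZMod a), c = fun v => if UU a w v then none else
      if h : ∃ j, j < a - 3 ∧ sp j = v then some ((h.choose : ℕ) : ZMod a) else
        some (bif q v then -2 else -3) := ⟨_, rfl⟩
  have cU : ∀ v, UU a w v → c v = none := by
    intro v hv
    rw [hcd]
    simp only [hv, if_true]
  have cS : ∀ j < a - 3, c (sp j) = some (j : ZMod a) := by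
    intro j hj
    have h1 := sp2 j hj
    have h2 : ∃ i, i < a - 3 ∧ sp i = sp j := ⟨j, hj, rfl⟩
    rw [hcd]
    simp only [h1, if_false, h2, dif_pos]
    rw [sp1 _ h2.choose_spec.1 j hj h2.choose_spec.2]
  have cR : ∀ v, R v → c v = some (bif q v then -2 else -3) := by
    intro v hv
    rw [hRd] at hv
    have h2 : ¬ ∃ i, i < a - 3 ∧ sp i = v := by
      rintro ⟨i, hi, hiv⟩
      exact hv.2 i hi hiv
    rw [hcd]
    simp only [hv.1, if_false, h2, dif_neg, not_false_eq_true]
  -- every position is of one of three kinds
  have tri : ∀ v, UU a w v ∨ (∃ j < a - 3, sp j = v) ∨ R v := by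
    intro v
    by_cases h1 : UU a w v
    · exact Or.inl h1
    · by_cases h2 : ∃ j < a - 3, sp j = v
      · exact Or.inr (Or.inl h2)
      · right; right
        rw [hRd]
        push Not at h2
        exact ⟨h1, h2⟩
  have e1 : (-1 : ZMod a) = -((1 : ℕ) : ZMod a) := by simp
  have e2 : (-2 : ZMod a) = -((2 : ℕ) : ZMod a) := by simp
  have e3 : (-3 : ZMod a) = -((3 : ℕ) : ZMod a) := by simp
  have jn2 : ∀ j < a - 3, (j : ZMod a) ≠ -2 := by
    intro j hj
    rw [e2]
    exact cast_ne_neg (by norm_num) (by omega)
  have jn3 : ∀ j < a - 3, (j : ZMod a) ≠ -3 := by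
    intro j hj
    rw [e3]
    exact cast_ne_neg (by norm_num) (by omega)
  have jn1 : ∀ j < a - 3, (j : ZMod a) ≠ -1 := by
    intro j hj
    rw [e1]
    exact cast_ne_neg (by norm_num) (by omega)
  have n32 : (-3 : ZMod a) ≠ -2 := by
    intro h
    exact zmod_one_ne (by omega) (-3 : ZMod a) (by
      have : (-3 : ZMod a) + 1 = -2 := by ring
      rw [this, h])
  have n31 : (-3 : ZMod a) ≠ -1 := by
    intro h
    apply zmod_two_ne (by omega : 3 ≤ a) (-2 : ZMod a)
    have h1 : (-2 : ZMod a) + 1 = -1 := by ring
    have h2 : (-2 : ZMod a) - 1 = -3 := by ring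
    rw [h1, h2, h]
  have n21 : (-2 : ZMod a) ≠ -1 := by
    intro h
    exact zmod_one_ne (by omega) (-2 : ZMod a) (by
      have : (-2 : ZMod a) + 1 = -1 := by ring
      rw [this, h])
  have hs : ∀ j < a - 3, ∀ v, c v = some (j : ZMod a) ↔ v = sp j := by
    intro j hj v
    constructor
    · intro h
      rcases tri v with h1 | ⟨i, hi, rfl⟩ | h1
      · rw [cU v h1] at h
        exact absurd h (by simp)
      · rw [cS i hi] at h
        rw [cast_inj (by omega) (by omega) (Option.some.inj h)]
      · exfalso
        rw [cR v h1] at h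
        have h2 := Option.some.inj h
        cases hq : q v
        · rw [hq] at h2
          exact jn3 j hj h2.symm
        · rw [hq] at h2
          exact jn2 j hj h2.symm
    · rintro rfl
      exact cS j hj
  have hneg : ∀ v, c v ≠ some (-1) := by
    intro v h
    rcases tri v with h1 | ⟨i, hi, rfl⟩ | h1
    · rw [cU v h1] at h
      exact absurd h (by simp)
    · rw [cS i hi] at h
      exact jn1 i hi (Option.some.inj h)
    · rw [cR v h1] at h
      have h2 := Option.some.inj h
      cases hq : q v
      · rw [hq] at h2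
        exact n31 h2
      · rw [hq] at h2
        exact n21 h2
  have hproper : Proper c := by
    intro v x h h'
    rcases tri v with h1 | ⟨i, hi, rfl⟩ | h1
    · rw [cU v h1] at h
      exact absurd h (by simp)
    · rw [cS i hi] at h
      rw [← Option.some.inj h, hs i hi] at h'
      exact sub_ne' (by omega) _ h'
    · rw [cR v h1] at h
      have h2 := Option.some.inj h
      rcases tri (v - 1) with h3 | ⟨i, hi, h3⟩ | h3
      · rw [cU _ h3] at h'
        exact absurd h' (by simp)
      · rw [← h3, cS i hi] at h'
        have h4 := Option.some.inj h'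
        rw [← h2] at h4
        cases hq : q v
        · rw [hq] at h4
          exact jn3 i hi h4
        · rw [hq] at h4
          exact jn2 i hi h4
      · rw [cR _ h3] at h'
        have h4 := Option.some.inj h'
        have h5 := hq1 _ h3
        rw [sub_add_cancel] at h5
        rw [← h2, h5] at h4
        cases hq : q (v - 1)
        · rw [hq] at h4
          exact n32 h4
        · rw [hq] at h4
          exact n32 h4.symm
  refine ⟨c, ?_, hproper, ?_, ?_, ?_⟩
  · intro v
    constructor
    · intro h
      rcases tri v with h1 | ⟨i, hi, rfl⟩ | h1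
      · exact h1
      · rw [cS i hi] at h
        exact absurd h (by simp)
      · rw [cR v h1] at h
        exact absurd h (by simp)
    · exact cU v
  · refine fg_alt (by omega) (by omega) hproper sp hs hneg q R hq1 hq2 cR ?_ r hr
    intro v hv
    rcases tri v with h1 | ⟨i, hi, rfl⟩ | h1
    · rw [cU v h1]
      simp
    · rw [cS i hi]
      constructor
      · exact fun h => jn2 i hi (Option.some.inj h)
      · exact fun h => jn3 i hi (Option.some.inj h)
    · exact absurd h1 hv
  · intro i hi h
    obtain ⟨j, hj, hj0, hjs⟩ := sp3 i hi h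
    exact ⟨j, hj0, hj, by rw [← hjs, cS j hj]⟩
  · intro v hv hv1 hv2
    rcases tri v with h1 | ⟨i, hi, rfl⟩ | h1
    · exact absurd h1 hv
    · obtain ⟨j, hj, hj'⟩ := sp4 i hi hv1
      exact absurd hj' (hv2 j hj)
    · rw [cR v h1]
      cases q v
      · exact Or.inr rfl
      · exact Or.inl rfl

/-- Distance to the previous vertex of `UU`. -/
theorem back_dist (ha : 7 ≤ a) (hb : 3 * a ≤ b) : ∃ D : ZMod b → ℕ, (∀ v, D v < b) ∧
    ∀ v, ¬ UU a w (v + 1) → D v < D (v + 1) := by
  classical
  have hex : ∀ v : ZMod b, ∃ k : ℕ, UU a w (v - k) := by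
    intro v
    refine ⟨(v - w 0).val, ?_⟩
    rw [ZMod.natCast_zmod_val]
    have : v - (v - w 0) = w 0 := by ring
    rw [this]
    unfold UU
    rw [w.symm_apply_apply, ZMod.val_zero]
    omega
  refine ⟨fun v => Nat.find (hex v), ?_, ?_⟩
  · intro v
    refine lt_of_le_of_lt (Nat.find_min' (hex v) (m := (v - w 0).val) ?_) (ZMod.val_lt _)
    rw [ZMod.natCast_zmod_val]
    have : v - (v - w 0) = w 0 := by ring
    rw [this]
    unfold UU
    rw [w.symm_apply_apply, ZMod.val_zero]
    omega
  · intro v hv
    have h1 := Nat.find_spec (hex (v + 1))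
    have h2 : Nat.find (hex (v + 1)) ≠ 0 := by
      intro h
      rw [h] at h1
      apply hv
      simpa using h1
    have h3 : UU a w (v - ((Nat.find (hex (v + 1)) - 1 : ℕ) : ZMod b)) := by
      have h4 : v - ((Nat.find (hex (v + 1)) - 1 : ℕ) : ZMod b) =
          v + 1 - (Nat.find (hex (v + 1)) : ZMod b) := by
        rw [Nat.cast_sub (by omega)]
        push_cast
        ring
      rw [h4]
      exact h1
    have h5 := Nat.find_min' (hex v) h3
    show Nat.find (hex v) < Nat.find (hex (v + 1))
    omega

theorem succ_idx {v : ZMod b} {n : ℕ} (hn : n < b) (h : (w.symm v).val + 1 = n) :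
    w.symm v + 1 = (n : ZMod b) ∧ (w.symm (w (w.symm v + 1))).val = n := by
  have h1 : w.symm v + 1 = (n : ZMod b) := by
    rw [← h, Nat.cast_add, ZMod.natCast_zmod_val, Nat.cast_one]
  refine ⟨h1, ?_⟩
  rw [w.symm_apply_apply, h1, ZMod.val_natCast_of_lt hn]

/-- **The product of a cycle with the union of two Hamilton cycles** is the union of three Hamilton
cycles. -/
theorem triple (ha : 7 ≤ a) (hb : 3 * a ≤ b) (hoa : Odd a) (hob : Odd b) :
    HD ((cyc a).boxProd (cyc b ⊔ (cyc b).comap w.symm)) 3 := by
  classical
  have hnza : NeZero a := ⟨by omega⟩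
  obtain ⟨c, cnone, cproper, chc, cs1, cs2⟩ := c1_exists w ha hb hoa hob
  obtain ⟨D, hD1, hD2⟩ := back_dist w ha hb
  obtain ⟨l1, hl1⟩ : ∃ l1 : ZMod b → ZMod a, ∀ v, ¬ UU a w v → c v = some (l1 v) := by
    refine ⟨fun v => (c v).getD 0, ?_⟩
    intro v hv
    cases h : c v with
    | none => exact absurd ((cnone v).1 h) hv
    | some x => simp [h]
  have e2 : (-2 : ZMod a) = -((2 : ℕ) : ZMod a) := by simp
  have e3 : (-3 : ZMod a) = -((3 : ℕ) : ZMod a) := by simp
  have jn2 : ∀ j < a - 3, (j : ZMod a) ≠ -2 := by
    intro j hj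
    rw [e2]
    exact cast_ne_neg (by norm_num) (by omega)
  have jn3 : ∀ j < a - 3, (j : ZMod a) ≠ -3 := by
    intro j hj
    rw [e3]
    exact cast_ne_neg (by norm_num) (by omega)
  -- labels at the vertices of the path
  have K : ∀ (v : ZMod b) (i : ℕ), ¬ UU a w v → i < a → v + 1 = w (i : ZMod b) →
      (∀ i', i = i' → i' < a - 1 → l1 v ≠ lab a i') ∧
      (∀ i', i = i' + 1 → l1 v ≠ lab a i') := by
    intro v i hv hi hvi
    have hUv : UU a w (v + 1) := by
      rw [hvi]
      unfold UU
      rw [idx_u w (by omega)]
      exact hi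
    by_cases hi3 : i < 3
    · have hv' : v = w (i : ZMod b) - 1 := by rw [← hvi]; ring
      obtain ⟨j, hj0, hj, hcj⟩ := cs1 i hi3 (by rw [← hv']; exact hv)
      rw [← hv', hl1 v hv] at hcj
      have hlj := Option.some.inj hcj
      rw [hlj]
      have h0 : (j : ZMod a) ≠ 0 := natCast_ne_zero_of_lt hj0 (by omega)
      have key : ∀ i' < 3, (j : ZMod a) ≠ lab a i' := by
        intro i' hi'
        match i', hi' with
        | 0, _ => exact jn2 j hj
        | 1, _ => exact jn3 j hj
        | 2, _ => simpa [lab] using h0
      exact ⟨fun i' h _ => key i' (by omega), fun i' h => key i' (by omega)⟩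
    · have h1 := cs2 v hv hUv (by
        intro i' hi' h
        rw [hvi] at h
        have := u_inj w (by omega) (by omega) h
        omega)
      have key : ∀ i', 2 ≤ i' → i' < a - 1 → l1 v ≠ lab a i' := by
        intro i' hi' hi''
        obtain ⟨m, rfl⟩ : ∃ m, i' = m + 2 := ⟨i' - 2, by omega⟩
        show l1 v ≠ (m : ZMod a)
        rw [hl1 v hv] at h1
        rcases h1 with h1 | h1
        · rw [Option.some.inj h1]
          exact (jn2 m (by omega)).symm
        · rw [Option.some.inj h1]
          exact (jn3 m (by omega)).symm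
      exact ⟨fun i' h h' => key i' (by omega) h', fun i' h => key i' (by omega) (by omega)⟩
  have hUw : ∀ v, UU a w v → v ≠ w ((a - 1 : ℕ) : ZMod b) → (w.symm v).val + 1 < a := by
    intro v hv hr
    have h1 : (w.symm v).val ≠ a - 1 := by
      intro h
      apply hr
      rw [← h, u_idx]
    unfold UU at hv
    omega
  -- the tree
  let T : Tree a (ZMod b) :=
    { r := w ((a - 1 : ℕ) : ZMod b)
      par := fun v => if UU a w v then w (w.symm v + 1) else v + 1
      l := fun v => if UU a w v then lab a (w.symm v).val else l1 v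
      rk := fun v => if UU a w v then b + (w.symm v).val else D v
      R := 2 * b
      rk_lt := by
        intro v hr
        by_cases hv : UU a w v
        · have h1 := hUw v hv hr
          obtain ⟨h2, h3⟩ := succ_idx w (v := v) (n := (w.symm v).val + 1) (by omega) rfl
          have h4 : UU a w (w (w.symm v + 1)) := by
            unfold UU
            rw [h3]
            exact h1
          simp only [hv, if_true, h4]
          rw [h3]
          omega
        · simp only [hv, if_false]
          by_cases hv1 : UU a w (v + 1)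
          · simp only [hv1, if_true]
            have := hD1 v
            omega
          · simp only [hv1, if_false]
            exact hD2 v hv1
      rk_le := by
        intro v
        split_ifs with h
        · have := ZMod.val_lt (w.symm v)
          omega
        · have := hD1 v
          omega
      prop1 := by
        intro v hr hpr
        by_cases hv : UU a w v
        · simp only [hv, if_true] at hpr ⊢
          have h1 := hUw v hv hr
          obtain ⟨h2, h3⟩ := succ_idx w (v := v) (n := (w.symm v).val + 1) (by omega) rfl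
          have h4 : UU a w (w (w.symm v + 1)) := by
            unfold UU
            rw [h3]
            exact h1
          have h5 := hUw _ h4 hpr
          rw [h3] at h5
          simp only [h4, if_true]
          rw [h3]
          intro h6
          have := lab_inj (by omega) (by omega) (by omega) h6
          omega
        · simp only [hv, if_false] at hpr ⊢
          by_cases hv1 : UU a w (v + 1)
          · simp only [hv1, if_true]
            have h5 := hUw _ hv1 hpr
            exact (K v (w.symm (v + 1)).val hv (by omega) (u_idx w (v + 1)).symm).1 _ rfl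
              (by omega)
          · simp only [hv1, if_false]
            intro h6
            have h7 := cproper (v + 1) (l1 (v + 1)) (hl1 _ hv1)
            rw [add_sub_cancel_right, ← h6] at h7
            exact h7 (hl1 v hv)
      prop2 := by
        have key : ∀ v z : ZMod b, v ≠ w ((a - 1 : ℕ) : ZMod b) → UU a w v → ¬ UU a w z →
            w (w.symm v + 1) = z + 1 → lab a (w.symm v).val ≠ l1 z := by
          intro v z hr hv hz h
          have h1 := hUw v hv hr
          obtain ⟨h2, h3⟩ := succ_idx w (v := v) (n := (w.symm v).val + 1) (by omega) rfl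
          have h4 : z + 1 = w (((w.symm v).val + 1 : ℕ) : ZMod b) := by
            rw [← h, h2]
          exact ((K z _ hz h1 h4).2 _ rfl).symm
        intro v z hvr hzr h1 h2
        by_cases hv : UU a w v
        · by_cases hz : UU a w z
          · simp only [hv, hz, if_true] at h1
            have := add_right_cancel (w.injective h1)
            exact w.symm.injective this
          · simp only [hv, hz, if_true, if_false] at h1 h2
            exact absurd h2 (key v z hvr hv hz h1)
        · by_cases hz : UU a w z
          · simp only [hv, hz, if_true, if_false] at h1 h2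
            exact absurd h2.symm (key z v hzr hz hv h1.symm)
          · simp only [hv, hz, if_false] at h1
            exact add_right_cancel h1 }
  have Tpar1 : ∀ v, UU a w v → T.par v = w (w.symm v + 1) := fun v hv => if_pos hv
  have Tpar2 : ∀ v, ¬ UU a w v → T.par v = v + 1 := fun v hv => if_neg hv
  have Tl1 : ∀ v, UU a w v → T.l v = lab a (w.symm v).val := fun v hv => if_pos hv
  have Tl2 : ∀ v, ¬ UU a w v → T.l v = l1 v := fun v hv => if_neg hv
  have Tr : T.r = w ((a - 1 : ℕ) : ZMod b) := rfl
  have hUr : UU a w T.r := by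
    unfold UU
    rw [Tr, idx_u w (by omega)]
    omega
  -- the three graphs
  obtain ⟨F2, hF2⟩ : ∃ F2 : SimpleGraph (ZMod a × ZMod b),
      F2 = (fg (c2 a b)).comap ((Equiv.refl (ZMod a)).prodCongr w).symm := ⟨_, rfl⟩
  have hF2hc : HC F2 := by
    rw [hF2]
    exact (c2_hc (by omega) (by omega)).map _
  have hF2adj : ∀ x y v z, F2.Adj (x, v) (y, z) ↔ (fg (c2 a b)).Adj (x, w.symm v) (y, w.symm z) := by
    intro x y v z
    rw [hF2]
    rfl
  have hWhc : HC (wg T.pt) := T.hc (by omega)
  obtain ⟨Y, hY⟩ : ∃ Y : SimpleGraph (ZMod a × ZMod b), Y = fg c ⊔ (F2 ⊔ wg T.pt) := ⟨_, rfl⟩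
  have hdec : HD Y 3 := by
    rw [hY]
    exact (HD.one chc).sup ((HD.one hF2hc).sup (HD.one hWhc))
  suffices h : (cyc a).boxProd (cyc b ⊔ (cyc b).comap w.symm) = Y by
    rw [h]; exact hdec
  have hc2p : Proper (c2 a b) := c2_proper (by omega) (by omega)
  -- tree edges of the first kind
  have TE1 : ∀ v x, c v = some x → T.E v (v + 1) x := by
    intro v x h
    have hv : ¬ UU a w v := by
      intro hv
      rw [(cnone v).2 hv] at h
      exact absurd h (by simp)
    left
    refine ⟨?_, (Tpar2 v hv).symm, ?_⟩
    · rintro rfl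
      exact hv hUr
    · rw [Tl2 v hv]
      rw [hl1 v hv] at h
      exact (Option.some.inj h).symm
  have TE2 : ∀ i x, c2 a b i = some x → T.E (w i) (w (i + 1)) x := by
    intro i x h
    unfold c2 at h
    split_ifs at h with h1
    have hv : UU a w (w i) := by
      unfold UU
      rw [w.symm_apply_apply]
      omega
    left
    refine ⟨?_, ?_, ?_⟩
    · rw [Tr]
      intro h2
      have h3 := w.injective h2
      rw [h3, ZMod.val_natCast_of_lt (by omega)] at h1
      omega
    · rw [Tpar1 _ hv, w.symm_apply_apply]
    · rw [Tl1 _ hv, w.symm_apply_apply]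
      exact (Option.some.inj h).symm
  have Ycases : ∀ v z x, T.E v z x → (c v = some x ∧ z = v + 1) ∨ (c z = some x ∧ v = z + 1) ∨
      (c2 a b (w.symm v) = some x ∧ z = w (w.symm v + 1)) ∨
      (c2 a b (w.symm z) = some x ∧ v = w (w.symm z + 1)) := by
    have key : ∀ v z x, v ≠ T.r → z = T.par v → x = T.l v → (c v = some x ∧ z = v + 1) ∨
        (c2 a b (w.symm v) = some x ∧ z = w (w.symm v + 1)) := by
      intro v z x hr hz hx
      by_cases hv : UU a w v
      · right
        have h1 := hUw v hv hr
        refine ⟨?_, by rw [hz, Tpar1 v hv]⟩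
        unfold c2
        rw [if_pos (by omega), hx, Tl1 v hv]
      · left
        exact ⟨by rw [hl1 v hv, hx, Tl2 v hv], by rw [hz, Tpar2 v hv]⟩
    intro v z x h
    rcases h with ⟨h1, h2, h3⟩ | ⟨h1, h2, h3⟩
    · rcases key v z x h1 h2 h3 with h | h
      · exact Or.inl h
      · exact Or.inr (Or.inr (Or.inl h))
    · rcases key z v x h1 h2 h3 with h | h
      · exact Or.inr (Or.inl h)
      · exact Or.inr (Or.inr (Or.inr h))
  -- vertical edges
  have vert : ∀ x v, Y.Adj (x, v) (x + 1, v) := by
    intro x v
    rw [hY, sup_adj, sup_adj]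
    by_cases h : ∀ z, ¬ T.E v z x
    · exact Or.inr (Or.inr (T.up (by omega) h))
    · push Not at h
      obtain ⟨z, hz⟩ := h
      rcases Ycases v z x hz with ⟨h1, _⟩ | ⟨h1, h2⟩ | ⟨h1, _⟩ | ⟨h1, h2⟩
      · exact Or.inl (fg_up (by omega) (by omega) cproper x v h1)
      · left
        rw [h2]
        exact fg_up' (by omega) (by omega) cproper x z h1
      · right; left
        rw [hF2adj]
        exact fg_up (by omega) (by omega) hc2p x _ h1
      · right; left
        rw [hF2adj, h2, w.symm_apply_apply]
        exact fg_up' (by omega) (by omega) hc2p x _ h1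
  have hor1 : ∀ x v, Y.Adj (x, v) (x, v + 1) := by
    intro x v
    rw [hY, sup_adj, sup_adj]
    by_cases h1 : c v = some x
    · right; right
      exact (T.hor (by omega) (TE1 v x h1)).1
    · by_cases h2 : c v = some (x - 1)
      · right; right
        have := (T.hor (by omega) (TE1 v _ h2)).2
        rw [sub_add_cancel] at this
        exact this
      · exact Or.inl (fg_hor (by omega) (by omega) cproper x v h1 h2)
  have hor2 : ∀ x i, Y.Adj (x, w i) (x, w (i + 1)) := by
    intro x i
    rw [hY, sup_adj, sup_adj]
    by_cases h1 : c2 a b i = some x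
    · right; right
      exact (T.hor (by omega) (TE2 i x h1)).1
    · by_cases h2 : c2 a b i = some (x - 1)
      · right; right
        have := (T.hor (by omega) (TE2 i _ h2)).2
        rw [sub_add_cancel] at this
        exact this
      · right; left
        rw [hF2adj, w.symm_apply_apply, w.symm_apply_apply]
        exact fg_hor (by omega) (by omega) hc2p x i h1 h2
  -- the other inclusion
  have X1 : ∀ x v, ((cyc a).boxProd (cyc b ⊔ (cyc b).comap w.symm)).Adj (x, v) (x + 1, v) := by
    intro x v
    rw [boxProd_adj, cyc_adj (by omega)]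
    exact Or.inl ⟨Or.inl rfl, rfl⟩
  have X2 : ∀ x v, ((cyc a).boxProd (cyc b ⊔ (cyc b).comap w.symm)).Adj (x, v) (x, v + 1) := by
    intro x v
    rw [boxProd_adj, sup_adj, cyc_adj (n := b) (by omega) v _]
    exact Or.inr ⟨Or.inl (Or.inl rfl), rfl⟩
  have X3 : ∀ x i, ((cyc a).boxProd (cyc b ⊔ (cyc b).comap w.symm)).Adj (x, w i) (x, w (i + 1)) := by
    intro x i
    rw [boxProd_adj, sup_adj, comap_adj, cyc_adj (n := b) (by omega) (w.symm (w i)) _,
      w.symm_apply_apply, w.symm_apply_apply]
    exact Or.inr ⟨Or.inr (Or.inl rfl), rfl⟩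
  have fgX : ∀ (c' : ZMod b → Option (ZMod a)) (g : ZMod b ≃ ZMod b) (hp : Proper c')
      (hX : ∀ x i, ((cyc a).boxProd (cyc b ⊔ (cyc b).comap w.symm)).Adj (x, g i) (x, g (i + 1)))
      (x y : ZMod a) (v z : ZMod b), (fg c').Adj (x, v) (y, z) →
      ((cyc a).boxProd (cyc b ⊔ (cyc b).comap w.symm)).Adj (x, g v) (y, g z) := by
    intro c' g hp hX x y v z h
    rw [(fg_slot (by omega) (by omega) hp).1] at h
    simp only at h
    rcases h with h | h <;> split_ifs at h <;> rw [Prod.mk.injEq] at h <;> obtain ⟨rfl, rfl⟩ := h
    · exact X1 _ _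
    · have := X1 (x - 1) (g z)
      rw [sub_add_cancel] at this
      exact this.symm
    · exact hX _ _
    · exact X1 _ _
    · have := X1 (x - 1) (g z)
      rw [sub_add_cancel] at this
      exact this.symm
    · have := hX y (v - 1)
      rw [sub_add_cancel] at this
      exact this.symm
  have TX : ∀ v z x y, T.E v z x →
      ((cyc a).boxProd (cyc b ⊔ (cyc b).comap w.symm)).Adj (y, v) (y, z) := by
    intro v z x y h
    rcases Ycases v z x h with ⟨_, rfl⟩ | ⟨_, rfl⟩ | ⟨_, h2⟩ | ⟨_, h2⟩
    · exact X2 _ _
    · exact (X2 _ _).symm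
    · have := X3 y (w.symm v)
      rw [w.apply_symm_apply] at this
      rw [h2]
      exact this
    · have := X3 y (w.symm z)
      rw [w.apply_symm_apply] at this
      rw [h2]
      exact this.symm
  ext ⟨x, v⟩ ⟨y, z⟩
  constructor
  · intro h
    rw [boxProd_adj, sup_adj, comap_adj, cyc_adj (by omega), cyc_adj (by omega),
      cyc_adj (n := b) (by omega) (w.symm v) _] at h
    simp only at h
    rcases h with ⟨h | h, h'⟩ | ⟨(h | h) | (h | h), h'⟩
    · subst h h'
      exact vert x v
    · subst h h'
      exact (vert y v).symm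
    · subst h h'
      exact hor1 x v
    · subst h h'
      exact (hor1 x z).symm
    · subst h'
      have := hor2 x (w.symm v)
      rw [← h, w.apply_symm_apply, w.apply_symm_apply] at this
      exact this
    · subst h'
      have := hor2 x (w.symm z)
      rw [← h, w.apply_symm_apply, w.apply_symm_apply] at this
      exact this.symm
  · intro h
    rw [hY, sup_adj, sup_adj] at h
    rcases h with h | h | h
    · exact fgX c (Equiv.refl _) cproper (fun x i => X2 x i) x y v z h
    · rw [hF2adj] at h
      have := fgX (c2 a b) w hc2p X3 x y _ _ h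
      rw [w.apply_symm_apply, w.apply_symm_apply] at this
      exact this
    · rw [(T.slot (by omega)).1] at h
      simp only at h
      rcases h with h | h
      · cases hp : T.pt v x with
        | none =>
          rw [hp] at h
          simp only [Prod.mk.injEq] at h
          obtain ⟨rfl, rfl⟩ := h
          exact X1 _ _
        | some u =>
          rw [hp] at h
          simp only [Prod.mk.injEq] at h
          obtain ⟨rfl, rfl⟩ := h
          exact TX _ _ _ _ ((T.pt_some _ _ _).1 hp)
      · cases hp : T.pt v (x - 1) with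
        | none =>
          rw [hp] at h
          simp only [Prod.mk.injEq] at h
          obtain ⟨rfl, rfl⟩ := h
          have := X1 (x - 1) z
          rw [sub_add_cancel] at this
          exact this.symm
        | some u =>
          rw [hp] at h
          simp only [Prod.mk.injEq] at h
          obtain ⟨rfl, rfl⟩ := h
          exact TX _ _ _ _ ((T.pt_some _ _ _).1 hp)

end triple

end Pool.Agent.T9h44.LA
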