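import Mathlib

set_option autoImplicit false

/-!
# Hamilton cycles as graphs
-/

namespace Pool.Agent.T9h44.LA

open SimpleGraph

/-- The graph `F` is a Hamilton cycle of its vertex set. -/
def HC {V : Type} (F : SimpleGraph V) : Prop :=
  F.Connected ∧ ∀ v, (F.neighborSet v).ncard = 2

theorem zmod_two_ne {n : ℕ} (hn : 3 ≤ n) (u : ZMod n) : u + 1 ≠ u - 1 := by
  intro h
  have h1 : ((2 : ℕ) : ZMod n) = 0 := by
    have : (2 : ZMod n) = (u + 1) - (u - 1) := by ring
    push_cast
    rw [this, h]
    ring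
  rw [ZMod.natCast_eq_zero_iff] at h1
  have := Nat.le_of_dvd (by norm_num) h1
  omega

theorem zmod_one_ne {n : ℕ} (hn : 2 ≤ n) (u : ZMod n) : u + 1 ≠ u := by
  intro h
  have h1 : ((1 : ℕ) : ZMod n) = 0 := by
    have : (1 : ZMod n) = (u + 1) - u := by ring
    push_cast
    rw [this, h]
    ring
  rw [ZMod.natCast_eq_zero_iff] at h1
  have := Nat.le_of_dvd (by norm_num) h1
  omega

theorem nb_of_param {V : Type} [Finite V] {F : SimpleGraph V} {n : ℕ} (hn : 3 ≤ n)
    (f : ZMod n ≃ V) (hF : ∀ v, (F.neighborSet v).ncard = 2)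
    (h : ∀ t, F.Adj (f t) (f (t + 1))) (u v : ZMod n) :
    F.Adj (f u) (f v) ↔ (v = u + 1 ∨ u = v + 1) := by
  have h1 : ({f (u + 1), f (u - 1)} : Set V) ⊆ F.neighborSet (f u) := by
    intro x hx
    rcases hx with rfl | hx
    · exact h u
    · rw [Set.mem_singleton_iff] at hx
      rw [hx]
      have := h (u - 1)
      rw [sub_add_cancel] at this
      exact this.symm
  have h2 : ({f (u + 1), f (u - 1)} : Set V).ncard = 2 := by
    apply Set.ncard_pair
    intro h3
    exact zmod_two_ne hn u (f.injective h3)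
  have h3 : ({f (u + 1), f (u - 1)} : Set V) = F.neighborSet (f u) :=
    Set.eq_of_subset_of_ncard_le h1 (by rw [h2, hF]) (Set.toFinite _)
  constructor
  · intro h4
    have h5 : f v ∈ ({f (u + 1), f (u - 1)} : Set V) := by rw [h3]; exact h4
    rcases h5 with h6 | h6
    · exact Or.inl (f.injective h6)
    · right
      have := f.injective (Set.mem_singleton_iff.1 h6)
      rw [this]
      ring
  · rintro (rfl | rfl)
    · exact h u
    · exact (h v).symm

theorem HC.param {V : Type} [Finite V] {F : SimpleGraph V} (h : HC F) :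
    3 ≤ Nat.card V ∧ ∃ f : ZMod (Nat.card V) ≃ V,
      ∀ u v, F.Adj (f u) (f v) ↔ (v = u + 1 ∨ u = v + 1) := by
  obtain ⟨n, hn, f, hf⟩ : ∃ n, 3 ≤ n ∧ ∃ f : ZMod n ≃ V,
      ∀ u v, F.Adj (f u) (f v) ↔ (v = u + 1 ∨ u = v + 1) := by
    have hne : Nonempty V := h.1.nonempty
    obtain ⟨v0⟩ := hne
    have hcyc : F.IsCycles := fun v _ => h.2 v
    have hn : (F.neighborSet v0).Nonempty := by
      rw [← Set.ncard_pos, h.2 v0]
      norm_num
    obtain ⟨p, hp, hverts⟩ := hcyc.exists_cycle_toSubgraph_verts_eq_connectedComponentSupp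
      (c := F.connectedComponentMk v0) rfl hn
    have hsupp : ∀ v, v ∈ p.support := by
      intro v
      rw [← Walk.mem_verts_toSubgraph, hverts]
      exact ConnectedComponent.sound (h.1.preconnected v v0)
    have h3 := hp.three_le_length
    have hnz : NeZero p.length := ⟨by omega⟩
    have hinj : Function.Injective (fun t : ZMod p.length => p.getVert t.val) := by
      intro s t hst
      have h4 := hp.getVert_injOn' (show s.val ≤ p.length - 1 from by
        have := ZMod.val_lt s
        omega) (show t.val ≤ p.length - 1 from by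
        have := ZMod.val_lt t
        omega) hst
      exact ZMod.val_injective _ h4
    have hsurj : Function.Surjective (fun t : ZMod p.length => p.getVert t.val) := by
      intro v
      obtain ⟨i, hi, hil⟩ := Walk.mem_support_iff_exists_getVert.1 (hsupp v)
      by_cases h5 : i = p.length
      · refine ⟨0, ?_⟩
        simp only [ZMod.val_zero, Walk.getVert_zero]
        rw [← hi, h5, Walk.getVert_length]
      · refine ⟨(i : ZMod p.length), ?_⟩
        simp only
        rw [ZMod.val_natCast_of_lt (by omega), hi]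
    refine ⟨p.length, h3, Equiv.ofBijective _ ⟨hinj, hsurj⟩, ?_⟩
    intro u v
    apply nb_of_param h3 _ h.2
    intro t
    rw [Equiv.ofBijective_apply, Equiv.ofBijective_apply]
    have h4 := p.adj_getVert_succ (ZMod.val_lt t)
    have h5 : p.getVert (t + 1).val = p.getVert (t.val + 1) := by
      by_cases h6 : t.val + 1 < p.length
      · have h7 : t + 1 = ((t.val + 1 : ℕ) : ZMod p.length) := by
          rw [Nat.cast_add, ZMod.natCast_zmod_val, Nat.cast_one]
        rw [h7, ZMod.val_natCast_of_lt h6]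
      · have h7 : t.val + 1 = p.length := by
          have := ZMod.val_lt t
          omega
        have h8 : t + 1 = 0 := by
          have h9 : ((t.val + 1 : ℕ) : ZMod p.length) = 0 := by
            rw [h7]
            exact ZMod.natCast_self _
          rw [Nat.cast_add, ZMod.natCast_zmod_val, Nat.cast_one] at h9
          exact h9
        rw [h8, h7, ZMod.val_zero, Walk.getVert_zero, Walk.getVert_length]
    rw [h5]
    exact h4
  have h1 : Nat.card V = n := by
    have : NeZero n := ⟨by omega⟩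
    rw [← Nat.card_congr f, Nat.card_zmod]
  rw [h1]
  exact ⟨hn, f, hf⟩

/-- A graph given by two slots at each vertex. -/
def slot {P : Type} (n0 n1 : P → P) : SimpleGraph P where
  Adj u v := u ≠ v ∧ ((v = n0 u ∨ v = n1 u) ∧ (u = n0 v ∨ u = n1 v))
  symm := ⟨fun u v h => ⟨h.1.symm, h.2.2, h.2.1⟩⟩
  loopless := ⟨fun u h => h.1 rfl⟩

theorem slot_nb {P : Type} (n0 n1 : P → P) (h0 : ∀ u, n0 u ≠ u) (h1 : ∀ u, n1 u ≠ u)
    (h01 : ∀ u, n0 u ≠ n1 u) (s0 : ∀ u, n0 (n0 u) = u ∨ n1 (n0 u) = u)
    (s1 : ∀ u, n0 (n1 u) = u ∨ n1 (n1 u) = u) :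
    (∀ u v, (slot n0 n1).Adj u v ↔ (v = n0 u ∨ v = n1 u)) ∧
      ∀ u, ((slot n0 n1).neighborSet u).ncard = 2 := by
  have key : ∀ u v, (slot n0 n1).Adj u v ↔ (v = n0 u ∨ v = n1 u) := by
    intro u v
    constructor
    · intro h
      exact h.2.1
    · rintro (rfl | rfl)
      · refine ⟨(h0 u).symm, Or.inl rfl, ?_⟩
        rcases s0 u with h | h
        · exact Or.inl h.symm
        · exact Or.inr h.symm
      · refine ⟨(h1 u).symm, Or.inr rfl, ?_⟩
        rcases s1 u with h | h
        · exact Or.inl h.symm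
        · exact Or.inr h.symm
  refine ⟨key, fun u => ?_⟩
  have h2 : (slot n0 n1).neighborSet u = {n0 u, n1 u} := by
    ext v
    rw [mem_neighborSet, key]
    simp
  rw [h2]
  exact Set.ncard_pair (h01 u)

/-- `G` is the union of `h` Hamilton cycles. -/
def HD {V : Type} (G : SimpleGraph V) (h : ℕ) : Prop :=
  ∃ (κ : Type) (_ : Fintype κ) (F : κ → SimpleGraph V), Fintype.card κ = h ∧
    (∀ i, HC (F i)) ∧ G = ⨆ i, F i

theorem HD.one {V : Type} {F : SimpleGraph V} (h : HC F) : HD F 1 :=
  ⟨Unit, inferInstance, fun _ => F, by simp, fun _ => h, by simp⟩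

theorem HD.iSup {V ι : Type} [Fintype ι] (G : ι → SimpleGraph V) (h : ι → ℕ)
    (hG : ∀ i, HD (G i) (h i)) : HD (⨆ i, G i) (∑ i, h i) := by
  choose κ inst F hc hF hGF using hG
  refine ⟨Σ i, κ i, inferInstance, fun x => F x.1 x.2, ?_, fun x => hF x.1 x.2, ?_⟩
  · rw [Fintype.card_sigma]
    exact Finset.sum_congr rfl fun i _ => hc i
  · rw [iSup_sigma]
    exact iSup_congr fun i => hGF i

theorem HD.sup {V : Type} {G G' : SimpleGraph V} {h h' : ℕ} (hG : HD G h) (hG' : HD G' h') :
    HD (G ⊔ G') (h + h') := by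
  have h1 := HD.iSup (fun b : Bool => bif b then G else G') (fun b => bif b then h else h') (by
    intro b
    cases b
    · exact hG'
    · exact hG)
  rw [iSup_bool_eq, Fintype.sum_bool] at h1
  exact h1

theorem HC.map {V W : Type} {F : SimpleGraph V} (e : V ≃ W) (h : HC F) :
    HC (F.comap e.symm) := by
  have iso : F.comap e.symm ≃g F := ⟨e.symm, by intro a b; rfl⟩
  refine ⟨iso.connected_iff.2 h.1, fun v => ?_⟩
  rw [← h.2 (e.symm v)]
  refine Set.ncard_congr (fun a _ => e.symm a) ?_ ?_ ?_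
  · intro a ha
    exact ha
  · intro a b _ _ hab
    exact e.symm.injective hab
  · intro b hb
    refine ⟨e b, ?_, by simp⟩
    show F.Adj (e.symm v) (e.symm (e b))
    rw [e.symm_apply_apply]
    exact hb

theorem HD.map {V W : Type} {G : SimpleGraph V} {h : ℕ} (e : V ≃ W) (hG : HD G h) :
    HD (G.comap e.symm) h := by
  obtain ⟨κ, inst, F, hc, hF, rfl⟩ := hG
  refine ⟨κ, inst, fun i => (F i).comap e.symm, hc, fun i => (hF i).map e, ?_⟩
  ext a b
  simp only [comap_adj, iSup_adj]

end Pool.Agent.T9h44.LA
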