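import Pool.Agent.T9h44.LA.Ind

set_option autoImplicit false

/-!
# Independence in the group of elements of order dividing `p`
-/

namespace Pool.Agent.T9h44.LA

open Finset Module

section vec

variable {Γ : Type} [AddCommGroup Γ]

/-- The elements killed by `p`. -/
def ptor (Γ : Type) [AddCommGroup Γ] (p : ℕ) : AddSubgroup Γ :=
  (nsmulAddMonoidHom p : Γ →+ Γ).ker

theorem mem_ptor {p : ℕ} {x : Γ} : x ∈ ptor Γ p ↔ p • x = 0 := by
  unfold ptor
  rw [AddMonoidHom.mem_ker]
  rfl

noncomputable instance ptorMod (p : ℕ) : Module (ZMod p) (ptor Γ p) :=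
  AddCommGroup.zmodModule (by
    intro x
    apply Subtype.ext
    have := mem_ptor.1 x.2
    simpa using this)

theorem comb_apply {N j : ℕ} [NeZero N] (t : Fin j → Γ) (ht : ∀ i, N • t i = 0)
    (x : Fin j → ZMod N) : comb t ht x = ∑ i, (x i).val • t i := by
  unfold comb
  rw [AddMonoidHom.finsetSum_apply]
  refine sum_congr rfl fun i _ => ?_
  rw [AddMonoidHom.comp_apply]
  have h1 := ZMod.lift_coe N ⟨zmultiplesHom Γ (t i), by
    rw [zmultiplesHom_apply, natCast_zsmul]
    exact ht i⟩ ((x i).val : ℤ)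
  rw [Int.cast_natCast, ZMod.natCast_zmod_val] at h1
  rw [Pi.evalAddMonoidHom_apply, h1]
  rw [zmultiplesHom_apply, natCast_zsmul]

theorem comb_key {p e j : ℕ} (hp : p.Prime) (he : 1 ≤ e) (t : Fin j → Γ)
    (ht : ∀ i, p ^ e • t i = 0) (v : Fin j → ptor Γ p)
    (hv : ∀ i, (v i : Γ) = p ^ (e - 1) • t i) (hli : LinearIndependent (ZMod p) v)
    (z : Fin j → ZMod (p ^ e)) (hz : comb t ht z = 0) (hpz : p • z = 0) : z = 0 := by
  have hnz : NeZero (p ^ e) := ⟨(pow_pos hp.pos _).ne'⟩
  have hpe : p ^ e = p ^ (e - 1) * p := by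
    rw [← pow_succ]
    congr 1
    omega
  have h1 : ∀ i, ∃ c, (z i).val = p ^ (e - 1) * c := by
    intro i
    have h2 : (((z i).val * p : ℕ) : ZMod (p ^ e)) = 0 := by
      rw [Nat.cast_mul, ZMod.natCast_zmod_val]
      have h3 := congrFun hpz i
      rw [Pi.smul_apply, nsmul_eq_mul, Pi.zero_apply] at h3
      rw [mul_comm]
      exact h3
    rw [ZMod.natCast_eq_zero_iff] at h2
    obtain ⟨k, hk⟩ := h2
    refine ⟨k, ?_⟩
    have h4 : p ^ e * k = p ^ (e - 1) * p * k := by rw [hpe]
    have : p * (z i).val = p * (p ^ (e - 1) * k) := by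
      rw [mul_comm p, hk, h4]; ring
    exact Nat.eq_of_mul_eq_mul_left hp.pos this
  choose c hc using h1
  rw [comb_apply] at hz
  have h2 : ∑ i, (c i : ZMod p) • v i = 0 := by
    apply Subtype.ext
    rw [AddSubgroup.val_finsetSum, AddSubgroup.coe_zero, ← hz]
    refine sum_congr rfl fun i _ => ?_
    rw [Nat.cast_smul_eq_nsmul, AddSubgroup.coe_nsmul, hv, hc, smul_smul, mul_comm]
  have h3 := Fintype.linearIndependent_iff.1 hli _ h2
  funext i
  have h4 := h3 i
  rw [ZMod.natCast_eq_zero_iff] at h4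
  obtain ⟨k, hk⟩ := h4
  have h5 : (z i).val = p ^ e * k := by
    rw [hc, hk, hpe]; ring
  have h6 := ZMod.val_lt (z i)
  rw [h5] at h6
  have h7 : k = 0 := by
    by_contra hne
    have : 1 ≤ k := Nat.one_le_iff_ne_zero.2 hne
    have : p ^ e * 1 ≤ p ^ e * k := Nat.mul_le_mul_left _ this
    omega
  rw [h7, mul_zero] at h5
  rw [Pi.zero_apply]
  exact (ZMod.val_eq_zero _).1 h5

/-- Elements of order `p ^ e` whose `p ^ (e - 1)`-multiples are linearly independent generate a
direct sum of cyclic groups. -/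
theorem comb_inj {p e j : ℕ} (hp : p.Prime) (he : 1 ≤ e) (t : Fin j → Γ)
    (ht : ∀ i, p ^ e • t i = 0) (v : Fin j → ptor Γ p)
    (hv : ∀ i, (v i : Γ) = p ^ (e - 1) • t i) (hli : LinearIndependent (ZMod p) v) :
    Function.Injective (comb t ht) := by
  rw [injective_iff_map_eq_zero]
  intro x hx
  have h1 : ∀ f, p ^ f • x = 0 → x = 0 := by
    intro f
    induction f with
    | zero => intro h; rwa [pow_zero, one_smul] at h
    | succ f ih =>
      intro h
      apply ih
      apply comb_key hp he t ht v hv hli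
      · rw [map_nsmul, hx, smul_zero]
      · rw [smul_smul, ← pow_succ']
        exact h
  apply h1 e
  funext i
  rw [Pi.smul_apply, nsmul_eq_mul, ZMod.natCast_self, zero_mul, Pi.zero_apply]

end vec

end Pool.Agent.T9h44.LA
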