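import Pool.Agent.T9h44.LA.FG

set_option autoImplicit false

/-!
# Copies of a cycle, merged along the edges of a tree
-/

namespace Pool.Agent.T9h44.LA

open SimpleGraph

section wg

variable {a : ℕ} {V : Type}

/-- The cycles `ℤ/a × {v}`; if `pt v x = some w`, then the edges between the layers `x` and `x + 1` at
`v` and `w` are replaced by the edges `v w` in these layers. -/
def wg (pt : V → ZMod a → Option V) : SimpleGraph (ZMod a × V) :=
  slot (fun u => match pt u.2 u.1 with
      | some w => (u.1, w)
      | none => (u.1 + 1, u.2))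
    (fun u => match pt u.2 (u.1 - 1) with
      | some w => (u.1, w)
      | none => (u.1 - 1, u.2))

theorem wg_slot (ha : 3 ≤ a) {pt : V → ZMod a → Option V}
    (p1 : ∀ v x w, pt v x = some w → pt w x = some v) (p2 : ∀ v x w, pt v x = some w → w ≠ v)
    (p3 : ∀ v x x' w, pt v x = some w → pt v x' = some w → x = x') :
    (∀ u v, (wg pt).Adj u v ↔
      (v = (match pt u.2 u.1 with
        | some w => (u.1, w)
        | none => (u.1 + 1, u.2)) ∨
      v = (match pt u.2 (u.1 - 1) with
        | some w => (u.1, w)
        | none => (u.1 - 1, u.2)))) ∧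
      ∀ u, ((wg pt).neighborSet u).ncard = 2 := by
  apply slot_nb
  · rintro ⟨x, v⟩
    simp only
    cases h : pt v x with
    | none => exact fun h' => zmod_one_ne (by omega) x (congrArg Prod.fst h')
    | some w => exact fun h' => p2 v x w h (congrArg Prod.snd h')
  · rintro ⟨x, v⟩
    simp only
    cases h : pt v (x - 1) with
    | none => exact fun h' => sub_ne' (by omega) x (congrArg Prod.fst h')
    | some w => exact fun h' => p2 v _ w h (congrArg Prod.snd h')
  · rintro ⟨x, v⟩
    simp only
    cases h : pt v x with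
    | none =>
      cases h' : pt v (x - 1) with
      | none => exact fun h' => zmod_two_ne ha x (congrArg Prod.fst h')
      | some w => exact fun h'' => zmod_one_ne (by omega) x (congrArg Prod.fst h'')
    | some w =>
      cases h' : pt v (x - 1) with
      | none => exact fun h'' => sub_ne' (by omega) x (congrArg Prod.fst h'').symm
      | some w' =>
        intro h''
        have h3 : w = w' := congrArg Prod.snd h''
        rw [← h3] at h'
        exact sub_ne' (by omega) x (p3 v x (x - 1) w h h').symm
  · rintro ⟨x, v⟩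
    simp only
    cases h : pt v x with
    | none =>
      right
      simp only [add_sub_cancel_right, h]
    | some w =>
      left
      simp only [p1 v x w h]
  · rintro ⟨x, v⟩
    simp only
    cases h : pt v (x - 1) with
    | none =>
      left
      simp only [h, sub_add_cancel]
    | some w =>
      right
      simp only [p1 v _ w h]

/-- the data of a labelled rooted tree -/
structure Tree (a : ℕ) (V : Type) where
  r : V
  par : V → V
  l : V → ZMod a
  rk : V → ℕ
  R : ℕ
  rk_lt : ∀ v, v ≠ r → rk v < rk (par v)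
  rk_le : ∀ v, rk v ≤ R
  prop1 : ∀ v, v ≠ r → par v ≠ r → l v ≠ l (par v)
  prop2 : ∀ v w, v ≠ r → w ≠ r → par v = par w → l v = l w → v = w

variable (T : Tree a V)

/-- labelled edges of the tree -/
def Tree.E (v w : V) (x : ZMod a) : Prop :=
  (v ≠ T.r ∧ w = T.par v ∧ x = T.l v) ∨ (w ≠ T.r ∧ v = T.par w ∧ x = T.l w)

theorem Tree.E_symm {v w : V} {x : ZMod a} (h : T.E v w x) : T.E w v x := h.symm

theorem Tree.E_uniq {v w w' : V} {x : ZMod a} (h : T.E v w x) (h' : T.E v w' x) : w = w' := by
  rcases h with ⟨h1, h2, h3⟩ | ⟨h1, h2, h3⟩ <;> rcases h' with ⟨h1', h2', h3'⟩ | ⟨h1', h2', h3'⟩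
  · rw [h2, h2']
  · exfalso
    have := T.prop1 w' h1' (by rw [← h2']; exact h1)
    rw [← h2', ← h3, ← h3'] at this
    exact this rfl
  · exfalso
    have := T.prop1 w h1 (by rw [← h2]; exact h1')
    rw [← h2, ← h3, ← h3'] at this
    exact this rfl
  · exact T.prop2 w w' h1 h1' (by rw [← h2, ← h2']) (by rw [← h3, ← h3'])

open Classical in
/-- partner of `v` with respect to the label `x` -/
noncomputable def Tree.pt (v : V) (x : ZMod a) : Option V :=
  if h : ∃ w, T.E v w x then some h.choose else none

theorem Tree.pt_some (v : V) (x : ZMod a) (w : V) : T.pt v x = some w ↔ T.E v w x := by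
  classical
  unfold Tree.pt
  by_cases h : ∃ w, T.E v w x
  · rw [dif_pos h]
    constructor
    · intro h1
      have := h.choose_spec
      rw [Option.some.inj h1] at this
      exact this
    · intro h1
      rw [T.E_uniq h1 h.choose_spec]
  · rw [dif_neg h]
    constructor
    · intro h1
      exact absurd h1 (by simp)
    · intro h1
      exact absurd ⟨w, h1⟩ h

theorem Tree.pt_none (v : V) (x : ZMod a) : T.pt v x = none ↔ ∀ w, ¬ T.E v w x := by
  constructor
  · intro h w hw
    rw [(T.pt_some v x w).2 hw] at h
    exact absurd h (by simp)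
  · intro h
    cases h1 : T.pt v x with
    | none => rfl
    | some w => exact absurd ((T.pt_some v x w).1 h1) (h w)

theorem Tree.rk_ne {v w : V} {x : ZMod a} (h : T.E v w x) : T.rk v ≠ T.rk w := by
  rcases h with ⟨h1, h2, _⟩ | ⟨h1, h2, _⟩
  · have := T.rk_lt v h1
    rw [← h2] at this
    omega
  · have := T.rk_lt w h1
    rw [← h2] at this
    omega

theorem Tree.slot (ha : 3 ≤ a) :
    (∀ u v, (wg T.pt).Adj u v ↔
      (v = (match T.pt u.2 u.1 with
        | some w => (u.1, w)
        | none => (u.1 + 1, u.2)) ∨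
      v = (match T.pt u.2 (u.1 - 1) with
        | some w => (u.1, w)
        | none => (u.1 - 1, u.2)))) ∧
      ∀ u, ((wg T.pt).neighborSet u).ncard = 2 := by
  apply wg_slot ha
  · intro v x w h
    rw [T.pt_some] at h ⊢
    exact T.E_symm h
  · intro v x w h
    rw [T.pt_some] at h
    rintro rfl
    exact T.rk_ne h rfl
  · intro v x x' w h h'
    rw [T.pt_some] at h h'
    rcases h with ⟨h1, h2, h3⟩ | ⟨h1, h2, h3⟩ <;>
      rcases h' with ⟨h1', h2', h3'⟩ | ⟨h1', h2', h3'⟩
    · rw [h3, h3']
    · exfalso
      have e1 := T.rk_lt v h1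
      have e2 := T.rk_lt w h1'
      rw [← h2] at e1
      rw [← h2'] at e2
      omega
    · exfalso
      have e1 := T.rk_lt w h1
      have e2 := T.rk_lt v h1'
      rw [← h2] at e1
      rw [← h2'] at e2
      omega
    · rw [h3, h3']

theorem Tree.up (ha : 3 ≤ a) {v : V} {x : ZMod a} (h : ∀ w, ¬ T.E v w x) :
    (wg T.pt).Adj (x, v) (x + 1, v) := by
  rw [(T.slot ha).1]
  left
  simp only [(T.pt_none v x).2 h]

theorem Tree.hor (ha : 3 ≤ a) {v w : V} {x : ZMod a} (h : T.E v w x) :
    (wg T.pt).Adj (x, v) (x, w) ∧ (wg T.pt).Adj (x + 1, v) (x + 1, w) := by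
  constructor
  · rw [(T.slot ha).1]
    left
    simp only [(T.pt_some v x w).2 h]
  · rw [(T.slot ha).1]
    right
    simp only [add_sub_cancel_right, (T.pt_some v x w).2 h]

theorem Tree.hc (ha : 3 ≤ a) : HC (wg T.pt) := by
  have hnz : NeZero a := ⟨by omega⟩
  refine ⟨?_, (T.slot ha).2⟩
  -- columns
  have link : ∀ (n : ℕ) (v : V), T.rk v = n → ∀ x, (v = T.r ∨ x ≠ T.l v) →
      (wg T.pt).Reachable (x, v) (x + 1, v) := by
    intro n
    induction n using Nat.strong_induction_on with
    | _ n ih =>
      intro v hv x hx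
      by_cases h : ∀ w, ¬ T.E v w x
      · exact (T.up ha h).reachable
      · push Not at h
        obtain ⟨w, hw⟩ := h
        have hw' := hw
        rcases hw with ⟨h1, _, h3⟩ | ⟨h1, h2, h3⟩
        · exfalso
          rcases hx with hx | hx
          · exact h1 hx
          · exact hx h3
        · have h4 := T.rk_lt w h1
          rw [← h2, hv] at h4
          have hcol : ∀ y y', (wg T.pt).Reachable (y, w) (y', w) :=
            ring_conn (fun y => (y, w)) (T.l w) (fun y hy => ih _ h4 w rfl y (Or.inr hy))
          obtain ⟨h5, h6⟩ := T.hor ha hw'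
          exact h5.reachable.trans ((hcol x (x + 1)).trans h6.reachable.symm)
  have col : ∀ v x y, (wg T.pt).Reachable (x, v) (y, v) := by
    intro v
    exact ring_conn (fun y => (y, v)) (T.l v) (fun y hy => link _ v rfl y (Or.inr hy))
  have toroot : ∀ (n : ℕ) (v : V), T.R - T.rk v = n → ∀ x, (wg T.pt).Reachable (x, v) (0, T.r) := by
    intro n
    induction n using Nat.strong_induction_on with
    | _ n ih =>
      intro v hv x
      by_cases hr : v = T.r
      · rw [hr]
        exact col _ _ _
      · have h1 := T.rk_lt v hr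
        have h2 := T.rk_le (T.par v)
        have h3 := ih (T.R - T.rk (T.par v)) (by omega) (T.par v) rfl (T.l v)
        have h4 := (T.hor ha (show T.E v (T.par v) (T.l v) from Or.inl ⟨hr, rfl, rfl⟩)).1
        exact (col v x (T.l v)).trans (h4.reachable.trans h3)
  rw [connected_iff]
  refine ⟨?_, ⟨(0, T.r)⟩⟩
  rintro ⟨x, v⟩ ⟨y, w⟩
  exact (toroot _ v rfl x).trans (toroot _ w rfl y).symm

end wg

end Pool.Agent.T9h44.LA
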